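import Pool.Agent.H356R3.HT.Defs

/-!
# BODY: the body of revolution belonging to a pair of functions
-/

set_option autoImplicit false
open MeasureTheory Set Pointwise
namespace Pool.Agent.H356R3.HT

namespace BODYL

open Pool.Agent.Helper481.MS (IsConvexBody relBall proj sub_hull vol_add_seg seg_eq)
open Pool.Agent.Helper481.MB (kappa eball eball_compact)

/-- Euclidean norm of a vector -/
noncomputable def en {n : ℕ} (y : Fin n → ℝ) : ℝ := √(∑ i, y i ^ 2)

theorem en_nonneg {n : ℕ} (y : Fin n → ℝ) : 0 ≤ en y := Real.sqrt_nonneg _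

theorem en_sq {n : ℕ} (y : Fin n → ℝ) : en y ^ 2 = ∑ i, y i ^ 2 :=
  Real.sq_sqrt (Finset.sum_nonneg fun _ _ => sq_nonneg _)

theorem abs_le_en {n : ℕ} (y : Fin n → ℝ) (i : Fin n) : |y i| ≤ en y := by
  unfold en
  apply Real.le_sqrt_of_sq_le
  rw [sq_abs]
  exact Finset.single_le_sum (f := fun i => y i ^ 2) (fun j _ => sq_nonneg _) (Finset.mem_univ i)

theorem cs {n : ℕ} (x y : Fin n → ℝ) : ∑ i, x i * y i ≤ en x * en y := by
  have h1 := Finset.sum_mul_sq_le_sq_mul_sq Finset.univ x y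
  have h2 : (∑ i, x i * y i) ^ 2 ≤ (en x * en y) ^ 2 := by
    rw [mul_pow, en_sq, en_sq]
    exact h1
  exact (abs_le_of_sq_le_sq' h2 (mul_nonneg (en_nonneg x) (en_nonneg y))).2

theorem en_measurable {n : ℕ} : Measurable (en (n := n)) := by
  unfold en
  exact (Continuous.sqrt (by fun_prop)).measurable

/-- the tail of a vector -/
def tl {n : ℕ} (x : Fin (n + 1) → ℝ) : Fin n → ℝ := fun i => x i.succ

/-- body of revolution with profile `h` -/
def Rev (n : ℕ) (h : ℝ → ℝ) : Set (Fin (n + 1) → ℝ) :=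
  {x | |x 0| ≤ 1 ∧ en (tl x) ^ n ≤ h |x 0|}

theorem Rev_meas (n : ℕ) (h : ℝ → ℝ) (hm : Measurable h) : MeasurableSet (Rev n h) := by
  have h0 : Measurable fun x : Fin (n + 1) → ℝ => |x 0| :=
    (continuous_abs.comp (continuous_apply 0)).measurable
  have h1 : Measurable fun x : Fin (n + 1) → ℝ => en (tl x) ^ n := by
    apply Measurable.pow_const
    apply en_measurable.comp
    exact (continuous_pi fun i => continuous_apply _).measurable
  exact (measurableSet_le h0 measurable_const).inter (measurableSet_le h1 (hm.comp h0))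

theorem ball_set {n : ℕ} (hn : 1 ≤ n) (c : ℝ) (hc : 0 ≤ c) :
    {y : Fin n → ℝ | en y ^ n ≤ c ^ n} = c • eball n := by
  have hn0 : n ≠ 0 := by omega
  ext y
  constructor
  · intro hy
    have h1 : en y ^ n ≤ c ^ n := hy
    rw [pow_le_pow_iff_left₀ (en_nonneg y) hc hn0] at h1
    rcases hc.eq_or_lt with h2 | h2
    · rw [← h2] at h1
      have h3 : en y = 0 := le_antisymm h1 (en_nonneg y)
      refine ⟨0, ?_, ?_⟩
      · show ∑ i, (0 : Fin n → ℝ) i ^ 2 ≤ 1
        simp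
      · ext i
        have h4 := abs_le_en y i
        rw [h3] at h4
        have h5 : y i = 0 := abs_eq_zero.1 (le_antisymm h4 (abs_nonneg _))
        simp [h5]
    · refine ⟨c⁻¹ • y, ?_, ?_⟩
      · show ∑ i, (c⁻¹ • y) i ^ 2 ≤ 1
        have h3 : ∑ i, (c⁻¹ • y) i ^ 2 = (c⁻¹) ^ 2 * ∑ i, y i ^ 2 := by
          rw [Finset.mul_sum]
          apply Finset.sum_congr rfl
          intro i _
          simp only [Pi.smul_apply, smul_eq_mul]
          ring
        rw [h3, ← en_sq]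
        have h4 : c⁻¹ * en y ≤ 1 := by
          rw [inv_mul_le_iff₀ h2, mul_one]
          exact h1
        have h5 : 0 ≤ c⁻¹ * en y := mul_nonneg (inv_nonneg.2 hc) (en_nonneg y)
        calc (c⁻¹) ^ 2 * en y ^ 2 = (c⁻¹ * en y) ^ 2 := by ring
          _ ≤ 1 := pow_le_one₀ h5 h4
      · show c • (c⁻¹ • y) = y
        rw [smul_smul, mul_inv_cancel₀ h2.ne', one_smul]
  · rintro ⟨z, hz, rfl⟩
    have h1 : ∑ i, z i ^ 2 ≤ 1 := hz
    show en (c • z) ^ n ≤ c ^ n
    have h2 : en (c • z) ≤ c := by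
      unfold en
      rw [Real.sqrt_le_left hc]
      have h3 : ∑ i, (c • z) i ^ 2 = c ^ 2 * ∑ i, z i ^ 2 := by
        rw [Finset.mul_sum]
        apply Finset.sum_congr rfl
        intro i _
        simp only [Pi.smul_apply, smul_eq_mul]
        ring
      rw [h3]
      nlinarith [sq_nonneg c]
    exact pow_le_pow_left₀ (en_nonneg _) h2 n

theorem ball_vol {n : ℕ} (hn : 1 ≤ n) (r : ℝ) (hr : 0 ≤ r) :
    volume {y : Fin n → ℝ | en y ^ n ≤ r} = ENNReal.ofReal r * kappa n := by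
  have hn0 : n ≠ 0 := by omega
  obtain ⟨c, hc, rfl⟩ : ∃ c : ℝ, 0 ≤ c ∧ c ^ n = r :=
    ⟨r ^ ((n : ℝ)⁻¹), Real.rpow_nonneg hr _, Real.rpow_inv_natCast_pow hr hn0⟩
  rw [ball_set hn c hc, Measure.addHaar_smul]
  congr 2
  rw [Module.finrank_fin_fun, abs_of_nonneg (pow_nonneg hc n)]

theorem int_sym (φ : ℝ → ENNReal) : ∫⁻ t in Icc (-1 : ℝ) 1, φ |t| =
    2 * ∫⁻ t in Icc (0 : ℝ) 1, φ t := by
  have h1 : Icc (-1 : ℝ) 1 = Ico (-1 : ℝ) 0 ∪ Icc 0 1 := by
    rw [Ico_union_Icc_eq_Icc (by norm_num) (by norm_num)]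
  have hd : Disjoint (Ico (-1 : ℝ) 0) (Icc 0 1) := by
    rw [Set.disjoint_left]
    intro t ht ht'
    exact absurd ht.2 (not_lt.2 ht'.1)
  rw [h1, lintegral_union measurableSet_Icc hd]
  have h2 : ∫⁻ t in Icc (0 : ℝ) 1, φ |t| = ∫⁻ t in Icc (0 : ℝ) 1, φ t := by
    apply setLIntegral_congr_fun measurableSet_Icc
    intro t ht
    simp only
    rw [abs_of_nonneg ht.1]
  have h3 : ∫⁻ t in Ico (-1 : ℝ) 0, φ |t| = ∫⁻ t in Icc (0 : ℝ) 1, φ t := by
    have h4 : ∫⁻ t in Ico (-1 : ℝ) 0, φ |t| = ∫⁻ t in Ico (-1 : ℝ) 0, φ (-t) := by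
      apply setLIntegral_congr_fun measurableSet_Ico
      intro t ht
      simp only
      rw [abs_of_nonpos ht.2.le]
    have h5 := (Measure.measurePreserving_neg (volume : Measure ℝ)).setLIntegral_comp_preimage_emb
      (MeasurableEquiv.neg ℝ).measurableEmbedding φ (Ioc 0 1)
    have h6 : (Neg.neg ⁻¹' Ioc (0 : ℝ) 1 : Set ℝ) = Ico (-1) 0 := by
      ext t
      simp only [mem_preimage, mem_Ioc, mem_Ico]
      constructor
      · rintro ⟨a, b⟩; constructor <;> linarith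
      · rintro ⟨a, b⟩; constructor <;> linarith
    rw [h6] at h5
    rw [h4, h5]
    exact setLIntegral_congr Ioc_ae_eq_Icc
  rw [h2, h3, two_mul]

theorem vol_rev {n : ℕ} (hn : 1 ≤ n) (h : ℝ → ℝ) (hm : Measurable h)
    (h0 : ∀ t ∈ Icc (0:ℝ) 1, 0 ≤ h t) :
    volume (Rev n h) = 2 * kappa n * ∫⁻ t in Icc (0:ℝ) 1, ENNReal.ofReal (h t) := by
  have hK := Rev_meas n h hm
  have h1 := (volume_preserving_piFinSuccAbove (fun _ : Fin (n + 1) => ℝ) 0).symm
  have h2 := h1.measure_preimage hK.nullMeasurableSet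
  rw [← h2, Measure.volume_eq_prod, Measure.prod_apply (h1.measurable hK)]
  have h3 : ∀ t : ℝ, volume (Prod.mk t ⁻¹'
      ((MeasurableEquiv.piFinSuccAbove (fun _ : Fin (n + 1) => ℝ) 0).symm ⁻¹' Rev n h)) =
      (Icc (-1 : ℝ) 1).indicator (fun t => ENNReal.ofReal (h |t|) * kappa n) t := by
    intro t
    have h4 : (Prod.mk t ⁻¹'
      ((MeasurableEquiv.piFinSuccAbove (fun _ : Fin (n + 1) => ℝ) 0).symm ⁻¹' Rev n h)) =
      {y : Fin n → ℝ | |t| ≤ 1 ∧ en y ^ n ≤ h |t|} := by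
      ext y
      have h5 : (MeasurableEquiv.piFinSuccAbove (fun _ : Fin (n + 1) => ℝ) 0).symm (t, y) =
          Fin.cons t y := Fin.insertNth_zero' t y
      show (MeasurableEquiv.piFinSuccAbove (fun _ : Fin (n + 1) => ℝ) 0).symm (t, y) ∈ Rev n h ↔ _
      rw [h5]
      have h6 : tl (Fin.cons t y : Fin (n + 1) → ℝ) = y := by
        ext i
        simp [tl]
      show (|(Fin.cons t y : Fin (n + 1) → ℝ) 0| ≤ 1 ∧
        en (tl (Fin.cons t y : Fin (n + 1) → ℝ)) ^ n ≤ h |(Fin.cons t y : Fin (n + 1) → ℝ) 0|) ↔ _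
      rw [h6, Fin.cons_zero]
      rfl
    rw [h4]
    by_cases ht : |t| ≤ 1
    · have ht' : t ∈ Icc (-1 : ℝ) 1 := abs_le.1 ht
      rw [Set.indicator_of_mem ht']
      have h5 : {y : Fin n → ℝ | |t| ≤ 1 ∧ en y ^ n ≤ h |t|} =
          {y : Fin n → ℝ | en y ^ n ≤ h |t|} := by
        ext y
        exact ⟨fun h => h.2, fun h => ⟨ht, h⟩⟩
      rw [h5]
      exact ball_vol hn _ (h0 _ ⟨abs_nonneg t, ht⟩)
    · have ht' : t ∉ Icc (-1 : ℝ) 1 := fun h => ht (abs_le.2 h)
      rw [Set.indicator_of_notMem ht']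
      have h5 : {y : Fin n → ℝ | |t| ≤ 1 ∧ en y ^ n ≤ h |t|} = ∅ := by
        ext y
        exact ⟨fun h => ht h.1, fun h => h.elim⟩
      rw [h5, measure_empty]
  rw [lintegral_congr h3, lintegral_indicator measurableSet_Icc,
    int_sym (fun t => ENNReal.ofReal (h t) * kappa n), lintegral_mul_const]
  · ring
  · exact (ENNReal.measurable_ofReal.comp hm)

theorem relBall_sub {d : ℕ} {K : Set (Fin d → ℝ)} (hc : Convex ℝ K) (h : ∀ x ∈ K, -x ∈ K) :
    relBall K ⊆ K := by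
  rintro _ ⟨_, ⟨x, hx, y, hy, rfl⟩, rfl⟩
  have h1 := hc hx (h y hy) (show (0:ℝ) ≤ 1 / 2 by norm_num) (show (0:ℝ) ≤ 1 / 2 by norm_num)
    (by norm_num)
  show (1 / 2 : ℝ) • (x - y) ∈ K
  have h2 : (1 / 2 : ℝ) • (x - y) = (1 / 2 : ℝ) • x + (1 / 2 : ℝ) • (-y) := by module
  rwa [h2]

theorem polar_closed {d : ℕ} (M : Set (Fin d → ℝ)) : IsClosed (polar M) := by
  have h : polar M = ⋂ x ∈ M, {y | ∑ i, x i * y i ≤ 1} := by
    ext y
    simp only [polar, mem_iInter]
    rfl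
  rw [h]
  exact isClosed_biInter fun x _ => isClosed_le (by fun_prop) continuous_const

theorem polar_convex {d : ℕ} (M : Set (Fin d → ℝ)) : Convex ℝ (polar M) := by
  intro y hy z hz a b ha hb hab x hx
  have h1 := hy x hx
  have h2 := hz x hx
  have h3 : ∑ i, x i * (a • y + b • z) i = a * ∑ i, x i * y i + b * ∑ i, x i * z i := by
    rw [Finset.mul_sum, Finset.mul_sum, ← Finset.sum_add_distrib]
    apply Finset.sum_congr rfl
    intro i _
    simp only [Pi.add_apply, Pi.smul_apply, smul_eq_mul]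
    ring
  rw [h3]
  nlinarith

theorem Rev_neg {n : ℕ} (h : ℝ → ℝ) (x : Fin (n + 1) → ℝ) (hx : x ∈ Rev n h) : -x ∈ Rev n h := by
  have h1 : en (tl (-x)) = en (tl x) := by
    unfold en tl
    simp
  obtain ⟨a, b⟩ := hx
  refine ⟨?_, ?_⟩
  · simpa using a
  · rw [h1]
    simpa using b

theorem polar_neg {d : ℕ} (M : Set (Fin d → ℝ)) (hM : ∀ x ∈ M, -x ∈ M) (y : Fin d → ℝ)
    (hy : y ∈ polar M) : -y ∈ polar M := by
  intro x hx
  have h1 := hy (-x) (hM x hx)
  have h2 : ∑ i, x i * (-y) i = ∑ i, (-x) i * y i := by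
    apply Finset.sum_congr rfl
    intro i _
    simp only [Pi.neg_apply]
    ring
  rw [h2]
  exact h1

end BODYL

open BODYL in
theorem BODY_proof : S_BODY := by
  intro n a f g hn ha ha1 hf hg hf0 hfnn hgnn hg1 hfg
  have hn0 : n ≠ 0 := by omega
  obtain ⟨L, hL⟩ : ∃ L, L = Rev n g := ⟨_, rfl⟩
  obtain ⟨K, hK⟩ : ∃ K, K = polar L := ⟨_, rfl⟩
  have hLneg : ∀ x ∈ L, -x ∈ L := by
    rw [hL]; exact fun x hx => Rev_neg g x hx
  have hKneg : ∀ y ∈ K, -y ∈ K := by
    rw [hK]; exact fun y hy => polar_neg L hLneg y hy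
  have hKclosed : IsClosed K := by rw [hK]; exact polar_closed L
  have hKconv : Convex ℝ K := by rw [hK]; exact polar_convex L
  -- `g ≤ 1`
  have hgle : ∀ s ∈ Icc (0:ℝ) 1, g s ≤ 1 := by
    intro s hs
    have h1 := hfg 0 ⟨le_refl _, zero_le_one⟩ s hs
    rw [hf0, one_mul, zero_mul, sub_zero, one_pow] at h1
    exact h1
  -- bounds for the elements of `L`
  have hLb : ∀ x ∈ L, ∀ i, |x i| ≤ 1 := by
    intro x hx i
    rw [hL] at hx
    refine Fin.cases ?_ (fun j => ?_) i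
    · exact hx.1
    · have h1 := hx.2.trans (hgle _ ⟨abs_nonneg _, hx.1⟩)
      have h2 : en (Pool.Agent.H356R3.HT.BODYL.tl x) ≤ 1 := by
        rwa [pow_le_one_iff_of_nonneg (en_nonneg _) hn0] at h1
      exact (abs_le_en (Pool.Agent.H356R3.HT.BODYL.tl x) j).trans h2
  -- unit vectors in `L`
  have hsingle0 : ∀ t : ℝ, |t| ≤ a → (Pi.single 0 t : Fin (n + 1) → ℝ) ∈ L := by
    intro t ht
    rw [hL]
    refine ⟨?_, ?_⟩
    · rw [Pi.single_eq_same]
      exact ht.trans ha1.le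
    · have h1 : en (Pool.Agent.H356R3.HT.BODYL.tl (Pi.single 0 t : Fin (n + 1) → ℝ)) = 0 := by
        unfold en Pool.Agent.H356R3.HT.BODYL.tl
        simp
      rw [h1, zero_pow hn0, Pi.single_eq_same, hg1 _ ⟨abs_nonneg _, ht⟩]
      exact zero_le_one
  have hsingle1 : ∀ (j : Fin n) (t : ℝ), |t| ≤ 1 →
      (Pi.single j.succ t : Fin (n + 1) → ℝ) ∈ L := by
    intro j t ht
    rw [hL]
    have h0 : (Pi.single j.succ t : Fin (n + 1) → ℝ) 0 = 0 :=
      Pi.single_eq_of_ne (Fin.succ_ne_zero j).symm t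
    refine ⟨?_, ?_⟩
    · rw [h0, abs_zero]; exact zero_le_one
    · have h1 : en (Pool.Agent.H356R3.HT.BODYL.tl (Pi.single j.succ t : Fin (n + 1) → ℝ)) = |t| := by
        unfold en Pool.Agent.H356R3.HT.BODYL.tl
        rw [Finset.sum_eq_single j]
        · rw [Pi.single_eq_same, Real.sqrt_sq_eq_abs]
        · intro i _ hij
          rw [Pi.single_eq_of_ne (fun h => hij (Fin.succ_injective _ h))]
          ring
        · intro h; exact absurd (Finset.mem_univ j) h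
      rw [h1, h0, abs_zero, hg1 0 ⟨le_refl _, ha.le⟩]
      exact pow_le_one₀ (abs_nonneg _) ht
  -- `K` is bounded
  have hKb : ∀ y ∈ K, ∀ i, |y i| ≤ 1 / a := by
    intro y hy i
    rw [hK] at hy
    have hs : ∀ (j : Fin (n + 1)) (t : ℝ), ∑ i, (Pi.single j t : Fin (n + 1) → ℝ) i * y i =
        t * y j := by
      intro j t
      rw [Finset.sum_eq_single j]
      · rw [Pi.single_eq_same]
      · intro i _ hij
        rw [Pi.single_eq_of_ne hij, zero_mul]
      · intro h; exact absurd (Finset.mem_univ j) h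
    refine Fin.cases ?_ (fun j => ?_) i
    · have h1 := hy _ (hsingle0 a (by rw [abs_of_pos ha]))
      have h2 := hy _ (hsingle0 (-a) (by rw [abs_neg, abs_of_pos ha]))
      rw [hs] at h1 h2
      rw [abs_le, le_div_iff₀ ha, neg_le, ← sub_nonneg]
      constructor
      · rw [sub_nonneg, le_div_iff₀ ha]; nlinarith
      · nlinarith
    · have h1 := hy _ (hsingle1 j 1 (by rw [abs_one]))
      have h2 := hy _ (hsingle1 j (-1) (by rw [abs_neg, abs_one]))
      rw [hs] at h1 h2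
      have h3 : |y j.succ| ≤ 1 := abs_le.2 ⟨by linarith, by linarith⟩
      exact h3.trans ((one_le_div ha).2 ha1.le)
  have hKcomp : IsCompact K := by
    apply IsCompact.of_isClosed_subset
      (isCompact_closedBall (0 : Fin (n + 1) → ℝ) (1 / a)) hKclosed
    intro y hy
    rw [mem_closedBall_zero_iff, pi_norm_le_iff_of_nonneg (by positivity)]
    intro i
    rw [Real.norm_eq_abs]
    exact hKb y hy i
  -- `K` is a neighbourhood of `0`
  have hKint : (interior K).Nonempty := by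
    refine ⟨0, mem_interior.2 ⟨Metric.ball 0 (1 / (n + 1)), ?_, Metric.isOpen_ball,
      Metric.mem_ball_self (by positivity)⟩⟩
    intro y hy
    rw [mem_ball_zero_iff] at hy
    rw [hK]
    intro x hx
    have h1 : ∀ i ∈ (Finset.univ : Finset (Fin (n + 1))), x i * y i ≤ 1 / ((n : ℝ) + 1) := by
      intro i _
      have h2 := hLb x hx i
      have h3 : |y i| ≤ 1 / ((n : ℝ) + 1) := by
        rw [← Real.norm_eq_abs]
        exact (norm_le_pi_norm y i).trans hy.le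
      calc x i * y i ≤ |x i * y i| := le_abs_self _
        _ = |x i| * |y i| := abs_mul _ _
        _ ≤ 1 * (1 / ((n : ℝ) + 1)) := mul_le_mul h2 h3 (abs_nonneg _) zero_le_one
        _ = 1 / ((n : ℝ) + 1) := one_mul _
    have h4 := Finset.sum_le_sum h1
    rw [Finset.sum_const, Finset.card_univ, Fintype.card_fin, nsmul_eq_mul] at h4
    have h5 : ((n + 1 : ℕ) : ℝ) * (1 / ((n : ℝ) + 1)) = 1 := by
      push_cast
      field_simp
    rw [h5] at h4
    exact h4
  have hbody : Pool.Agent.Helper481.MS.IsConvexBody K := ⟨hKcomp, hKconv, hKint⟩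
  -- `L` is in the polar body
  have hrel := relBall_sub hKconv hKneg
  have hLpol : L ⊆ polar (Pool.Agent.Helper481.MS.relBall K) := by
    intro x hx z hz
    have h1 := hrel hz
    rw [hK] at h1
    have h2 := h1 x hx
    have h3 : ∑ i, z i * x i = ∑ i, x i * z i := Finset.sum_congr rfl fun i _ => mul_comm _ _
    rw [h3]
    exact h2
  -- the body of `f` is in `K`
  have hRK : Rev n f ⊆ K := by
    intro y hy
    rw [hK]
    intro x hx
    rw [hL] at hx
    rw [Fin.sum_univ_succ]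
    have h1 : ∑ i : Fin n, x i.succ * y i.succ ≤
        en (Pool.Agent.H356R3.HT.BODYL.tl x) * en (Pool.Agent.H356R3.HT.BODYL.tl y) :=
      cs (Pool.Agent.H356R3.HT.BODYL.tl x) (Pool.Agent.H356R3.HT.BODYL.tl y)
    have h2 : x 0 * y 0 ≤ |y 0| * |x 0| := by
      rw [← abs_mul, mul_comm]
      exact le_abs_self _
    have h3 : (en (Pool.Agent.H356R3.HT.BODYL.tl x) * en (Pool.Agent.H356R3.HT.BODYL.tl y)) ^ n ≤
        (1 - |y 0| * |x 0|) ^ n := by
      rw [mul_pow]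
      calc en (Pool.Agent.H356R3.HT.BODYL.tl x) ^ n * en (Pool.Agent.H356R3.HT.BODYL.tl y) ^ n
          ≤ g |x 0| * f |y 0| := mul_le_mul hx.2 hy.2 (pow_nonneg (en_nonneg _) n)
            (hgnn _ ⟨abs_nonneg _, hx.1⟩)
        _ = f |y 0| * g |x 0| := mul_comm _ _
        _ ≤ _ := hfg _ ⟨abs_nonneg _, hy.1⟩ _ ⟨abs_nonneg _, hx.1⟩
    have h4 : 0 ≤ 1 - |y 0| * |x 0| := by
      have h5 : |y 0| * |x 0| ≤ 1 * 1 :=
        mul_le_mul hy.1 hx.1 (abs_nonneg _) zero_le_one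
      linarith
    have h5 := (pow_le_pow_iff_left₀ (mul_nonneg (en_nonneg _) (en_nonneg _)) h4 hn0).1 h3
    linarith
  -- the projection
  have hproj : Pool.Agent.Helper481.MB.eball n ⊆ Pool.Agent.Helper481.MS.proj K := by
    intro y hy
    have h1 : ∑ i, y i ^ 2 ≤ 1 := hy
    have h6 : Pool.Agent.H356R3.HT.BODYL.tl (Fin.cons 0 y : Fin (n + 1) → ℝ) = y := by
      ext i
      simp [Pool.Agent.H356R3.HT.BODYL.tl]
    refine ⟨Fin.cons 0 y, hRK ⟨?_, ?_⟩, by ext i; simp⟩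
    · rw [Fin.cons_zero, abs_zero]; exact zero_le_one
    · rw [h6, Fin.cons_zero, abs_zero, hf0]
      apply pow_le_one₀ (en_nonneg y)
      unfold en
      rw [← Real.sqrt_one]
      exact Real.sqrt_le_sqrt h1
  -- unit vectors in `K`
  have he : ∀ t : ℝ, |t| = 1 → (Pi.single 0 t : Fin (n + 1) → ℝ) ∈ K := by
    intro t ht
    rw [hK]
    intro x hx
    rw [Finset.sum_eq_single 0]
    · rw [Pi.single_eq_same]
      calc x 0 * t ≤ |x 0 * t| := le_abs_self _
        _ = |x 0| := by rw [abs_mul, ht, mul_one]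
        _ ≤ 1 := hLb x hx 0
    · intro i _ hi
      rw [Pi.single_eq_of_ne hi, mul_zero]
    · intro h; exact absurd (Finset.mem_univ _) h
  have hmeet : (((Pi.single 0 2 : Fin (n + 1) → ℝ) +ᵥ K) ∩ K).Nonempty := by
    refine ⟨Pi.single 0 1, ⟨Pi.single 0 (-1), he _ (by norm_num), ?_⟩, he _ (by norm_num)⟩
    show (Pi.single 0 2 : Fin (n + 1) → ℝ) + Pi.single 0 (-1) = Pi.single 0 1
    rw [← Pi.single_add]
    norm_num
  refine ⟨K, hbody, ?_⟩
  unfold cTr
  refine le_iSup_of_le (Pi.single 0 2) (le_iSup_of_le hmeet ?_)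
  unfold htVol
  have hv1 : 2 * Pool.Agent.Helper481.MB.kappa n * ∫⁻ t in Icc (0:ℝ) 1, ENNReal.ofReal (g t) ≤
      volume (polar (Pool.Agent.Helper481.MS.relBall K)) := by
    rw [← vol_rev hn g hg hgnn, ← hL]
    exact measure_mono hLpol
  have hv2 : 2 * Pool.Agent.Helper481.MB.kappa n *
      (1 + ∫⁻ t in Icc (0:ℝ) 1, ENNReal.ofReal (f t)) ≤
      volume (convexHull ℝ (K ∪ ((Pi.single 0 2 : Fin (n + 1) → ℝ) +ᵥ K))) := by
    refine le_trans ?_ (measure_mono (Pool.Agent.Helper481.MS.sub_hull _ _))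
    rw [← Pool.Agent.Helper481.MS.seg_eq, Pool.Agent.Helper481.MS.vol_add_seg hKcomp hKconv]
    have h1 := vol_rev hn f hf hfnn
    have h2 : volume (Rev n f) ≤ volume K := measure_mono hRK
    rw [h1] at h2
    have h3 : Pool.Agent.Helper481.MB.kappa n ≤ volume (Pool.Agent.Helper481.MS.proj K) :=
      measure_mono hproj
    calc 2 * Pool.Agent.Helper481.MB.kappa n *
        (1 + ∫⁻ t in Icc (0:ℝ) 1, ENNReal.ofReal (f t))
        = 2 * Pool.Agent.Helper481.MB.kappa n * (∫⁻ t in Icc (0:ℝ) 1, ENNReal.ofReal (f t)) +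
          2 * Pool.Agent.Helper481.MB.kappa n := by ring
      _ ≤ _ := by gcongr
  calc 4 * Pool.Agent.Helper481.MB.kappa n ^ 2 / Pool.Agent.Helper481.MB.kappa (n + 1) *
      ((∫⁻ s in Icc (0:ℝ) 1, ENNReal.ofReal (g s)) *
      (1 + ∫⁻ t in Icc (0:ℝ) 1, ENNReal.ofReal (f t)))
      = (2 * Pool.Agent.Helper481.MB.kappa n * ∫⁻ t in Icc (0:ℝ) 1, ENNReal.ofReal (g t)) /
        Pool.Agent.Helper481.MB.kappa (n + 1) * (2 * Pool.Agent.Helper481.MB.kappa n *
      (1 + ∫⁻ t in Icc (0:ℝ) 1, ENNReal.ofReal (f t))) := by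
        rw [div_eq_mul_inv, div_eq_mul_inv]; ring
    _ ≤ _ := by gcongr

end Pool.Agent.H356R3.HT
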