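import Pool.Agent.H356R3.HT.Defs
set_option autoImplicit false
open MeasureTheory Set Pointwise
namespace Pool.Agent.H356R3.HT

namespace DERL

/-- the integrand of `Hk` -/
noncomputable def FI (n : ℕ) (k z : ℝ) : ℝ := (√(gz n z + k ^ 2) - k) / z

/-- its derivative -/
noncomputable def FD (n : ℕ) (k z : ℝ) : ℝ := (k / √(gz n z + k ^ 2) - 1) / z

theorem meas_FI (n : ℕ) (k : ℝ) : Measurable (FI n k) := by
  unfold FI gz
  fun_prop

theorem meas_FD (n : ℕ) (k : ℝ) : Measurable (FD n k) := by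
  unfold FD gz
  fun_prop

theorem gz_nonneg (n : ℕ) {z : ℝ} (h0 : 0 < z) (h1 : z ≤ 1) : 0 ≤ gz n z :=
  mul_nonneg h0.le (pow_nonneg (by linarith) _)

theorem gz_le (n : ℕ) {z : ℝ} (h0 : 0 < z) (h1 : z ≤ 1) : gz n z ≤ z := by
  unfold gz
  have : (1 - z) ^ n ≤ 1 := pow_le_one₀ (by linarith) (by linarith)
  nlinarith

theorem sqrt_ge {g k : ℝ} (hg : 0 ≤ g) (hk : 0 < k) : k ≤ √(g + k ^ 2) :=
  Real.le_sqrt_of_sq_le (by linarith)

theorem sqrt_sub {g k : ℝ} (hg : 0 ≤ g) (hk : 0 < k) : √(g + k ^ 2) - k ≤ g / k := by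
  have h1 : √(g + k ^ 2) ≤ k + g / k := by
    apply Real.sqrt_le_iff.2
    refine ⟨by positivity, ?_⟩
    have : (k + g / k) ^ 2 = k ^ 2 + 2 * g + (g / k) ^ 2 := by
      field_simp
      ring
    rw [this]
    have := sq_nonneg (g / k)
    linarith
  linarith

theorem bound_FI (n : ℕ) {k z : ℝ} (hk : 0 < k) (h0 : 0 < z) (h1 : z ≤ 1) :
    ‖FI n k z‖ ≤ 1 / k := by
  have hg := gz_nonneg n h0 h1
  have a1 := sqrt_ge hg hk
  have a2 := sqrt_sub hg hk
  unfold FI
  rw [Real.norm_eq_abs, abs_of_nonneg (div_nonneg (by linarith) h0.le), div_le_div_iff₀ h0 hk]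
  have a3 := gz_le n h0 h1
  have a4 : (√(gz n z + k ^ 2) - k) * k ≤ gz n z := by
    rw [← le_div_iff₀ hk]
    exact a2
  linarith

theorem bound_FD (n : ℕ) {k z : ℝ} (hk : 0 < k) (h0 : 0 < z) (h1 : z ≤ 1) :
    ‖FD n k z‖ ≤ 1 / k ^ 2 := by
  have hg := gz_nonneg n h0 h1
  have a1 := sqrt_ge hg hk
  have a2 := sqrt_sub hg hk
  have a3 := gz_le n h0 h1
  have hs : 0 < √(gz n z + k ^ 2) := by linarith
  have e : FD n k z = -((√(gz n z + k ^ 2) - k) / (√(gz n z + k ^ 2) * z)) := by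
    unfold FD
    field_simp
    ring
  rw [e, norm_neg, Real.norm_eq_abs, abs_of_nonneg (div_nonneg (by linarith) (by positivity)),
    div_le_div_iff₀ (by positivity) (by positivity)]
  have a4 : (√(gz n z + k ^ 2) - k) * k ≤ gz n z := by
    rw [← le_div_iff₀ hk]
    exact a2
  calc (√(gz n z + k ^ 2) - k) * k ^ 2 = ((√(gz n z + k ^ 2) - k) * k) * k := by ring
    _ ≤ z * √(gz n z + k ^ 2) := by
      refine mul_le_mul (a4.trans a3) a1 hk.le h0.le
    _ = _ := by ring

theorem hasDeriv_FI (n : ℕ) {k z : ℝ} (hk : 0 < k) (h0 : 0 < z) (h1 : z ≤ 1) :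
    HasDerivAt (fun x => FI n x z) (FD n k z) k := by
  have hg := gz_nonneg n h0 h1
  have hne : gz n z + k ^ 2 ≠ 0 := by positivity
  have e1 : HasDerivAt (fun x : ℝ => gz n z + x ^ 2) (2 * k) k := by
    have := (hasDerivAt_pow 2 k).const_add (gz n z)
    simpa using this
  have e2 := (e1.sqrt hne).sub (hasDerivAt_id k)
  have e3 := e2.div_const z
  unfold FI FD
  refine e3.congr_deriv ?_
  congr 1
  congr 1
  rw [mul_div_mul_left _ _ (by norm_num : (2:ℝ) ≠ 0)]

theorem hasDeriv_Hk (n : ℕ) {k : ℝ} (hk : 0 < k) :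
    HasDerivAt (fun x => Hk n x 1) (1 / 2 * ∫ z in (0:ℝ)..1, FD n k z) k := by
  unfold Hk
  apply HasDerivAt.const_mul
  have hI : ∀ z : ℝ, z ∈ Set.uIoc (0:ℝ) 1 → 0 < z ∧ z ≤ 1 := by
    intro z hz
    rw [uIoc_of_le zero_le_one] at hz
    exact hz
  refine (intervalIntegral.hasDerivAt_integral_of_dominated_loc_of_deriv_le
    (F := FI n) (F' := FD n) (bound := fun _ => 4 / k ^ 2) (s := Ioi (k / 2))
    (Ioi_mem_nhds (by linarith)) ?_ ?_ ?_ ?_ ?_ ?_).2
  · exact Filter.Eventually.of_forall fun x => (meas_FI n x).aestronglyMeasurable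
  · refine (intervalIntegrable_const (c := 1 / k)).mono_fun'
      (meas_FI n k).aestronglyMeasurable ?_
    filter_upwards [ae_restrict_mem measurableSet_uIoc] with z hz
    exact bound_FI n hk (hI z hz).1 (hI z hz).2
  · exact (meas_FD n k).aestronglyMeasurable
  · refine Filter.Eventually.of_forall fun z hz x hx => ?_
    have hx' : k / 2 < x := hx
    have hx0 : 0 < x := by linarith
    refine (bound_FD n hx0 (hI z hz).1 (hI z hz).2).trans ?_
    rw [div_le_div_iff₀ (by positivity) (by positivity)]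
    nlinarith
  · exact intervalIntegrable_const
  · refine Filter.Eventually.of_forall fun z hz x hx => ?_
    have hx' : k / 2 < x := hx
    exact hasDeriv_FI n (by linarith) (hI z hz).1 (hI z hz).2

end DERL

theorem DER_proof : S_DER := by
  intro n _ k hk
  have h1 := DERL.hasDeriv_Hk n hk
  have h2 : HasDerivAt (fun x : ℝ => 2 * x - 2 * x * Real.log (2 * x)) (-(2 * Real.log (2 * k))) k := by
    have a1 : HasDerivAt (fun x : ℝ => 2 * x) 2 k := by
      simpa using (hasDerivAt_id k).const_mul (2:ℝ)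
    have a2 : HasDerivAt (fun x : ℝ => Real.log (2 * x)) (2 / (2 * k)) k :=
      a1.log (by positivity)
    have a3 := a1.sub (a1.mul a2)
    refine a3.congr_deriv ?_
    field_simp
    ring
  have h3 := h2.add h1
  unfold BB
  refine h3.congr_deriv ?_
  unfold Qf
  have e1 : Real.log (1 / (4 * k ^ 2)) = -(2 * Real.log (2 * k)) := by
    rw [show 4 * k ^ 2 = (2 * k) ^ 2 by ring, one_div, Real.log_inv, Real.log_pow]
    push_cast
    ring
  have e2 : ∫ z in (0:ℝ)..1, (1 - 1 / √(1 + 4 * gz n z / (4 * k ^ 2))) / z =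
      - ∫ z in (0:ℝ)..1, DERL.FD n k z := by
    rw [← intervalIntegral.integral_neg]
    refine intervalIntegral.integral_congr fun z _ => ?_
    show (1 - 1 / √(1 + 4 * gz n z / (4 * k ^ 2))) / z = - DERL.FD n k z
    have e3 : 1 + 4 * gz n z / (4 * k ^ 2) = (gz n z + k ^ 2) / k ^ 2 := by
      field_simp
      ring
    rw [e3, Real.sqrt_div' _ (by positivity), Real.sqrt_sq hk.le, one_div_div]
    unfold DERL.FD
    ring
  rw [e1, e2]
  ring

end Pool.Agent.H356R3.HT
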