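import Pool.Agent.Helper481.MB6

/-!
# The Holmes–Thompson case of the maximal translative convex hull constant (MP_ccd96b_co)

Definitions and the statements of the tasks.
-/

set_option autoImplicit false
open MeasureTheory Set Pointwise

namespace Pool.Agent.H356R3.HT

open Pool.Agent.Helper481.MS (IsConvexBody relBall proj)
open Pool.Agent.Helper481.MB (kappa eball)

/-! ## geometry -/

/-- the polar set -/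
def polar {d : ℕ} (M : Set (Fin d → ℝ)) : Set (Fin d → ℝ) := {y | ∀ x ∈ M, ∑ i, x i * y i ≤ 1}

/-- the Holmes–Thompson volume of `S` for the norm with unit ball `M` -/
noncomputable def htVol {d : ℕ} (M S : Set (Fin d → ℝ)) : ENNReal :=
  volume (polar M) / kappa d * volume S

/-- The maximal normalised volume `μ`, in the relative norm of `K`, of the convex hull of the union
of `K` and a translate of `K` that meets `K`. -/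
noncomputable def cTr {d : ℕ} (μ : Set (Fin d → ℝ) → Set (Fin d → ℝ) → ENNReal)
    (K : Set (Fin d → ℝ)) : ENNReal :=
  ⨆ (p : Fin d → ℝ) (_ : ((p +ᵥ K) ∩ K).Nonempty), μ (relBall K) (convexHull ℝ (K ∪ (p +ᵥ K)))

/-! ## functions of one variable -/

/-- `z (1 - z)^n` -/
def gz (n : ℕ) (z : ℝ) : ℝ := z * (1 - z) ^ n

/-- `log (1/a) - (1/2) ∫_0^1 (1 - (1 + 4 z (1-z)^n / a)^(-1/2)) dz / z` -/
noncomputable def Qf (n : ℕ) (a : ℝ) : ℝ :=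
  Real.log (1 / a) - 1 / 2 * ∫ z in (0:ℝ)..1, (1 - 1 / √(1 + 4 * gz n z / a)) / z

/-- `a` solves the equation `Qf n a = 0` -/
def IsCrit (n : ℕ) (a : ℝ) : Prop := 0 < a ∧ a < 1 ∧ Qf n a = 0

/-- `(1/a) ∫_0^1 (1-z)^n (1 + 4 z (1-z)^n / a)^(-1/2) dz` -/
noncomputable def vI (n : ℕ) (a : ℝ) : ℝ :=
  1 / a * ∫ z in (0:ℝ)..1, (1 - z) ^ n / √(1 + 4 * gz n z / a)

/-- `H_k(y) = (1/2) ∫_0^y (√(z (1-z)^n + k²) - k) dz / z` -/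
noncomputable def Hk (n : ℕ) (k y : ℝ) : ℝ :=
  1 / 2 * ∫ z in (0:ℝ)..y, (√(gz n z + k ^ 2) - k) / z

/-- `BB n k = 2k - 2k log (2k) + H_k(1)`; with `a = 4 k²` this is `√a + (√a / 2) log (1/a) + H_k(1)` -/
noncomputable def BB (n : ℕ) (k : ℝ) : ℝ := 2 * k - 2 * k * Real.log (2 * k) + Hk n k 1

/-- a pair of functions on `[0, ∞)` with `f(t) g(s) ≤ (1 - ts)_+^n` -/
structure Adm (n : ℕ) (f g : ℝ → ℝ) : Prop where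
  f0 : f 0 = 1
  f1 : ∀ t, 0 ≤ t → f t ≤ 1
  fpos : ∀ t, 0 ≤ t → t < 1 → 0 < f t
  fnn : ∀ t, 0 ≤ t → 0 ≤ f t
  gnn : ∀ s, 0 ≤ s → 0 ≤ g s
  fg : ∀ t s, 0 ≤ t → 0 ≤ s → f t * g s ≤ (max 0 (1 - t * s)) ^ n

/-- a regular pair, `f` on `(0, ℓ)`, `g` on `(0, 1/ℓ)` -/
structure Reg (n : ℕ) (ℓ : ℝ) (f g : ℝ → ℝ) : Prop where
  hℓ : 1 ≤ ℓ
  fc : ContinuousOn f (Ioo 0 ℓ)
  gc : ContinuousOn g (Ioo 0 (1 / ℓ))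
  fpos : ∀ t ∈ Ioo 0 ℓ, 0 < f t
  gpos : ∀ s ∈ Ioo 0 (1 / ℓ), 0 < g s
  f1 : ∀ t ∈ Ioo 0 ℓ, f t ≤ 1
  g1 : ∀ s ∈ Ioo 0 (1 / ℓ), g s ≤ 1
  fg : ∀ t ∈ Ioo 0 ℓ, ∀ s ∈ Ioo 0 (1 / ℓ), f t * g s ≤ (1 - t * s) ^ n

/-- the parametrisation of the extremal curve: `x(z)`, the positive root of
`a x (1 + x) = z (1-z)^n` -/
noncomputable def xx (n : ℕ) (a z : ℝ) : ℝ := (√(1 + 4 * gz n z / a) - 1) / 2

/-- `∫_z^1 x / (1 + 2x) dw / w` -/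
noncomputable def PP (n : ℕ) (a z : ℝ) : ℝ :=
  1 / 2 * ∫ w in z..1, (1 - 1 / √(1 + 4 * gz n w / a)) / w

/-- `T(z)` -/
noncomputable def TT (n : ℕ) (a z : ℝ) : ℝ := Real.exp (-PP n a z)

/-- `t(z) = z / T(z)` -/
noncomputable def tt (n : ℕ) (a z : ℝ) : ℝ := z / TT n a z

/-- `f(t(z)) = x(z) / t(z)` -/
noncomputable def FF (n : ℕ) (a z : ℝ) : ℝ :=
  2 * (1 - z) ^ n / (a * (√(1 + 4 * gz n z / a) + 1)) * TT n a z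

/-- `g(T(z)) = a (1 + x(z)) / T(z)` -/
noncomputable def GG (n : ℕ) (a z : ℝ) : ℝ := a * (1 + xx n a z) / TT n a z

/-! ## the tasks -/

/-- SAN: the Blaschke–Santaló inequality for symmetric sets -/
def S_SAN : Prop := ∀ (n : ℕ) (K L : Set (Fin n → ℝ)), IsCompact K → IsCompact L →
  (∀ x ∈ K, -x ∈ K) → (∀ x ∈ L, -x ∈ L) → (∀ x ∈ K, ∀ y ∈ L, ∑ j, x j * y j ≤ 1) →
  volume K * volume L ≤ kappa n ^ 2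

/-- SIGN: the sign of `Qf` -/
def S_SIGN : Prop := ∀ n : ℕ, 1 ≤ n → ∃ a₀, IsCrit n a₀ ∧ (∀ a, 0 < a → a < a₀ → 0 < Qf n a) ∧
  (∀ a, a₀ < a → a ≤ 1 → Qf n a < 0)

/-- DER: the derivative of `BB` -/
def S_DER : Prop := ∀ n : ℕ, 1 ≤ n → ∀ k, 0 < k → HasDerivAt (BB n) (Qf n (4 * k ^ 2)) k

/-- VAL: the value of `BB` at the critical point -/
def S_VAL : Prop := ∀ n : ℕ, 1 ≤ n → ∀ a, IsCrit n a →
  0 ≤ vI n a ∧ BB n (√a / 2) = √a * (1 + vI n a)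

/-- TRAN: the one-dimensional inequality for regular pairs -/
def S_TRAN : Prop := ∀ (n : ℕ) (ℓ : ℝ) (f g : ℝ → ℝ) (β : ℝ), 1 ≤ n → Reg n ℓ f g →
  (∀ k, 0 < k → k ≤ 1 / 2 → BB n k ≤ β) →
  (∫ s in (0:ℝ)..(1 / ℓ), g s) * (1 + ∫ t in (0:ℝ)..ℓ, f t) ≤ β ^ 2

/-- REGU: regularisation -/
def S_REGU : Prop := ∀ (n : ℕ) (f g : ℝ → ℝ), 1 ≤ n → Adm n f g →
  (∫⁻ s in Ioi (0:ℝ), ENNReal.ofReal (g s)) = 0 ∨
  ∃ (ℓ : ℝ) (f' g' : ℝ → ℝ), Reg n ℓ f' g' ∧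
    (∫⁻ t in Ioi (0:ℝ), ENNReal.ofReal (f t)) ≤ ENNReal.ofReal (∫ t in (0:ℝ)..ℓ, f' t) ∧
    (∫⁻ s in Ioi (0:ℝ), ENNReal.ofReal (g s)) ≤ ENNReal.ofReal (∫ s in (0:ℝ)..(1 / ℓ), g' s)

/-- PAR: the functions `TT`, `tt` -/
def S_PAR : Prop := ∀ (n : ℕ) (a : ℝ), 1 ≤ n → IsCrit n a →
  TT n a 0 = a ∧ TT n a 1 = 1 ∧ ContinuousOn (TT n a) (Icc 0 1) ∧
  StrictMonoOn (TT n a) (Icc 0 1) ∧ StrictMonoOn (tt n a) (Icc 0 1) ∧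
  (∀ z ∈ Ioo (0:ℝ) 1, HasDerivAt (TT n a) (TT n a z * xx n a z / ((1 + 2 * xx n a z) * z)) z ∧
    HasDerivAt (tt n a) (tt n a z * (1 + xx n a z) / ((1 + 2 * xx n a z) * z)) z)

/-- FG: the inequality between the two functions -/
def S_FG : Prop := ∀ (n : ℕ) (a : ℝ), 1 ≤ n → IsCrit n a →
  ∀ z ∈ Icc (0:ℝ) 1, ∀ w ∈ Icc (0:ℝ) 1, tt n a z * TT n a w ≤ 1 ∧
    FF n a z * GG n a w ≤ (1 - tt n a z * TT n a w) ^ n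

/-- LOW: the extremal pair -/
def S_LOW : Prop := ∀ (n : ℕ) (a : ℝ), 1 ≤ n → IsCrit n a → ∃ f g : ℝ → ℝ,
  Measurable f ∧ Measurable g ∧ f 0 = 1 ∧ (∀ t ∈ Icc (0:ℝ) 1, 0 ≤ f t) ∧
  (∀ s ∈ Icc (0:ℝ) 1, 0 ≤ g s) ∧ (∀ s ∈ Icc (0:ℝ) a, g s = 1) ∧
  (∀ t ∈ Icc (0:ℝ) 1, ∀ s ∈ Icc (0:ℝ) 1, f t * g s ≤ (1 - t * s) ^ n) ∧
  ENNReal.ofReal (vI n a) ≤ (∫⁻ t in Icc (0:ℝ) 1, ENNReal.ofReal (f t)) ∧
  ENNReal.ofReal (a * (1 + vI n a)) ≤ ∫⁻ s in Icc (0:ℝ) 1, ENNReal.ofReal (g s)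

/-- GEO: from a symmetric body to a pair of functions -/
def S_GEO : Prop := ∀ (n : ℕ) (M : Set (Fin (n + 1) → ℝ)), 1 ≤ n → IsCompact M → Convex ℝ M →
  (interior M).Nonempty → (∀ x ∈ M, -x ∈ M) → (Pi.single 0 1 : Fin (n + 1) → ℝ) ∈ M →
  ∃ f g : ℝ → ℝ, Adm n f g ∧
    volume (polar M) * (volume M + 2 * volume (proj M)) ≤
      4 * kappa n ^ 2 * ((∫⁻ s in Ioi (0:ℝ), ENNReal.ofReal (g s)) *
        (1 + ∫⁻ t in Ioi (0:ℝ), ENNReal.ofReal (f t)))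

/-- LIN: linear reduction -/
def S_LIN : Prop := ∀ (n : ℕ) (K : Set (Fin (n + 1) → ℝ)) (p : Fin (n + 1) → ℝ), IsConvexBody K →
  ((p +ᵥ K) ∩ K).Nonempty → ∃ M : Set (Fin (n + 1) → ℝ), IsCompact M ∧ Convex ℝ M ∧
    (interior M).Nonempty ∧ (∀ x ∈ M, -x ∈ M) ∧ (Pi.single 0 1 : Fin (n + 1) → ℝ) ∈ M ∧
    volume (polar (relBall K)) * volume (convexHull ℝ (K ∪ (p +ᵥ K))) ≤
      volume (polar M) * (volume M + 2 * volume (proj M))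

/-- BODY: the body of revolution belonging to a pair of functions -/
def S_BODY : Prop := ∀ (n : ℕ) (a : ℝ) (f g : ℝ → ℝ), 1 ≤ n → 0 < a → a < 1 →
  Measurable f → Measurable g → f 0 = 1 → (∀ t ∈ Icc (0:ℝ) 1, 0 ≤ f t) →
  (∀ s ∈ Icc (0:ℝ) 1, 0 ≤ g s) → (∀ s ∈ Icc (0:ℝ) a, g s = 1) →
  (∀ t ∈ Icc (0:ℝ) 1, ∀ s ∈ Icc (0:ℝ) 1, f t * g s ≤ (1 - t * s) ^ n) →
  ∃ K : Set (Fin (n + 1) → ℝ), IsConvexBody K ∧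
    4 * kappa n ^ 2 / kappa (n + 1) * ((∫⁻ s in Icc (0:ℝ) 1, ENNReal.ofReal (g s)) *
      (1 + ∫⁻ t in Icc (0:ℝ) 1, ENNReal.ofReal (f t))) ≤ cTr htVol K

end Pool.Agent.H356R3.HT
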