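import Pool.Agent.H356R3.HT.Defs
set_option autoImplicit false
open MeasureTheory Set Pointwise
namespace Pool.Agent.H356R3.HT

namespace FGL

theorem T_pos (n : ℕ) (a z : ℝ) : 0 < TT n a z := Real.exp_pos _

theorem gz_nonneg {n : ℕ} {z : ℝ} (h0 : 0 ≤ z) (h1 : z ≤ 1) : 0 ≤ gz n z :=
  mul_nonneg h0 (pow_nonneg (by linarith) _)

theorem s_eq (n : ℕ) (a z : ℝ) : √(1 + 4 * gz n z / a) = 1 + 2 * xx n a z := by
  unfold xx
  ring

theorem arg_pos {n : ℕ} {a z : ℝ} (ha : 0 < a) (h0 : 0 ≤ z) (h1 : z ≤ 1) :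
    1 ≤ 1 + 4 * gz n z / a := by
  have h : 0 ≤ 4 * gz n z / a := div_nonneg (mul_nonneg (by norm_num) (gz_nonneg h0 h1)) ha.le
  linarith

theorem x_nonneg {n : ℕ} {a z : ℝ} (ha : 0 < a) (h0 : 0 ≤ z) (h1 : z ≤ 1) : 0 ≤ xx n a z := by
  have h : 1 ≤ √(1 + 4 * gz n z / a) := Real.one_le_sqrt.2 (arg_pos ha h0 h1)
  unfold xx
  linarith

theorem x_eq {n : ℕ} {a z : ℝ} (ha : 0 < a) (h0 : 0 ≤ z) (h1 : z ≤ 1) :
    a * xx n a z * (1 + xx n a z) = gz n z := by
  have h2 := Real.sq_sqrt (le_trans zero_le_one (arg_pos (n := n) ha h0 h1))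
  rw [s_eq] at h2
  have h3 : a * (1 + 2 * xx n a z) ^ 2 = a + 4 * gz n z := by
    rw [h2]
    field_simp
  linarith

theorem FF_eq {n : ℕ} {a z : ℝ} (ha : 0 < a) (h0 : 0 ≤ z) (h1 : z ≤ 1) :
    FF n a z = (1 - z) ^ n * TT n a z / (a * (1 + xx n a z)) := by
  unfold FF
  rw [s_eq]
  have h2 := x_nonneg (n := n) ha h0 h1
  have h3 : 1 + xx n a z ≠ 0 := by positivity
  have h4 : 1 + 2 * xx n a z + 1 = 2 * (1 + xx n a z) := by ring
  rw [h4]
  field_simp

theorem FG_eq {n : ℕ} {a z : ℝ} (ha : 0 < a) (h0 : 0 ≤ z) (h1 : z ≤ 1) :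
    FF n a z * GG n a z = (1 - z) ^ n := by
  rw [FF_eq ha h0 h1]
  unfold GG
  have h2 := x_nonneg (n := n) ha h0 h1
  have h3 : 1 + xx n a z ≠ 0 := by positivity
  have h4 := (T_pos n a z).ne'
  field_simp

theorem x_deriv {n : ℕ} {a z : ℝ} (hn : 1 ≤ n) (ha : 0 < a) (h0 : 0 < z) (h1 : z < 1) :
    HasDerivAt (xx n a) (xx n a z * (1 + xx n a z) * (1 / z - n / (1 - z)) /
      (1 + 2 * xx n a z)) z := by
  have hx := x_nonneg (n := n) ha h0.le h1.le
  have hxe := x_eq (n := n) ha h0.le h1.le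
  have h1z : (1 - z) ≠ 0 := by linarith
  have d1 : HasDerivAt (fun y : ℝ => 1 - y) (-1) z := by
    simpa using (hasDerivAt_id z).const_sub 1
  have d2 : HasDerivAt (fun y : ℝ => (1 - y) ^ n) ((n : ℝ) * (1 - z) ^ (n - 1) * (-1)) z :=
    d1.pow n
  have d3 : HasDerivAt (fun y : ℝ => y * (1 - y) ^ n)
      (1 * (1 - z) ^ n + z * ((n : ℝ) * (1 - z) ^ (n - 1) * (-1))) z := (hasDerivAt_id z).mul d2
  have e3 : 1 * (1 - z) ^ n + z * ((n : ℝ) * (1 - z) ^ (n - 1) * (-1)) =
      a * xx n a z * (1 + xx n a z) * (1 / z - n / (1 - z)) := by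
    rw [hxe]
    unfold gz
    obtain ⟨m, rfl⟩ : ∃ m, n = m + 1 := ⟨n - 1, by omega⟩
    rw [Nat.add_sub_cancel, pow_succ]
    field_simp
    ring
  rw [e3] at d3
  have d4 : HasDerivAt (fun y : ℝ => 1 + 4 * gz n y / a)
      (4 * (a * xx n a z * (1 + xx n a z) * (1 / z - n / (1 - z))) / a) z := by
    have h := ((d3.const_mul 4).div_const a).const_add 1
    exact h
  have hpos : (1 + 4 * gz n z / a) ≠ 0 :=
    (lt_of_lt_of_le zero_lt_one (arg_pos ha h0.le h1.le)).ne'
  have d5 := d4.sqrt hpos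
  have d6 := (d5.sub_const 1).div_const 2
  have e6 : 4 * (a * xx n a z * (1 + xx n a z) * (1 / z - n / (1 - z))) / a /
      (2 * √(1 + 4 * gz n z / a)) / 2 =
      xx n a z * (1 + xx n a z) * (1 / z - n / (1 - z)) / (1 + 2 * xx n a z) := by
    rw [s_eq]
    have h5 : (1 + 2 * xx n a z) ≠ 0 := by positivity
    have h6 : a ≠ 0 := ha.ne'
    generalize (1 / z - n / (1 - z)) = q
    field_simp
    ring
  rw [e6] at d6
  exact d6

/-- the function whose minimum is at `w` -/
noncomputable def phi (n : ℕ) (a w z : ℝ) : ℝ :=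
  n * Real.log (1 - tt n a z * TT n a w) - n * Real.log (1 - z) - Real.log (TT n a z) +
    Real.log (1 + xx n a z)

theorem phi_deriv {n : ℕ} {a w z : ℝ} (hn : 1 ≤ n) (ha : 0 < a) (h0 : 0 < z) (h1 : z < 1)
    (hT : HasDerivAt (TT n a) (TT n a z * xx n a z / ((1 + 2 * xx n a z) * z)) z)
    (ht : HasDerivAt (tt n a) (tt n a z * (1 + xx n a z) / ((1 + 2 * xx n a z) * z)) z)
    (hw : tt n a z * TT n a w < 1) :
    HasDerivAt (phi n a w) (n * (1 + xx n a z) / (1 + 2 * xx n a z) *
      (TT n a z - TT n a w) / ((1 - z) * (TT n a z - z * TT n a w))) z := by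
  have hx := x_nonneg (n := n) ha h0.le h1.le
  have hTp := T_pos n a z
  have h1z : (1 - z) ≠ 0 := by linarith
  have d1 : HasDerivAt (fun y : ℝ => 1 - y) (-1) z := by
    simpa using (hasDerivAt_id z).const_sub 1
  have e1 := (d1.log h1z).const_mul (n : ℝ)
  have e2 := (((ht.mul_const (TT n a w)).const_sub 1).log (by linarith)).const_mul (n : ℝ)
  have e3 := hT.log hTp.ne'
  have e4 := ((x_deriv hn ha h0 h1).const_add 1).log (by positivity)
  have e5 := ((e2.sub e1).sub e3).add e4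
  have htt : tt n a z = z / TT n a z := rfl
  have hw' : 0 < TT n a z - z * TT n a w := by
    rw [htt, div_mul_eq_mul_div, div_lt_one hTp] at hw
    linarith
  have e7 : HasDerivAt (phi n a w) _ z := e5
  refine e7.congr_deriv ?_
  rw [htt]
  generalize xx n a z = x at *
  generalize TT n a z = T at *
  generalize TT n a w = W at *
  have g1 : T ≠ 0 := hTp.ne'
  have g2 : (1 + 2 * x) ≠ 0 := by positivity
  have g3 : (1 + x) ≠ 0 := by positivity
  have g4 : z ≠ 0 := h0.ne'
  have g5 : T - z * W ≠ 0 := hw'.ne'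
  have g6 : 1 - z / T * W = (T - z * W) / T := by
    field_simp
  rw [g6]
  field_simp
  ring

theorem ext_le {F G : ℝ → ℝ} (hF : ContinuousOn F (Icc 0 1)) (hG : ContinuousOn G (Icc 0 1))
    (h : ∀ z ∈ Ioo (0:ℝ) 1, F z ≤ G z) : ∀ z ∈ Icc (0:ℝ) 1, F z ≤ G z := by
  intro z hz
  have hc : z ∈ closure (Ioo (0:ℝ) 1) := by
    rw [closure_Ioo zero_ne_one]
    exact hz
  exact ContinuousWithinAt.closure_le hc ((hF z hz).mono Ioo_subset_Icc_self)
    ((hG z hz).mono Ioo_subset_Icc_self) h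

end FGL

open FGL

theorem FG_proof (hPAR : S_PAR) : S_FG := by
  intro n a hn hcr
  have ha := hcr.1
  obtain ⟨hT0, hT1, hTc, hTm, htm, hd⟩ := hPAR n a hn hcr
  have ht1 : tt n a 1 = 1 := by
    unfold tt
    rw [hT1, div_one]
  have m1 : (1:ℝ) ∈ Icc (0:ℝ) 1 := ⟨zero_le_one, le_rfl⟩
  have hTle : ∀ w ∈ Icc (0:ℝ) 1, TT n a w ≤ 1 := fun w hw => by
    rw [← hT1]
    exact hTm.monotoneOn hw m1 hw.2
  have htle : ∀ z ∈ Icc (0:ℝ) 1, tt n a z ≤ 1 := fun z hz => by
    rw [← ht1]
    exact htm.monotoneOn hz m1 hz.2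
  have ht0 : ∀ z ∈ Icc (0:ℝ) 1, 0 ≤ tt n a z := fun z hz => div_nonneg hz.1 (T_pos n a z).le
  -- continuity
  have htc : ContinuousOn (tt n a) (Icc 0 1) :=
    continuousOn_id.div hTc fun z _ => (T_pos n a z).ne'
  have hgc : Continuous (gz n) := by
    unfold gz
    fun_prop
  have hsc : Continuous fun z : ℝ => √(1 + 4 * gz n z / a) := by fun_prop
  have hxc : Continuous (xx n a) := by
    unfold xx
    fun_prop
  have hFc : ContinuousOn (FF n a) (Icc 0 1) := by
    unfold FF
    refine ContinuousOn.mul (ContinuousOn.div (by fun_prop) (by fun_prop) fun z _ => ?_) hTc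
    have h := Real.sqrt_nonneg (1 + 4 * gz n z / a)
    positivity
  have hGc : ContinuousOn (GG n a) (Icc 0 1) := by
    unfold GG
    exact ContinuousOn.div (by fun_prop) hTc fun z _ => (T_pos n a z).ne'
  -- the open case
  have main : ∀ w ∈ Ioo (0:ℝ) 1, ∀ z ∈ Ioo (0:ℝ) 1,
      FF n a z * GG n a w ≤ (1 - tt n a z * TT n a w) ^ n := by
    intro w hw z hz
    have hlt : ∀ y ∈ Ioo (0:ℝ) 1, tt n a y * TT n a w < 1 := by
      intro y hy
      have h1 : tt n a y < 1 := by
        rw [← ht1]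
        exact htm (Ioo_subset_Icc_self hy) m1 hy.2
      have h2 := hTle w (Ioo_subset_Icc_self hw)
      have h3 := T_pos n a w
      nlinarith
    have hD : ∀ y ∈ Ioo (0:ℝ) 1, HasDerivAt (phi n a w) (n * (1 + xx n a y) /
        (1 + 2 * xx n a y) * (TT n a y - TT n a w) / ((1 - y) * (TT n a y - y * TT n a w))) y :=
      fun y hy => phi_deriv hn ha hy.1 hy.2 (hd y hy).1 (hd y hy).2 (hlt y hy)
    have hden : ∀ y ∈ Ioo (0:ℝ) 1, 0 < (1 - y) * (TT n a y - y * TT n a w) := by
      intro y hy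
      have h1 := hlt y hy
      have h2 : tt n a y = y / TT n a y := rfl
      rw [h2, div_mul_eq_mul_div, div_lt_one (T_pos n a y)] at h1
      exact mul_pos (by linarith [hy.2]) (by linarith)
    have hfac : ∀ y ∈ Ioo (0:ℝ) 1, 0 ≤ n * (1 + xx n a y) / (1 + 2 * xx n a y) := by
      intro y hy
      have hx := x_nonneg (n := n) ha hy.1.le hy.2.le
      positivity
    have hmin : phi n a w w ≤ phi n a w z := by
      rcases le_total z w with hzw | hzw
      · have hsub : Icc z w ⊆ Ioo (0:ℝ) 1 := fun y hy =>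
          ⟨lt_of_lt_of_le hz.1 hy.1, lt_of_le_of_lt hy.2 hw.2⟩
        have hanti : AntitoneOn (phi n a w) (Icc z w) := by
          refine antitoneOn_of_deriv_nonpos (convex_Icc z w)
            (fun y hy => (hD y (hsub hy)).continuousAt.continuousWithinAt)
            (fun y hy => (hD y (hsub (interior_subset hy))).differentiableAt.differentiableWithinAt)
            (fun y hy => ?_)
          have hy' := interior_subset hy
          rw [(hD y (hsub hy')).deriv]
          refine div_nonpos_of_nonpos_of_nonneg (mul_nonpos_of_nonneg_of_nonpos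
            (hfac y (hsub hy')) ?_) (hden y (hsub hy')).le
          rw [sub_nonpos]
          exact hTm.monotoneOn (Ioo_subset_Icc_self (hsub hy')) (Ioo_subset_Icc_self hw) hy'.2
        exact hanti ⟨le_rfl, hzw⟩ ⟨hzw, le_rfl⟩ hzw
      · have hsub : Icc w z ⊆ Ioo (0:ℝ) 1 := fun y hy =>
          ⟨lt_of_lt_of_le hw.1 hy.1, lt_of_le_of_lt hy.2 hz.2⟩
        have hmono : MonotoneOn (phi n a w) (Icc w z) := by
          refine monotoneOn_of_deriv_nonneg (convex_Icc w z)
            (fun y hy => (hD y (hsub hy)).continuousAt.continuousWithinAt)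
            (fun y hy => (hD y (hsub (interior_subset hy))).differentiableAt.differentiableWithinAt)
            (fun y hy => ?_)
          have hy' := interior_subset hy
          rw [(hD y (hsub hy')).deriv]
          refine div_nonneg (mul_nonneg (hfac y (hsub hy')) ?_) (hden y (hsub hy')).le
          rw [sub_nonneg]
          exact hTm.monotoneOn (Ioo_subset_Icc_self hw) (Ioo_subset_Icc_self (hsub hy')) hy'.1
        exact hmono ⟨le_rfl, hzw⟩ ⟨hzw, le_rfl⟩ hzw
    -- exponentiate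
    have hFpos : ∀ y ∈ Ioo (0:ℝ) 1, 0 < FF n a y := by
      intro y hy
      rw [FF_eq ha hy.1.le hy.2.le]
      have hx := x_nonneg (n := n) ha hy.1.le hy.2.le
      have hT := T_pos n a y
      have h1 : 0 < 1 - y := by linarith [hy.2]
      positivity
    have hlogF : ∀ y ∈ Ioo (0:ℝ) 1, Real.log (FF n a y) =
        n * Real.log (1 - y) + Real.log (TT n a y) - Real.log a - Real.log (1 + xx n a y) := by
      intro y hy
      rw [FF_eq ha hy.1.le hy.2.le]
      have hx := x_nonneg (n := n) ha hy.1.le hy.2.le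
      have hT := T_pos n a y
      have h1 : 0 < 1 - y := by linarith [hy.2]
      have h2 : 0 < 1 + xx n a y := by positivity
      rw [Real.log_div (by positivity) (by positivity), Real.log_mul (by positivity) hT.ne',
        Real.log_mul ha.ne' h2.ne', Real.log_pow]
      ring
    have hGpos : 0 < GG n a w := by
      unfold GG
      have hx := x_nonneg (n := n) ha hw.1.le hw.2.le
      have hT := T_pos n a w
      positivity
    have hww : tt n a w * TT n a w = w := div_mul_cancel₀ _ (T_pos n a w).ne'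
    have hlogG : Real.log (GG n a w) = phi n a w w + Real.log a := by
      have h1 := FG_eq (n := n) ha hw.1.le hw.2.le
      have h2 := congrArg Real.log h1
      rw [Real.log_mul (hFpos w hw).ne' hGpos.ne', Real.log_pow, hlogF w hw] at h2
      unfold phi
      rw [hww]
      linarith
    have hfin : Real.log (FF n a z) + Real.log (GG n a w) ≤
        n * Real.log (1 - tt n a z * TT n a w) := by
      rw [hlogG, hlogF z hz]
      unfold phi at hmin ⊢
      linarith
    rw [← Real.log_mul (hFpos z hz).ne' hGpos.ne', ← Real.log_pow] at hfin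
    exact (Real.log_le_log_iff (mul_pos (hFpos z hz) hGpos)
      (pow_pos (by linarith [hlt z hz]) n)).1 hfin
  have step1 : ∀ w ∈ Ioo (0:ℝ) 1, ∀ z ∈ Icc (0:ℝ) 1,
      FF n a z * GG n a w ≤ (1 - tt n a z * TT n a w) ^ n := by
    intro w hw
    refine ext_le (hFc.mul continuousOn_const) ?_ (main w hw)
    exact (continuousOn_const.sub (htc.mul continuousOn_const)).pow n
  intro z hz w hw
  refine ⟨?_, ?_⟩
  · have h1 := htle z hz
    have h2 := hTle w hw
    have h3 := T_pos n a w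
    have h4 := ht0 z hz
    nlinarith
  · exact ext_le (F := fun w => FF n a z * GG n a w)
      (G := fun w => (1 - tt n a z * TT n a w) ^ n) (continuousOn_const.mul hGc)
      ((continuousOn_const.sub (continuousOn_const.mul hTc)).pow n)
      (fun w hw => step1 w hw z hz) w hw

end Pool.Agent.H356R3.HT
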