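import Pool.Agent.H356R3.HT.Defs

set_option autoImplicit false
open MeasureTheory Set Pointwise

namespace Pool.Agent.H356R3.HT

namespace GEOL

open Pool.Agent.Helper481.MS
open Pool.Agent.Helper481.MB (kappa eball vol_le_relBall eball_compact)

/-- the tail of a vector -/
def tl {n : ℕ} (x : Fin (n + 1) → ℝ) : Fin n → ℝ := fun i => x i.succ

theorem tl_cont {n : ℕ} : Continuous (tl : (Fin (n + 1) → ℝ) → (Fin n → ℝ)) := by
  unfold tl; fun_prop

theorem cons_tl {n : ℕ} (x : Fin (n + 1) → ℝ) : (Fin.cons (x 0) (tl x) : Fin (n + 1) → ℝ) = x := by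
  ext i
  refine Fin.cases ?_ ?_ i
  · simp
  · intro j; simp [tl]

/-- `y` such that the fibre over `y` has length at least `2 t` -/
def SS {n : ℕ} (M : Set (Fin (n + 1) → ℝ)) (t : ℝ) : Set (Fin n → ℝ) :=
  {y | ∃ u v : ℝ, (Fin.cons u y : Fin (n + 1) → ℝ) ∈ M ∧ (Fin.cons v y : Fin (n + 1) → ℝ) ∈ M ∧
    2 * t ≤ u - v}

theorem SS_compact {n : ℕ} {M : Set (Fin (n + 1) → ℝ)} (hM : IsCompact M) (t : ℝ) :
    IsCompact (SS M t) := by
  have h1 : SS M t = (fun p : (Fin (n + 1) → ℝ) × (Fin (n + 1) → ℝ) => tl p.1) ''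
      ((M ×ˢ M) ∩ {p | tl p.1 = tl p.2 ∧ 2 * t ≤ p.1 0 - p.2 0}) := by
    ext y
    constructor
    · rintro ⟨u, v, hu, hv, h⟩
      refine ⟨(Fin.cons u y, Fin.cons v y), ⟨⟨hu, hv⟩, ?_, ?_⟩, ?_⟩
      · ext i; simp [tl]
      · simpa using h
      · ext i; simp [tl]
    · rintro ⟨⟨x, x'⟩, ⟨⟨hx, hx'⟩, h1, h2⟩, rfl⟩
      simp only at h1 h2
      refine ⟨x 0, x' 0, ?_, ?_, h2⟩
      · show (Fin.cons (x 0) (tl x) : Fin (n + 1) → ℝ) ∈ M
        rw [cons_tl]; exact hx
      · show (Fin.cons (x' 0) (tl x) : Fin (n + 1) → ℝ) ∈ M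
        rw [h1, cons_tl]; exact hx'
  rw [h1]
  refine IsCompact.image ?_ (tl_cont.comp continuous_fst)
  refine (hM.prod hM).inter_right ?_
  refine IsClosed.inter (isClosed_eq (tl_cont.comp continuous_fst) (tl_cont.comp continuous_snd)) ?_
  have c1 : Continuous fun p : (Fin (n + 1) → ℝ) × (Fin (n + 1) → ℝ) => p.1 0 - p.2 0 := by
    fun_prop
  exact isClosed_le continuous_const c1

theorem SS_neg {n : ℕ} {M : Set (Fin (n + 1) → ℝ)} (hs : ∀ x ∈ M, -x ∈ M) {t : ℝ}
    {y : Fin n → ℝ} (hy : y ∈ SS M t) : -y ∈ SS M t := by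
  obtain ⟨u, v, hu, hv, h⟩ := hy
  refine ⟨-v, -u, ?_, ?_, by linarith⟩
  · have := hs _ hv
    have e : (Fin.cons (-v) (-y) : Fin (n + 1) → ℝ) = -(Fin.cons v y : Fin (n + 1) → ℝ) := by
      ext i
      refine Fin.cases ?_ ?_ i
      · simp
      · intro j; simp
    rwa [e]
  · have := hs _ hu
    have e : (Fin.cons (-u) (-y) : Fin (n + 1) → ℝ) = -(Fin.cons u y : Fin (n + 1) → ℝ) := by
      ext i
      refine Fin.cases ?_ ?_ i
      · simp
      · intro j; simp
    rwa [e]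

theorem SS_zero {n : ℕ} (M : Set (Fin (n + 1) → ℝ)) : SS M 0 = proj M := by
  ext y
  rw [mem_fib_iff]
  constructor
  · rintro ⟨u, v, hu, hv, h⟩
    exact ⟨u, hu⟩
  · rintro ⟨u, hu⟩
    exact ⟨u, u, hu, hu, by simp⟩

theorem SS_anti {n : ℕ} (M : Set (Fin (n + 1) → ℝ)) {s t : ℝ} (h : s ≤ t) : SS M t ⊆ SS M s := by
  rintro y ⟨u, v, hu, hv, h1⟩
  exact ⟨u, v, hu, hv, by linarith⟩

/-- the slices of the polar body -/
def AA {n : ℕ} (M : Set (Fin (n + 1) → ℝ)) (s : ℝ) : Set (Fin n → ℝ) :=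
  {η | (Fin.cons s η : Fin (n + 1) → ℝ) ∈ polar M}

theorem ball_sub {d : ℕ} {M : Set (Fin d → ℝ)} (hc : Convex ℝ M) (hi : (interior M).Nonempty)
    (hs : ∀ x ∈ M, -x ∈ M) : ∃ r : ℝ, 0 < r ∧ ∀ x : Fin d → ℝ, (∀ i, |x i| ≤ r) → x ∈ M := by
  obtain ⟨r, hr, hb⟩ := relBall_ball hi
  refine ⟨r / 2, by positivity, fun x hx => ?_⟩
  have h1 : x ∈ Metric.ball (0 : Fin d → ℝ) r := by
    rw [mem_ball_zero_iff]
    have h0 : ‖x‖ ≤ r / 2 := (pi_norm_le_iff_of_nonneg (by positivity)).2 fun i => hx i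
    linarith
  obtain ⟨_, ⟨a, ha, b, hb', rfl⟩, hab⟩ := hb h1
  have h2 := hc ha (hs b hb') (show (0:ℝ) ≤ 1 / 2 by norm_num) (show (0:ℝ) ≤ 1 / 2 by norm_num)
    (by norm_num)
  have h3 : (1 / 2 : ℝ) • a + (1 / 2 : ℝ) • (-b) = x := by
    rw [← hab]
    show (1 / 2 : ℝ) • a + (1 / 2 : ℝ) • (-b) = (1 / 2 : ℝ) • (a - b)
    module
  rwa [h3] at h2

theorem polar_closed {d : ℕ} (M : Set (Fin d → ℝ)) : IsClosed (polar M) := by
  have h1 : polar M = ⋂ x ∈ M, {y | ∑ i, x i * y i ≤ 1} := by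
    ext y; simp [polar]
  rw [h1]
  refine isClosed_biInter fun x _ => isClosed_le (by fun_prop) continuous_const

theorem polar_compact {d : ℕ} {M : Set (Fin d → ℝ)} {r : ℝ} (hr : 0 < r)
    (h : ∀ x : Fin d → ℝ, (∀ i, |x i| ≤ r) → x ∈ M) : IsCompact (polar M) := by
  have h1 : polar M ⊆ Icc (fun _ => -(1 / r)) (fun _ => 1 / r) := by
    intro y hy
    have key : ∀ i, ∀ ε : ℝ, |ε| = 1 → ε * y i ≤ 1 / r := by
      intro i ε hε
      have h2 := hy (Pi.single i (ε * r)) (h _ (by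
        intro j
        by_cases hij : j = i
        · subst hij
          simp [abs_mul, hε, abs_of_pos hr]
        · simp [hij, hr.le]))
      rw [Finset.sum_eq_single i (by intro b _ hb; simp [hb]) (by simp)] at h2
      rw [Pi.single_eq_same] at h2
      rw [le_div_iff₀ hr]
      linarith
    constructor
    · intro i
      have := key i (-1) (by simp)
      simp only
      linarith
    · intro i
      have := key i 1 (by simp)
      simp only
      linarith
  exact isCompact_Icc.of_isClosed_subset (polar_closed M) h1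

theorem AA_compact {n : ℕ} {M : Set (Fin (n + 1) → ℝ)} (hP : IsCompact (polar M)) (s : ℝ) :
    IsCompact (AA M s) := by
  have hcont : Continuous fun η : Fin n → ℝ => (Fin.cons s η : Fin (n + 1) → ℝ) := by
    apply continuous_pi
    intro i
    refine Fin.cases ?_ ?_ i
    · simp only [Fin.cons_zero]; exact continuous_const
    · intro j
      simp only [Fin.cons_succ]
      exact continuous_apply j
  have h1 : IsClosed (AA M s) := hP.isClosed.preimage hcont
  have h2 : AA M s ⊆ tl '' polar M := by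
    intro η hη
    exact ⟨_, hη, by ext i; simp [tl]⟩
  exact (hP.image tl_cont).of_isClosed_subset h1 h2

theorem AA_neg {n : ℕ} {M : Set (Fin (n + 1) → ℝ)} (hs : ∀ x ∈ M, -x ∈ M) (s : ℝ) :
    AA M (-s) = -AA M s := by
  have key : ∀ s : ℝ, ∀ η : Fin n → ℝ, η ∈ AA M s → -η ∈ AA M (-s) := by
    intro s η hη x hx
    have h1 := hη (-x) (hs x hx)
    refine le_trans (le_of_eq ?_) h1
    apply Finset.sum_congr rfl
    intro i _
    refine Fin.cases ?_ ?_ i
    · simp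
    · intro j; simp
  ext η
  rw [Set.mem_neg]
  constructor
  · intro h
    have := key _ _ h
    rwa [neg_neg] at this
  · intro h
    have := key _ _ h
    rwa [neg_neg] at this

/-- the polar slices, symmetrised -/
def NN {n : ℕ} (M : Set (Fin (n + 1) → ℝ)) (s : ℝ) : Set (Fin n → ℝ) := relBall (AA M s)

theorem pairing {n : ℕ} {M : Set (Fin (n + 1) → ℝ)} (hs : ∀ x ∈ M, -x ∈ M) {t s : ℝ}
    (hs0 : 0 ≤ s) {y η : Fin n → ℝ} (hy : y ∈ SS M t) (hη : η ∈ NN M s) :
    ∑ i, y i * η i ≤ 1 - t * s := by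
  obtain ⟨u, v, hu, hv, huv⟩ := hy
  obtain ⟨_, ⟨a, ha, b, hb, rfl⟩, rfl⟩ := hη
  have h1 := ha _ hu
  have h2 := hb _ (hs _ hv)
  rw [Fin.sum_univ_succ] at h1 h2
  simp only [Fin.cons_zero, Fin.cons_succ, Pi.neg_apply] at h1 h2
  have h3 : ∑ i, y i * ((fun x => (1 / 2 : ℝ) • x) (a - b)) i =
      (1 / 2) * (∑ i, y i * a i + ∑ i, -y i * b i) := by
    rw [← Finset.sum_add_distrib, Finset.mul_sum]
    apply Finset.sum_congr rfl
    intro i _
    show y i * ((1 / 2 : ℝ) * (a i - b i)) = _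
    ring
  have h4 : 2 * t * s ≤ (u - v) * s := mul_le_mul_of_nonneg_right huv hs0
  calc ∑ i, y i * ((fun x => (1 / 2 : ℝ) • x) (a - b)) i
      = (1 / 2) * (∑ i, y i * a i + ∑ i, -y i * b i) := h3
    _ ≤ 1 - t * s := by nlinarith

theorem kappa_ne_top (n : ℕ) : kappa n ≠ ⊤ := (eball_compact n).measure_lt_top.ne

theorem kappa_ne_zero (n : ℕ) : kappa n ≠ 0 := by
  have h1 : (fun _ => (0:ℝ)) ∈ interior (eball n) := by
    rw [mem_interior]
    refine ⟨{x | ∑ i, x i ^ 2 < 1}, fun x hx => ?_, ?_, ?_⟩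
    · show ∑ i, x i ^ 2 ≤ 1
      exact le_of_lt hx
    · exact isOpen_lt (by fun_prop) continuous_const
    · show ∑ i : Fin n, (0:ℝ) ^ 2 < 1
      simp
  exact (Measure.measure_pos_of_nonempty_interior _ ⟨_, h1⟩).ne'

/-- scaled Blaschke–Santaló inequality -/
theorem san_scaled (h : S_SAN) {n : ℕ} {S N : Set (Fin n → ℝ)} (hS : IsCompact S) (hN : IsCompact N)
    (hSs : ∀ x ∈ S, -x ∈ S) (hNs : ∀ x ∈ N, -x ∈ N) {c : ℝ} (hc : 0 < c)
    (hp : ∀ x ∈ S, ∀ y ∈ N, ∑ j, x j * y j ≤ c) :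
    volume S * volume N ≤ kappa n ^ 2 * ENNReal.ofReal (c ^ n) := by
  have h1 := h n S (c⁻¹ • N) hS (hN.smul c⁻¹) hSs (by
    rintro _ ⟨x, hx, rfl⟩
    exact ⟨-x, hNs x hx, by simp⟩) (by
    rintro x hx _ ⟨y, hy, rfl⟩
    have h2 := hp x hx y hy
    have h3 : ∑ j, x j * ((fun z => c⁻¹ • z) y) j = c⁻¹ * ∑ j, x j * y j := by
      rw [Finset.mul_sum]
      apply Finset.sum_congr rfl
      intro j _
      show x j * (c⁻¹ * y j) = _
      ring
    rw [h3]
    calc c⁻¹ * ∑ j, x j * y j ≤ c⁻¹ * c := mul_le_mul_of_nonneg_left h2 (by positivity)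
      _ = 1 := inv_mul_cancel₀ hc.ne')
  rw [Measure.addHaar_smul, Module.finrank_fin_fun, abs_of_nonneg (by positivity)] at h1
  have h4 : ENNReal.ofReal (c ^ n) * ENNReal.ofReal ((c⁻¹) ^ n) = 1 := by
    rw [← ENNReal.ofReal_mul (by positivity), ← mul_pow, mul_inv_cancel₀ hc.ne', one_pow,
      ENNReal.ofReal_one]
  calc volume S * volume N = (volume S * (ENNReal.ofReal ((c⁻¹) ^ n) * volume N)) *
        ENNReal.ofReal (c ^ n) := by
        calc volume S * volume N = volume S * volume N *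
              (ENNReal.ofReal (c ^ n) * ENNReal.ofReal ((c⁻¹) ^ n)) := by rw [h4, mul_one]
          _ = _ := by ring
    _ ≤ kappa n ^ 2 * ENNReal.ofReal (c ^ n) := by gcongr

/-- scaled Blaschke–Santaló inequality, also for nonpositive constants -/
theorem san_max (h : S_SAN) {n : ℕ} (hn : 1 ≤ n) {S N : Set (Fin n → ℝ)} (hS : IsCompact S)
    (hN : IsCompact N) (hSs : ∀ x ∈ S, -x ∈ S) (hNs : ∀ x ∈ N, -x ∈ N) {c : ℝ}
    (hp : ∀ x ∈ S, ∀ y ∈ N, ∑ j, x j * y j ≤ c) :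
    volume S * volume N ≤ kappa n ^ 2 * ENNReal.ofReal ((max 0 c) ^ n) := by
  rcases lt_or_ge 0 c with hc | hc
  · rw [max_eq_right hc.le]
    exact san_scaled h hS hN hSs hNs hc hp
  · rw [max_eq_left hc, zero_pow (by omega), ENNReal.ofReal_zero, mul_zero]
    have h1 : ∀ ε : ℝ, 0 < ε → volume S * volume N ≤ kappa n ^ 2 * ENNReal.ofReal (ε ^ n) :=
      fun ε hε => san_scaled h hS hN hSs hNs hε (fun x hx y hy => (hp x hx y hy).trans
        (hc.trans hε.le))
    have h2 : Filter.Tendsto (fun ε : ℝ => kappa n ^ 2 * ENNReal.ofReal (ε ^ n))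
        (nhdsWithin 0 (Ioi 0)) (nhds (kappa n ^ 2 * ENNReal.ofReal ((0:ℝ) ^ n))) := by
      refine ENNReal.Tendsto.const_mul ?_ (Or.inr (ENNReal.pow_ne_top (kappa_ne_top n)))
      refine Filter.Tendsto.mono_left ?_ nhdsWithin_le_nhds
      exact (ENNReal.continuous_ofReal.comp (continuous_pow n)).tendsto 0
    rw [zero_pow (by omega), ENNReal.ofReal_zero, mul_zero] at h2
    refine ge_of_tendsto h2 ?_
    filter_upwards [self_mem_nhdsWithin] with ε hε
    exact h1 ε hε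

/-- slicing along the first coordinate -/
theorem vol_slice {n : ℕ} {K : Set (Fin (n + 1) → ℝ)} (hK : MeasurableSet K) :
    volume K = ∫⁻ s : ℝ, volume {η : Fin n → ℝ | (Fin.cons s η : Fin (n + 1) → ℝ) ∈ K} := by
  have h1 := (volume_preserving_piFinSuccAbove (fun _ : Fin (n + 1) => ℝ) 0).symm
  have h2 := h1.measure_preimage hK.nullMeasurableSet
  rw [← h2, Measure.volume_eq_prod, Measure.prod_apply]
  · apply lintegral_congr
    intro s
    congr 1
    ext η
    have h : (MeasurableEquiv.piFinSuccAbove (fun _ : Fin (n + 1) => ℝ) 0).symm (s, η) =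
        Fin.cons s η := Fin.insertNth_zero' s η
    show (MeasurableEquiv.piFinSuccAbove (fun _ : Fin (n + 1) => ℝ) 0).symm (s, η) ∈ K ↔ _
    rw [h]
    rfl
  · exact h1.measurable hK

theorem vol_even (F : ℝ → ENNReal) (hF : ∀ s, F (-s) = F s) :
    ∫⁻ s, F s = 2 * ∫⁻ s in Ioi (0:ℝ), F s := by
  rw [← lintegral_add_compl F (measurableSet_Ioi (a := (0:ℝ))), two_mul]
  congr 1
  rw [Set.compl_Ioi]
  have h1 : ∫⁻ s in Iic (0:ℝ), F s = ∫⁻ s in Iio (0:ℝ), F s :=
    setLIntegral_congr Iio_ae_eq_Iic.symm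
  have h2 : ∫⁻ s in (Neg.neg : ℝ → ℝ) ⁻¹' (Ioi (0:ℝ)), F (-s) = ∫⁻ s in Ioi (0:ℝ), F s :=
    (Measure.measurePreserving_neg (volume : Measure ℝ)).setLIntegral_comp_preimage_emb
      (MeasurableEquiv.neg ℝ).measurableEmbedding F (Ioi 0)
  have h3 : (Neg.neg : ℝ → ℝ) ⁻¹' (Ioi (0:ℝ)) = Iio 0 := by
    ext s; simp
  rw [h1, ← h2, h3]
  exact lintegral_congr fun s => (hF s).symm

theorem vol_polar_le {n : ℕ} {M : Set (Fin (n + 1) → ℝ)} (hs : ∀ x ∈ M, -x ∈ M)
    (hP : IsCompact (polar M)) :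
    volume (polar M) ≤ 2 * ∫⁻ s in Ioi (0:ℝ), volume (NN M s) := by
  have h1 : volume (polar M) = ∫⁻ s : ℝ, volume (AA M s) := vol_slice hP.isClosed.measurableSet
  rw [h1, vol_even (fun s => volume (AA M s)) (fun s => by
    show volume (AA M (-s)) = volume (AA M s)
    rw [AA_neg hs, Measure.measure_neg])]
  gcongr 2 * ?_
  exact lintegral_mono fun s => vol_le_relBall (AA_compact hP s)

theorem vol_body_le {n : ℕ} {M : Set (Fin (n + 1) → ℝ)} (hM : IsCompact M) (hc : Convex ℝ M) :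
    volume M ≤ 2 * ∫⁻ t in Ioi (0:ℝ), volume (SS M t) := by
  have hfin : ∀ y, volume (fib M y) ≠ ⊤ := fun y => (fib_compact hM y).measure_lt_top.ne
  set ℓ : (Fin n → ℝ) → ℝ := fun y => (volume (fib M y)).toReal / 2 with hℓ
  have hℓm : Measurable ℓ :=
    (meas_fib hM.isClosed.measurableSet).ennreal_toReal.div_const 2
  have e1 : volume M = 2 * ∫⁻ t in Ioi (0:ℝ), volume {y | t ≤ ℓ y} := by
    rw [vol_fib hM.isClosed.measurableSet,
      ← lintegral_eq_lintegral_meas_le volume (Filter.Eventually.of_forall fun y =>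
        div_nonneg ENNReal.toReal_nonneg (by norm_num)) hℓm.aemeasurable,
      ← lintegral_const_mul _ hℓm.ennreal_ofReal]
    apply lintegral_congr
    intro y
    have h2 : (2 : ENNReal) = ENNReal.ofReal 2 := by simp
    have h3 : 2 * ((volume (fib M y)).toReal / 2) = (volume (fib M y)).toReal := by ring
    rw [h2, ← ENNReal.ofReal_mul (by norm_num), h3]
    exact (ENNReal.ofReal_toReal (hfin y)).symm
  rw [e1]
  gcongr 2 * ?_
  refine setLIntegral_mono' measurableSet_Ioi fun t ht => measure_mono ?_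
  intro y hy
  have ht0 : (0:ℝ) < t := ht
  have hy' : t ≤ (volume (fib M y)).toReal / 2 := hy
  by_cases hy2 : y ∈ proj M
  · obtain ⟨α, β, hαβ, hF⟩ := fib_Icc hM hc hy2
    rw [hF, Real.volume_Icc, ENNReal.toReal_ofReal (by linarith)] at hy'
    have hα : α ∈ fib M y := by rw [hF]; exact left_mem_Icc.2 hαβ
    have hβ : β ∈ fib M y := by rw [hF]; exact right_mem_Icc.2 hαβ
    exact ⟨β, α, hβ, hα, by linarith⟩
  · exfalso
    have h0 : fib M y = ∅ := by
      by_contra h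
      exact hy2 (mem_fib_iff.2 (nonempty_iff_ne_empty.2 h))
    rw [h0] at hy'
    simp at hy'
    linarith

theorem SS_pos {n : ℕ} {M : Set (Fin (n + 1) → ℝ)} (hc : Convex ℝ M) (hs : ∀ x ∈ M, -x ∈ M)
    (he : (Pi.single 0 1 : Fin (n + 1) → ℝ) ∈ M) {r : ℝ} (hr : 0 < r)
    (h : ∀ x : Fin (n + 1) → ℝ, (∀ i, |x i| ≤ r) → x ∈ M) {t : ℝ} (ht0 : 0 ≤ t) (ht1 : t < 1) :
    0 < volume (SS M t) := by
  have h1 : 0 < 1 - t := by linarith
  have key : ∀ y : Fin n → ℝ, (∀ i, |y i| ≤ (1 - t) * r) → y ∈ SS M t := by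
    intro y hy
    have h2 : (Fin.cons 0 ((1 - t)⁻¹ • y) : Fin (n + 1) → ℝ) ∈ M := by
      apply h
      intro i
      refine Fin.cases ?_ ?_ i
      · simp [hr.le]
      · intro j
        simp only [Fin.cons_succ, Pi.smul_apply, smul_eq_mul]
        rw [abs_mul, abs_of_pos (inv_pos.2 h1), inv_mul_le_iff₀ h1]
        exact hy j
    have h3 := hc he h2 ht0 h1.le (by ring)
    have h4 := hc (hs _ he) h2 ht0 h1.le (by ring)
    have e1 : t • (Pi.single 0 1 : Fin (n + 1) → ℝ) + (1 - t) • (Fin.cons 0 ((1 - t)⁻¹ • y)) =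
        (Fin.cons t y : Fin (n + 1) → ℝ) := by
      ext i
      refine Fin.cases ?_ ?_ i
      · simp
      · intro j
        simp
        field_simp
    have e2 : t • (-(Pi.single 0 1 : Fin (n + 1) → ℝ)) + (1 - t) • (Fin.cons 0 ((1 - t)⁻¹ • y)) =
        (Fin.cons (-t) y : Fin (n + 1) → ℝ) := by
      ext i
      refine Fin.cases ?_ ?_ i
      · simp
      · intro j
        simp
        field_simp
    rw [e1] at h3
    rw [e2] at h4
    exact ⟨t, -t, h3, h4, by linarith⟩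
  have h5 : (0 : Fin n → ℝ) ∈ interior (SS M t) := by
    rw [mem_interior]
    refine ⟨Metric.ball 0 ((1 - t) * r), ?_, Metric.isOpen_ball, Metric.mem_ball_self (by positivity)⟩
    intro y hy
    rw [mem_ball_zero_iff] at hy
    exact key y fun i => (norm_le_pi_norm y i).trans hy.le
  exact Measure.measure_pos_of_nonempty_interior _ ⟨_, h5⟩

end GEOL

open GEOL
open Pool.Agent.Helper481.MS
open Pool.Agent.Helper481.MB (kappa eball vol_le_relBall eball_compact)

theorem GEO_proof (h : S_SAN) : S_GEO := by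
  intro n M hn hM hc hi hs he
  obtain ⟨r, hr, hball⟩ := ball_sub hc hi hs
  have hP : IsCompact (polar M) := polar_compact hr hball
  set V0 : ENNReal := volume (SS M 0) with hV0
  have hV0pos : V0 ≠ 0 := (SS_pos hc hs he hr hball le_rfl one_pos).ne'
  have hV0top : V0 ≠ ⊤ := (SS_compact hM 0).measure_lt_top.ne
  have hk0 : kappa n ^ 2 ≠ 0 := pow_ne_zero _ (kappa_ne_zero n)
  have hkt : kappa n ^ 2 ≠ ⊤ := ENNReal.pow_ne_top (kappa_ne_top n)
  have hSt : ∀ t, volume (SS M t) ≠ ⊤ := fun t => (SS_compact hM t).measure_lt_top.ne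
  have hNc : ∀ s, IsCompact (NN M s) := fun s => relBall_compact (AA_compact hP s)
  have hNt : ∀ s, volume (NN M s) ≠ ⊤ := fun s => (hNc s).measure_lt_top.ne
  set f : ℝ → ℝ := fun t => (volume (SS M t) / V0).toReal with hf
  set g : ℝ → ℝ := fun s => (volume (NN M s) * V0 / kappa n ^ 2).toReal with hg
  have hft : ∀ t, volume (SS M t) / V0 ≠ ⊤ := fun t => ENNReal.div_ne_top (hSt t) hV0pos
  have hgt : ∀ s, volume (NN M s) * V0 / kappa n ^ 2 ≠ ⊤ := fun s =>
    ENNReal.div_ne_top (ENNReal.mul_ne_top (hNt s) hV0top) hk0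
  refine ⟨f, g, ⟨?_, ?_, ?_, ?_, ?_, ?_⟩, ?_⟩
  · show (V0 / V0).toReal = 1
    rw [ENNReal.div_self hV0pos hV0top]
    simp
  · intro t ht
    show (volume (SS M t) / V0).toReal ≤ 1
    apply ENNReal.toReal_le_of_le_ofReal zero_le_one
    rw [ENNReal.ofReal_one]
    exact ENNReal.div_le_of_le_mul (by rw [one_mul]; exact measure_mono (SS_anti M ht))
  · intro t ht0 ht1
    exact ENNReal.toReal_pos (ENNReal.div_ne_zero.2 ⟨(SS_pos hc hs he hr hball ht0 ht1).ne', hV0top⟩)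
      (hft t)
  · intro t _; exact ENNReal.toReal_nonneg
  · intro t _; exact ENNReal.toReal_nonneg
  · intro t s ht0 hs0
    show (volume (SS M t) / V0).toReal * (volume (NN M s) * V0 / kappa n ^ 2).toReal ≤ _
    rw [← ENNReal.toReal_mul]
    apply ENNReal.toReal_le_of_le_ofReal (by positivity)
    have h1 := san_max h hn (SS_compact hM t) (hNc s) (fun x hx => SS_neg hs hx)
      (fun x hx => relBall_neg hx) (c := 1 - t * s) (fun x hx y hy => pairing hs hs0 hx hy)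
    calc volume (SS M t) / V0 * (volume (NN M s) * V0 / kappa n ^ 2)
        = (volume (SS M t) * volume (NN M s)) * (V0 * V0⁻¹) / kappa n ^ 2 := by
          simp only [div_eq_mul_inv]; ring
      _ = (volume (SS M t) * volume (NN M s)) / kappa n ^ 2 := by
          rw [ENNReal.mul_inv_cancel hV0pos hV0top, mul_one]
      _ ≤ ENNReal.ofReal ((max 0 (1 - t * s)) ^ n) := by
          apply ENNReal.div_le_of_le_mul
          rw [mul_comm (ENNReal.ofReal _)]
          exact h1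
  · have h1 := vol_polar_le hs hP
    have h2 := vol_body_le hM hc
    have h3 : ∫⁻ t in Ioi (0:ℝ), volume (SS M t) = V0 * ∫⁻ t in Ioi (0:ℝ), ENNReal.ofReal (f t) := by
      rw [← lintegral_const_mul' _ _ hV0top]
      apply lintegral_congr
      intro t
      rw [hf]
      simp only
      rw [ENNReal.ofReal_toReal (hft t), ENNReal.mul_div_cancel hV0pos hV0top]
    have h4 : (∫⁻ s in Ioi (0:ℝ), volume (NN M s)) * V0 =
        kappa n ^ 2 * ∫⁻ s in Ioi (0:ℝ), ENNReal.ofReal (g s) := by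
      rw [← lintegral_const_mul' _ _ hkt, ← lintegral_mul_const' _ _ hV0top]
      apply lintegral_congr
      intro s
      rw [hg]
      simp only
      rw [ENNReal.ofReal_toReal (hgt s), ENNReal.mul_div_cancel hk0 hkt]
    rw [← SS_zero M, ← hV0]
    calc volume (polar M) * (volume M + 2 * V0)
        ≤ (2 * ∫⁻ s in Ioi (0:ℝ), volume (NN M s)) *
          (2 * (V0 * ∫⁻ t in Ioi (0:ℝ), ENNReal.ofReal (f t)) + 2 * V0) := by
          rw [← h3]; gcongr
      _ = 4 * ((∫⁻ s in Ioi (0:ℝ), volume (NN M s)) * V0) *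
          (1 + ∫⁻ t in Ioi (0:ℝ), ENNReal.ofReal (f t)) := by ring
      _ = _ := by rw [h4]; ring

end Pool.Agent.H356R3.HT
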