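import Pool.Agent.H356R3.HT.Defs

/-!
# LIN: linear reduction (helper379)
-/

set_option autoImplicit false
open MeasureTheory Set Pointwise

namespace Pool.Agent.H356R3.HT

open Pool.Agent.Helper481.MS
open Pool.Agent.Helper481.MB

namespace LINL

/-- the transpose of a linear map of `ℝ^d` -/
noncomputable def tr {d : ℕ} (A : (Fin d → ℝ) →ₗ[ℝ] (Fin d → ℝ)) : (Fin d → ℝ) →ₗ[ℝ] (Fin d → ℝ) :=
  Matrix.toLin' (LinearMap.toMatrix' A).transpose

theorem det_tr {d : ℕ} (A : (Fin d → ℝ) →ₗ[ℝ] (Fin d → ℝ)) :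
    LinearMap.det (tr A) = LinearMap.det A := by
  unfold tr
  rw [LinearMap.det_toLin', Matrix.det_transpose, LinearMap.det_toMatrix']

theorem tr_dot {d : ℕ} (A : (Fin d → ℝ) →ₗ[ℝ] (Fin d → ℝ)) (x y : Fin d → ℝ) :
    ∑ i, x i * tr A y i = ∑ i, A x i * y i := by
  have h1 : tr A y = (LinearMap.toMatrix' A).transpose.mulVec y := Matrix.toLin'_apply _ _
  have h2 : A x = (LinearMap.toMatrix' A).mulVec x := by
    rw [← Matrix.toLin'_apply, Matrix.toLin'_toMatrix']
  have h3 := Matrix.dotProduct_mulVec x (LinearMap.toMatrix' A).transpose y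
  rw [Matrix.vecMul_transpose, ← h1, ← h2] at h3
  exact h3

theorem polar_image {d : ℕ} (A : (Fin d → ℝ) →ₗ[ℝ] (Fin d → ℝ)) (M : Set (Fin d → ℝ)) :
    polar (A '' M) = tr A ⁻¹' polar M := by
  ext y
  constructor
  · intro h x hx
    rw [tr_dot]
    exact h _ ⟨x, hx, rfl⟩
  · rintro h _ ⟨x, hx, rfl⟩
    rw [← tr_dot]
    exact h x hx

theorem vol_polar {d : ℕ} (A : (Fin d → ℝ) →ₗ[ℝ] (Fin d → ℝ)) (hA : LinearMap.det A ≠ 0)
    (M : Set (Fin d → ℝ)) :
    ENNReal.ofReal |LinearMap.det A| * volume (polar (A '' M)) = volume (polar M) := by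
  rw [polar_image, Measure.addHaar_preimage_linearMap _ (by rw [det_tr]; exact hA), det_tr,
    ← mul_assoc, ← ENNReal.ofReal_mul (abs_nonneg _), ← abs_mul, mul_inv_cancel₀ hA, abs_one,
    ENNReal.ofReal_one, one_mul]

/-- the case of a nonzero translation -/
theorem main {n : ℕ} {K : Set (Fin (n + 1) → ℝ)} {p : Fin (n + 1) → ℝ} (hK : IsConvexBody K)
    (hp : ((p +ᵥ K) ∩ K).Nonempty) (hp0 : p ≠ 0) : ∃ M : Set (Fin (n + 1) → ℝ), IsCompact M ∧
    Convex ℝ M ∧ (interior M).Nonempty ∧ (∀ x ∈ M, -x ∈ M) ∧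
    (Pi.single 0 1 : Fin (n + 1) → ℝ) ∈ M ∧
    volume (polar (relBall K)) * volume (convexHull ℝ (K ∪ (p +ᵥ K))) ≤
      volume (polar M) * (volume M + 2 * volume (proj M)) := by
  obtain ⟨x, ⟨y, hy, hyx⟩, hx⟩ := hp
  have hyx' : p + y = x := hyx
  have hs : (Pi.single 0 (2 : ℝ) : Fin (n + 1) → ℝ) ≠ 0 := by
    intro h
    have := congrFun h 0
    simp at this
  obtain ⟨A, hA⟩ := SeparatingDual.exists_continuousLinearEquiv_apply_eq (R := ℝ) hs hp0
  have h1 : IsCompact (A.symm '' K) := hK.isCompact.image A.symm.continuous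
  have h2 : Convex ℝ (A.symm '' K) :=
    hK.convex.linear_image (A.symm : (Fin (n + 1) → ℝ) →ₗ[ℝ] (Fin (n + 1) → ℝ))
  have h3 : A.symm p = Pi.single 0 (2 : ℝ) := by rw [← hA]; simp
  have hint : (interior (A.symm '' K)).Nonempty := by
    obtain ⟨z, hz⟩ := hK.interior_nonempty
    have h4 := A.symm.toHomeomorph.image_interior K
    exact ⟨A.symm z, h4 ▸ ⟨z, hz, rfl⟩⟩
  have hdet : LinearMap.det (A : (Fin (n + 1) → ℝ) →ₗ[ℝ] (Fin (n + 1) → ℝ)) ≠ 0 :=
    (LinearEquiv.isUnit_det' A.toLinearEquiv).ne_zero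
  have he0 : (Pi.single 0 1 : Fin (n + 1) → ℝ) ∈ relBall (A.symm '' K) := by
    refine ⟨A.symm x - A.symm y, ⟨_, ⟨x, hx, rfl⟩, _, ⟨y, hy, rfl⟩, rfl⟩, ?_⟩
    show (1 / 2 : ℝ) • (A.symm x - A.symm y) = _
    rw [← hyx', map_add, h3, add_sub_cancel_right, ← Pi.single_smul]
    norm_num
  refine ⟨relBall (A.symm '' K), relBall_compact h1, relBall_convex h2, ?_,
    fun x hx => relBall_neg hx, he0, ?_⟩
  · obtain ⟨r, hr, hb⟩ := relBall_ball hint
    exact ⟨0, mem_interior.2 ⟨_, hb, Metric.isOpen_ball, Metric.mem_ball_self hr⟩⟩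
  · have hKA : K = A '' (A.symm '' K) := by
      rw [Set.image_image]; simp
    have hvol : volume (convexHull ℝ (K ∪ (p +ᵥ K))) ≤
        ENNReal.ofReal |LinearMap.det (A : (Fin (n + 1) → ℝ) →ₗ[ℝ] (Fin (n + 1) → ℝ))| *
          (volume (relBall (A.symm '' K)) + 2 * volume (proj (relBall (A.symm '' K)))) := by
      calc volume (convexHull ℝ (K ∪ (p +ᵥ K))) ≤ volume (K + segment ℝ 0 p) :=
            measure_mono (hull_sub hK.convex p)
        _ = _ := vol_image A K p hA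
        _ = ENNReal.ofReal |LinearMap.det (A : (Fin (n + 1) → ℝ) →ₗ[ℝ] (Fin (n + 1) → ℝ))| *
            (volume (A.symm '' K) + 2 * volume (proj (A.symm '' K))) := by rw [vol_add_seg h1 h2]
        _ ≤ _ := by
            refine mul_le_mul_right (add_le_add (vol_le_relBall h1)
              (mul_le_mul_right ?_ _)) _
            exact (vol_le_relBall (proj_compact h1)).trans (measure_mono (relBall_proj _))
    have hpol : relBall K = (A : (Fin (n + 1) → ℝ) →ₗ[ℝ] (Fin (n + 1) → ℝ)) ''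
        relBall (A.symm '' K) := by
      conv_lhs => rw [hKA]
      exact relBall_image A _
    calc volume (polar (relBall K)) * volume (convexHull ℝ (K ∪ (p +ᵥ K)))
        ≤ volume (polar (relBall K)) *
          (ENNReal.ofReal |LinearMap.det (A : (Fin (n + 1) → ℝ) →ₗ[ℝ] (Fin (n + 1) → ℝ))| *
          (volume (relBall (A.symm '' K)) + 2 * volume (proj (relBall (A.symm '' K))))) := by
          gcongr
      _ = (ENNReal.ofReal |LinearMap.det (A : (Fin (n + 1) → ℝ) →ₗ[ℝ] (Fin (n + 1) → ℝ))| *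
          volume (polar ((A : (Fin (n + 1) → ℝ) →ₗ[ℝ] (Fin (n + 1) → ℝ)) ''
            relBall (A.symm '' K)))) *
          (volume (relBall (A.symm '' K)) + 2 * volume (proj (relBall (A.symm '' K)))) := by
          rw [← hpol]; ring
      _ = _ := by rw [vol_polar _ hdet]

end LINL

theorem LIN_proof : S_LIN := by
  intro n K p hK hp
  by_cases hp0 : p = 0
  · -- replace `p` by a small nonzero vector
    obtain ⟨x, hx⟩ := hK.interior_nonempty
    obtain ⟨r, hr, hb⟩ := Metric.isOpen_iff.1 isOpen_interior x hx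
    set q : Fin (n + 1) → ℝ := Pi.single 0 (r / 2) with hq
    have hqn : ‖q‖ = r / 2 := by
      rw [hq, Pi.norm_single, Real.norm_of_nonneg (by positivity)]
    have hq0 : q ≠ 0 := by
      intro h
      rw [h, norm_zero] at hqn
      linarith
    have hqK : ((q +ᵥ K) ∩ K).Nonempty := by
      refine ⟨q + x, ⟨x, interior_subset hx, rfl⟩, ?_⟩
      apply interior_subset
      apply hb
      rw [mem_ball_iff_norm, add_sub_cancel_right, hqn]
      linarith
    obtain ⟨M, hM1, hM2, hM3, hM4, hM5, hM6⟩ := LINL.main hK hqK hq0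
    refine ⟨M, hM1, hM2, hM3, hM4, hM5, le_trans ?_ hM6⟩
    subst hp0
    have h1 : K ∪ ((0 : Fin (n + 1) → ℝ) +ᵥ K) = K := by simp
    rw [h1, hK.convex.convexHull_eq]
    gcongr
    exact subset_union_left.trans (subset_convexHull ℝ _)
  · exact LINL.main hK hp hp0

end Pool.Agent.H356R3.HT
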