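import Pool.Agent.H356R3.HT.Defs

/-! Task LOW (helper267): the extremal pair of functions. -/

set_option autoImplicit false
open MeasureTheory Set Pointwise

namespace Pool.Agent.H356R3.HT

namespace LOWL

/-- the generalised inverse of an increasing function on `[0,1]` -/
noncomputable def ginv (F : ℝ → ℝ) (t : ℝ) : ℝ := sSup {z : ℝ | z ∈ Icc (0:ℝ) 1 ∧ F z ≤ t}

theorem ginv_mono (F : ℝ → ℝ) : Monotone (ginv F) := by
  intro t t' h
  unfold ginv
  rcases Set.eq_empty_or_nonempty {z : ℝ | z ∈ Icc (0:ℝ) 1 ∧ F z ≤ t} with he | hne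
  · rw [he, Real.sSup_empty]
    exact Real.sSup_nonneg fun z hz => hz.1.1
  · exact csSup_le_csSup ⟨1, fun z hz => hz.1.2⟩ hne (fun z hz => ⟨hz.1, hz.2.trans h⟩)

theorem ginv_mem (F : ℝ → ℝ) (t : ℝ) : ginv F t ∈ Icc (0:ℝ) 1 :=
  ⟨Real.sSup_nonneg fun _ hz => hz.1.1, Real.sSup_le (fun _ hz => hz.1.2) zero_le_one⟩

theorem ginv_eq {F : ℝ → ℝ} (hF : StrictMonoOn F (Icc 0 1)) {z : ℝ} (hz : z ∈ Icc (0:ℝ) 1) :
    ginv F (F z) = z := by
  have h : {w : ℝ | w ∈ Icc (0:ℝ) 1 ∧ F w ≤ F z} = Icc 0 z := by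
    ext w
    constructor
    · rintro ⟨hw, h⟩
      exact ⟨hw.1, (hF.le_iff_le hw hz).1 h⟩
    · rintro ⟨h1, h2⟩
      have hw : w ∈ Icc (0:ℝ) 1 := ⟨h1, h2.trans hz.2⟩
      exact ⟨hw, (hF.le_iff_le hw hz).2 h2⟩
  unfold ginv
  rw [h, csSup_Icc hz.1]

theorem ginv_low {F : ℝ → ℝ} (hF : StrictMonoOn F (Icc 0 1)) {t : ℝ} (ht : t ≤ F 0) :
    ginv F t = 0 := by
  refine le_antisymm ?_ (ginv_mem F t).1
  have h := ginv_mono F ht
  rwa [ginv_eq hF (by simp : (0:ℝ) ∈ Icc (0:ℝ) 1)] at h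

/-- the continuous extension of a function on `[0,1]` -/
noncomputable def cl (G : ℝ → ℝ) (z : ℝ) : ℝ := G (max 0 (min 1 z))

theorem cl_cont {G : ℝ → ℝ} (hG : ContinuousOn G (Icc 0 1)) : Continuous (cl G) := by
  refine hG.comp_continuous (by fun_prop) fun z => ?_
  exact ⟨le_max_left _ _, max_le zero_le_one (min_le_left _ _)⟩

theorem cl_eq {G : ℝ → ℝ} {z : ℝ} (hz : z ∈ Icc (0:ℝ) 1) : cl G z = G z := by
  unfold cl
  rw [min_eq_right hz.2, max_eq_right hz.1]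

theorem gz_nonneg {n : ℕ} {z : ℝ} (hz : z ∈ Icc (0:ℝ) 1) : 0 ≤ gz n z :=
  mul_nonneg hz.1 (pow_nonneg (by linarith [hz.2]) n)

theorem one_le {n : ℕ} {a z : ℝ} (ha : 0 < a) (hz : z ∈ Icc (0:ℝ) 1) :
    1 ≤ 1 + 4 * gz n z / a := by
  have := gz_nonneg (n := n) hz
  have h : 0 ≤ 4 * gz n z / a := by positivity
  linarith

theorem gz_cont (n : ℕ) : Continuous (gz n) := by
  unfold gz
  fun_prop

/-- `1 + 2x = √(1 + 4 gz / a)` -/
theorem xx_eq (n : ℕ) (a z : ℝ) : 1 + 2 * xx n a z = √(1 + 4 * gz n z / a) := by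
  unfold xx; ring

theorem xx_nonneg {n : ℕ} {a z : ℝ} (ha : 0 < a) (hz : z ∈ Icc (0:ℝ) 1) : 0 ≤ xx n a z := by
  have h := Real.one_le_sqrt.2 (one_le (n := n) ha hz)
  unfold xx
  linarith

/-- `a x (1 + x) = z (1 - z)^n` -/
theorem xx_rel {n : ℕ} {a z : ℝ} (ha : 0 < a) (hz : z ∈ Icc (0:ℝ) 1) :
    a * xx n a z * (1 + xx n a z) = gz n z := by
  have h1 := one_le (n := n) ha hz
  have h2 : √(1 + 4 * gz n z / a) ^ 2 = 1 + 4 * gz n z / a := Real.sq_sqrt (by linarith)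
  have h3 : a * (4 * gz n z / a) = 4 * gz n z := by field_simp
  unfold xx
  have h4 : a * ((√(1 + 4 * gz n z / a) - 1) / 2) * (1 + (√(1 + 4 * gz n z / a) - 1) / 2) =
      a * (√(1 + 4 * gz n z / a) ^ 2 - 1) / 4 := by ring
  rw [h4, h2]
  linarith

theorem FF_cont {n : ℕ} {a : ℝ} (ha : 0 < a) (hT : ContinuousOn (TT n a) (Icc 0 1)) :
    ContinuousOn (FF n a) (Icc 0 1) := by
  unfold FF
  refine ContinuousOn.mul (ContinuousOn.div (by fun_prop) ?_ ?_) hT
  · have := gz_cont n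
    fun_prop
  · intro z hz
    have := Real.sqrt_nonneg (1 + 4 * gz n z / a)
    positivity

theorem GG_cont {n : ℕ} {a : ℝ} (hT : ContinuousOn (TT n a) (Icc 0 1)) :
    ContinuousOn (GG n a) (Icc 0 1) := by
  unfold GG xx
  refine ContinuousOn.div ?_ hT fun z _ => (Real.exp_pos _).ne'
  have := gz_cont n
  fun_prop

theorem TT_pos (n : ℕ) (a z : ℝ) : 0 < TT n a z := Real.exp_pos _

theorem FF_nonneg {n : ℕ} {a z : ℝ} (ha : 0 < a) (hz : z ∈ Icc (0:ℝ) 1) : 0 ≤ FF n a z := by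
  have h1 := TT_pos n a z
  have h2 := Real.sqrt_nonneg (1 + 4 * gz n z / a)
  have h3 : 0 ≤ (1 - z) ^ n := pow_nonneg (by linarith [hz.2]) n
  unfold FF
  positivity

theorem GG_nonneg {n : ℕ} {a z : ℝ} (ha : 0 < a) (hz : z ∈ Icc (0:ℝ) 1) : 0 ≤ GG n a z := by
  have h1 := TT_pos n a z
  have h2 := xx_nonneg (n := n) ha hz
  unfold GG
  positivity

/-- the integrand of `vI` -/
noncomputable def ig (n : ℕ) (a z : ℝ) : ℝ := (1 - z) ^ n / √(1 + 4 * gz n z / a)

theorem ig_cont {n : ℕ} {a : ℝ} (ha : 0 < a) : ContinuousOn (ig n a) (Icc 0 1) := by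
  unfold ig
  have := gz_cont n
  refine ContinuousOn.div (by fun_prop) (by fun_prop) fun z hz => ?_
  exact (Real.sqrt_pos.2 (lt_of_lt_of_le one_pos (one_le ha hz))).ne'

theorem ig_nonneg {n : ℕ} {a z : ℝ} (hz : z ∈ Icc (0:ℝ) 1) : 0 ≤ ig n a z :=
  div_nonneg (pow_nonneg (by linarith [hz.2]) n) (Real.sqrt_nonneg _)

theorem tt_FF {n : ℕ} {a z : ℝ} (ha : 0 < a) (hz : z ∈ Ioo (0:ℝ) 1) :
    tt n a z * (1 + xx n a z) / ((1 + 2 * xx n a z) * z) * FF n a z = 1 / a * ig n a z := by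
  have hz' : z ∈ Icc (0:ℝ) 1 := Ioo_subset_Icc_self hz
  have h1 := TT_pos n a z
  have h2 := xx_nonneg (n := n) ha hz'
  have h3 := xx_eq n a z
  have h4 : √(1 + 4 * gz n z / a) + 1 = 2 * (1 + xx n a z) := by rw [← h3]; ring
  unfold FF ig tt
  rw [h4, ← h3]
  have hz0 := hz.1
  field_simp

theorem TT_GG {n : ℕ} {a z : ℝ} (ha : 0 < a) (hz : z ∈ Ioo (0:ℝ) 1) :
    TT n a z * xx n a z / ((1 + 2 * xx n a z) * z) * GG n a z = ig n a z := by
  have hz' : z ∈ Icc (0:ℝ) 1 := Ioo_subset_Icc_self hz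
  have h1 := TT_pos n a z
  have h2 := xx_nonneg (n := n) ha hz'
  have h3 := xx_eq n a z
  have h5 := xx_rel (n := n) ha hz'
  have hz0 := hz.1
  have h6 : TT n a z * xx n a z / ((1 + 2 * xx n a z) * z) * GG n a z =
      (a * xx n a z * (1 + xx n a z)) / ((1 + 2 * xx n a z) * z) := by
    unfold GG
    field_simp
  rw [h6, h5]
  unfold ig gz
  rw [← show 1 + 2 * xx n a z = √(1 + 4 * (z * (1 - z) ^ n) / a) from h3]
  field_simp

theorem lint_ig {n : ℕ} {a c : ℝ} (ha : 0 < a) (hc : 0 ≤ c) :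
    ∫⁻ z in Ioo (0:ℝ) 1, ENNReal.ofReal (c * ig n a z) =
      ENNReal.ofReal (c * ∫ z in (0:ℝ)..1, ig n a z) := by
  rw [intervalIntegral.integral_of_le zero_le_one, integral_Ioc_eq_integral_Ioo,
    ← integral_const_mul, ofReal_integral_eq_lintegral_ofReal]
  · exact (((ig_cont ha).integrableOn_Icc).mono_set Ioo_subset_Icc_self).const_mul c
  · refine (ae_restrict_iff' measurableSet_Ioo).2 (Filter.Eventually.of_forall fun z hz => ?_)
    exact mul_nonneg hc (ig_nonneg (Ioo_subset_Icc_self hz))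

end LOWL

open LOWL in
theorem LOW_proof (hPAR : S_PAR) (hFG : S_FG) : S_LOW := by
  intro n a hn hcr
  obtain ⟨hT0, hT1, hTc, hTm, htm, hder⟩ := hPAR n a hn hcr
  have hfg := hFG n a hn hcr
  obtain ⟨ha, ha1, -⟩ := hcr
  have i0 : (0:ℝ) ∈ Icc (0:ℝ) 1 := by simp
  have i1 : (1:ℝ) ∈ Icc (0:ℝ) 1 := by simp
  have ht0 : tt n a 0 = 0 := by unfold tt; simp
  have ht1 : tt n a 1 = 1 := by unfold tt; rw [hT1]; simp
  have htc : ContinuousOn (tt n a) (Icc 0 1) := by
    unfold tt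
    exact ContinuousOn.div continuousOn_id hTc fun z _ => (TT_pos n a z).ne'
  have hx0 : xx n a 0 = 0 := by unfold xx gz; simp
  have hF0 : FF n a 0 = 1 := by
    unfold FF gz
    rw [hT0]
    simp only [sub_zero, one_pow, mul_zero, zero_div, add_zero, Real.sqrt_one, mul_one]
    field_simp
    norm_num
  have hG0 : GG n a 0 = 1 := by
    unfold GG
    rw [hx0, hT0, add_zero, mul_one, div_self ha.ne']
  obtain ⟨f, hf⟩ : ∃ f : ℝ → ℝ, f = fun t => cl (FF n a) (ginv (tt n a) t) := ⟨_, rfl⟩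
  obtain ⟨g, hg⟩ : ∃ g : ℝ → ℝ, g = fun s => cl (GG n a) (ginv (TT n a) s) := ⟨_, rfl⟩
  have hft : ∀ z ∈ Icc (0:ℝ) 1, f (tt n a z) = FF n a z := by
    intro z hz
    rw [hf]
    simp only
    rw [ginv_eq htm hz, cl_eq hz]
  have hgt : ∀ z ∈ Icc (0:ℝ) 1, g (TT n a z) = GG n a z := by
    intro z hz
    rw [hg]
    simp only
    rw [ginv_eq hTm hz, cl_eq hz]
  have hglow : ∀ s, s ≤ a → g s = 1 := by
    intro s hs
    rw [hg]
    simp only
    rw [ginv_low hTm (by rw [hT0]; exact hs), cl_eq i0, hG0]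
  have hsurt : ∀ t ∈ Icc (0:ℝ) 1, ∃ z ∈ Icc (0:ℝ) 1, tt n a z = t := by
    intro t ht
    have := intermediate_value_Icc zero_le_one htc
    rw [ht0, ht1] at this
    exact this ht
  have hsurT : ∀ s ∈ Icc a 1, ∃ z ∈ Icc (0:ℝ) 1, TT n a z = s := by
    intro s hs
    have := intermediate_value_Icc zero_le_one hTc
    rw [hT0, hT1] at this
    exact this hs
  refine ⟨f, g, ?_, ?_, ?_, ?_, ?_, ?_, ?_, ?_, ?_⟩
  · rw [hf]
    exact (cl_cont (FF_cont ha hTc)).measurable.comp (ginv_mono _).measurable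
  · rw [hg]
    exact (cl_cont (GG_cont hTc)).measurable.comp (ginv_mono _).measurable
  · have h := hft 0 i0
    rw [ht0, hF0] at h
    exact h
  · intro t _
    rw [hf]
    simp only
    rw [cl_eq (ginv_mem _ _)]
    exact FF_nonneg ha (ginv_mem _ _)
  · intro s _
    rw [hg]
    simp only
    rw [cl_eq (ginv_mem _ _)]
    exact GG_nonneg ha (ginv_mem _ _)
  · intro s hs
    exact hglow s hs.2
  · intro t ht s hs
    obtain ⟨z, hz, rfl⟩ := hsurt t ht
    rcases le_total a s with h | h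
    · obtain ⟨w, hw, rfl⟩ := hsurT s ⟨h, hs.2⟩
      rw [hft z hz, hgt w hw]
      exact (hfg z hz w hw).2
    · rw [hft z hz, hglow s h]
      have h1 := hfg z hz 0 i0
      rw [hG0, hT0] at h1
      refine h1.2.trans (pow_le_pow_left₀ (by linarith [h1.1]) ?_ n)
      have := mul_le_mul_of_nonneg_left h ht.1
      linarith
  · -- the integral of `f`
    have hsub : tt n a '' Ioo 0 1 ⊆ Icc 0 1 := by
      rintro _ ⟨z, hz, rfl⟩
      have hz' := Ioo_subset_Icc_self hz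
      refine ⟨?_, ?_⟩
      · rw [← ht0]; exact (htm.le_iff_le i0 hz').2 hz'.1
      · rw [← ht1]; exact (htm.le_iff_le hz' i1).2 hz'.2
    refine le_trans (le_of_eq ?_) (lintegral_mono_set hsub)
    rw [lintegral_image_eq_lintegral_abs_deriv_mul measurableSet_Ioo
      (fun z hz => (hder z hz).2.hasDerivWithinAt)
      (htm.injOn.mono Ioo_subset_Icc_self)]
    have h1 : ∫⁻ z in Ioo (0:ℝ) 1, ENNReal.ofReal
        |tt n a z * (1 + xx n a z) / ((1 + 2 * xx n a z) * z)| *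
        ENNReal.ofReal (f (tt n a z)) =
        ∫⁻ z in Ioo (0:ℝ) 1, ENNReal.ofReal (1 / a * ig n a z) := by
      refine setLIntegral_congr_fun measurableSet_Ioo fun z hz => ?_
      have hz' := Ioo_subset_Icc_self hz
      have h2 := xx_nonneg (n := n) ha hz'
      have h3 := TT_pos n a z
      have h4 : 0 ≤ tt n a z * (1 + xx n a z) / ((1 + 2 * xx n a z) * z) := by
        unfold tt
        have := hz.1
        positivity
      rw [abs_of_nonneg h4, ← ENNReal.ofReal_mul h4, hft z hz', tt_FF ha hz]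
    rw [h1, lint_ig ha (by positivity)]
    rfl
  · -- the integral of `g`
    have hsub : TT n a '' Ioo 0 1 ⊆ Ioc a 1 := by
      rintro _ ⟨z, hz, rfl⟩
      have hz' := Ioo_subset_Icc_self hz
      refine ⟨?_, ?_⟩
      · have h6 := (hTm.lt_iff_lt i0 hz').2 hz.1
        rwa [hT0] at h6
      · have h6 := (hTm.le_iff_le hz' i1).2 hz'.2
        rwa [hT1] at h6
    have hun : Icc 0 a ∪ Ioc a 1 = Icc (0:ℝ) 1 := Icc_union_Ioc_eq_Icc ha.le ha1.le
    have hdis : Disjoint (Icc 0 a) (Ioc a 1) := by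
      rw [Set.disjoint_left]
      intro s hs hs'
      exact absurd hs.2 (not_le.2 hs'.1)
    rw [← hun, lintegral_union measurableSet_Ioc hdis]
    have hI1 : ∫⁻ s in Icc (0:ℝ) a, ENNReal.ofReal (g s) = ENNReal.ofReal a := by
      have h1 : ∫⁻ s in Icc (0:ℝ) a, ENNReal.ofReal (g s) = ∫⁻ s in Icc (0:ℝ) a, 1 := by
        refine setLIntegral_congr_fun measurableSet_Icc fun s hs => ?_
        rw [hglow s hs.2, ENNReal.ofReal_one]
      rw [h1, setLIntegral_one, Real.volume_Icc, sub_zero]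
    have hI2 : ENNReal.ofReal (a * vI n a) ≤ ∫⁻ s in Ioc a 1, ENNReal.ofReal (g s) := by
      refine le_trans (le_of_eq ?_) (lintegral_mono_set hsub)
      rw [lintegral_image_eq_lintegral_abs_deriv_mul measurableSet_Ioo
        (fun z hz => (hder z hz).1.hasDerivWithinAt)
        (hTm.injOn.mono Ioo_subset_Icc_self)]
      have h1 : ∫⁻ z in Ioo (0:ℝ) 1, ENNReal.ofReal
          |TT n a z * xx n a z / ((1 + 2 * xx n a z) * z)| *
          ENNReal.ofReal (g (TT n a z)) =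
          ∫⁻ z in Ioo (0:ℝ) 1, ENNReal.ofReal (1 * ig n a z) := by
        refine setLIntegral_congr_fun measurableSet_Ioo fun z hz => ?_
        have hz' := Ioo_subset_Icc_self hz
        have h2 := xx_nonneg (n := n) ha hz'
        have h3 := TT_pos n a z
        have h4 : 0 ≤ TT n a z * xx n a z / ((1 + 2 * xx n a z) * z) := by
          have := hz.1
          positivity
        rw [abs_of_nonneg h4, ← ENNReal.ofReal_mul h4, hgt z hz', TT_GG ha hz, one_mul]
      rw [h1, lint_ig ha zero_le_one, one_mul]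
      congr 1
      have h5 : vI n a = 1 / a * ∫ z in (0:ℝ)..1, ig n a z := rfl
      rw [h5]
      field_simp
    rw [hI1]
    refine le_trans ?_ (add_le_add (le_refl _) hI2)
    rw [mul_add, mul_one]
    exact ENNReal.ofReal_add_le

end Pool.Agent.H356R3.HT
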