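import Pool.Agent.H356R3.HT.Defs

set_option autoImplicit false
open MeasureTheory Set Pointwise

namespace Pool.Agent.H356R3.HT

namespace PARL

/-- a continuous version of the integrand -/
noncomputable def Hf (n : ℕ) (a w : ℝ) : ℝ :=
  (4 * (1 - w) ^ n / a) /
    (√(1 + |4 * gz n w / a|) * (√(1 + |4 * gz n w / a|) + 1))

theorem gz_cont (n : ℕ) : Continuous (gz n) := by
  unfold gz
  fun_prop

theorem Hf_cont (n : ℕ) (a : ℝ) : Continuous (Hf n a) := by
  unfold Hf
  have h1 : Continuous fun w => √(1 + |4 * gz n w / a|) := by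
    have := gz_cont n
    fun_prop
  refine Continuous.div (by fun_prop) (by fun_prop) ?_
  intro w
  have h2 : 0 < √(1 + |4 * gz n w / a|) := Real.sqrt_pos.2 (by positivity)
  positivity

theorem gz_nonneg (n : ℕ) {w : ℝ} (h0 : 0 ≤ w) (h1 : w ≤ 1) : 0 ≤ gz n w :=
  mul_nonneg h0 (pow_nonneg (by linarith) n)

theorem gz_pos (n : ℕ) {w : ℝ} (h0 : 0 < w) (h1 : w < 1) : 0 < gz n w :=
  mul_pos h0 (pow_pos (by linarith) n)

theorem Hf_eq (n : ℕ) {a w : ℝ} (ha : 0 < a) (h0 : 0 < w) (h1 : w ≤ 1) :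
    Hf n a w = (1 - 1 / √(1 + 4 * gz n w / a)) / w := by
  unfold Hf
  have hg : 0 ≤ gz n w := gz_nonneg n h0.le h1
  have hh : 0 ≤ 4 * gz n w / a := by positivity
  rw [abs_of_nonneg hh]
  set s := √(1 + 4 * gz n w / a) with hs
  have hs0 : 0 < s := Real.sqrt_pos.2 (by positivity)
  have hs2 : s ^ 2 = 1 + 4 * gz n w / a := Real.sq_sqrt (by positivity)
  have h3 : s ^ 2 - 1 = w * (4 * (1 - w) ^ n / a) := by
    rw [hs2]; unfold gz; field_simp; ring
  have h4 : 4 * (1 - w) ^ n / a = (s ^ 2 - 1) / w := by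
    rw [h3]; field_simp
  rw [h4]
  field_simp
  ring

theorem PP_eq (n : ℕ) {a z : ℝ} (ha : 0 < a) (h0 : 0 ≤ z) (h1 : z ≤ 1) :
    PP n a z = 1 / 2 * ∫ w in z..1, Hf n a w := by
  unfold PP
  congr 1
  apply intervalIntegral.integral_congr_ae
  filter_upwards with w hw
  rw [uIoc_of_le h1] at hw
  exact (Hf_eq n ha (lt_of_le_of_lt h0 hw.1) hw.2).symm

theorem cont_int (n : ℕ) (a : ℝ) : Continuous fun z => ∫ w in z..1, Hf n a w := by
  have h : (fun z => ∫ w in z..1, Hf n a w) = fun z => -∫ w in (1:ℝ)..z, Hf n a w := by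
    funext z; rw [intervalIntegral.integral_symm]
  rw [h]
  exact (intervalIntegral.continuous_primitive
    (fun x y => (Hf_cont n a).intervalIntegrable x y) 1).neg

theorem der_int (n : ℕ) (a z : ℝ) :
    HasDerivAt (fun z => ∫ w in z..1, Hf n a w) (-Hf n a z) z :=
  intervalIntegral.integral_hasDerivAt_left ((Hf_cont n a).intervalIntegrable _ _)
    ((Hf_cont n a).stronglyMeasurableAtFilter _ _) (Hf_cont n a).continuousAt

theorem alg {x z T : ℝ} (hx' : 1 + 2 * x ≠ 0) (hz : z ≠ 0) (hT : T ≠ 0) :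
    (1 * T - z * (T * x / ((1 + 2 * x) * z))) / T ^ 2 =
      z / T * (1 + x) / ((1 + 2 * x) * z) := by
  have e : z * (T * x / ((1 + 2 * x) * z)) = T * x / (1 + 2 * x) := by
    field_simp
  have e2 : z / T * (1 + x) / ((1 + 2 * x) * z) = (1 + x) / (T * (1 + 2 * x)) := by
    field_simp
  rw [e, e2, div_eq_div_iff (by positivity) (by positivity)]
  have e3 : T * x / (1 + 2 * x) * (1 + 2 * x) = T * x := div_mul_cancel₀ _ hx'
  linear_combination (-T) * e3

end PARL

open PARL in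
theorem PAR_proof : S_PAR := by
  intro n a hn hcr
  obtain ⟨ha, ha1, hQ⟩ := hcr
  have hTeq : ∀ z ∈ Icc (0:ℝ) 1, TT n a z = Real.exp (-(1 / 2 * ∫ w in z..1, Hf n a w)) := by
    intro z hz
    rw [TT, PP_eq n ha hz.1 hz.2]
  have hpos : ∀ z, 0 < TT n a z := fun z => Real.exp_pos _
  have hT0 : TT n a 0 = a := by
    unfold Qf at hQ
    unfold TT PP
    have : (1 / 2 * ∫ w in (0:ℝ)..1, (1 - 1 / √(1 + 4 * gz n w / a)) / w) = Real.log (1 / a) := by
      linarith
    rw [this, one_div, Real.log_inv, neg_neg, Real.exp_log ha]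
  have hT1 : TT n a 1 = 1 := by
    unfold TT PP
    simp
  have hTc : ContinuousOn (TT n a) (Icc 0 1) := by
    refine ContinuousOn.congr ?_ hTeq
    have := cont_int n a
    fun_prop
  have hs : ∀ z ∈ Ioo (0:ℝ) 1, 1 < √(1 + 4 * gz n z / a) := by
    intro z hz
    have hg := gz_pos n hz.1 hz.2
    rw [Real.lt_sqrt (by norm_num)]
    have : 0 < 4 * gz n z / a := by positivity
    linarith
  have hTd : ∀ z ∈ Ioo (0:ℝ) 1,
      HasDerivAt (TT n a) (TT n a z * xx n a z / ((1 + 2 * xx n a z) * z)) z := by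
    intro z hz
    have h1 : HasDerivAt (fun z => Real.exp (-(1 / 2 * ∫ w in z..1, Hf n a w)))
        (Real.exp (-(1 / 2 * ∫ w in z..1, Hf n a w)) * (-(1 / 2 * -Hf n a z))) z :=
      (((der_int n a z).const_mul (1 / 2)).neg).exp
    have h2 : TT n a =ᶠ[nhds z] fun z => Real.exp (-(1 / 2 * ∫ w in z..1, Hf n a w)) := by
      filter_upwards [Ioo_mem_nhds hz.1 hz.2] with y hy
      exact hTeq y ⟨hy.1.le, hy.2.le⟩
    have h3 := h1.congr_of_eventuallyEq h2
    refine h3.congr_deriv ?_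
    rw [← hTeq z ⟨hz.1.le, hz.2.le⟩, Hf_eq n ha hz.1 hz.2.le]
    unfold xx
    have h4 := hs z hz
    set s := √(1 + 4 * gz n z / a)
    have hz0 : z ≠ 0 := hz.1.ne'
    have hs0 : s ≠ 0 := by positivity
    have e1 : 1 + 2 * ((s - 1) / 2) = s := by ring
    rw [e1]
    field_simp
  have htd : ∀ z ∈ Ioo (0:ℝ) 1,
      HasDerivAt (tt n a) (tt n a z * (1 + xx n a z) / ((1 + 2 * xx n a z) * z)) z := by
    intro z hz
    have h1 := (hasDerivAt_id z).div (hTd z hz) (hpos z).ne'
    have h2 : (tt n a) = fun z => id z / TT n a z := by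
      funext y; rfl
    rw [h2]
    refine h1.congr_deriv ?_
    have hz0 : z ≠ 0 := hz.1.ne'
    have hT : TT n a z ≠ 0 := (hpos z).ne'
    have hx : 0 < 1 + 2 * xx n a z := by
      unfold xx
      have := hs z hz
      linarith
    have hx' : 1 + 2 * xx n a z ≠ 0 := hx.ne'
    simp only [id]
    exact PARL.alg hx' hz0 hT
  have hxx : ∀ z ∈ Ioo (0:ℝ) 1, 0 < xx n a z := by
    intro z hz
    unfold xx
    have := hs z hz
    linarith
  refine ⟨hT0, hT1, hTc, ?_, ?_, fun z hz => ⟨hTd z hz, htd z hz⟩⟩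
  · refine strictMonoOn_of_deriv_pos (convex_Icc 0 1) hTc ?_
    intro z hz
    rw [interior_Icc] at hz
    rw [(hTd z hz).deriv]
    have := hxx z hz
    have := hpos z
    have := hz.1
    positivity
  · refine strictMonoOn_of_deriv_pos (convex_Icc 0 1) ?_ ?_
    · exact continuousOn_id.div hTc (fun z _ => (hpos z).ne')
    · intro z hz
      rw [interior_Icc] at hz
      rw [(htd z hz).deriv]
      have h1 := hxx z hz
      have h2 := hpos z
      have h3 := hz.1
      have h4 : 0 < tt n a z := div_pos h3 h2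
      positivity

end Pool.Agent.H356R3.HT
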