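import Pool.Agent.H356R3.HT.Defs

set_option autoImplicit false
open MeasureTheory Set Pointwise

namespace Pool.Agent.H356R3.HT

namespace REGUL

/-- the largest `ρ ≤ 1` with `ρ w(y) ≤ 1 - x y` for all `y` in `A` -/
noncomputable def S (A : Set ℝ) (w : ℝ → ℝ) (x : ℝ) : ℝ :=
  sSup {ρ : ℝ | 0 ≤ ρ ∧ ρ ≤ 1 ∧ ∀ y ∈ A, ρ * w y ≤ 1 - x * y}

theorem le_S {A : Set ℝ} {w : ℝ → ℝ} {x ρ : ℝ} (h0 : 0 ≤ ρ) (h1 : ρ ≤ 1)
    (h : ∀ y ∈ A, ρ * w y ≤ 1 - x * y) : ρ ≤ S A w x :=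
  le_csSup ⟨1, fun _ hρ => hρ.2.1⟩ ⟨h0, h1, h⟩

theorem S_le {A : Set ℝ} {w : ℝ → ℝ} {x : ℝ}
    (hne : ∃ ρ : ℝ, 0 ≤ ρ ∧ ρ ≤ 1 ∧ ∀ y ∈ A, ρ * w y ≤ 1 - x * y) : S A w x ≤ 1 :=
  csSup_le hne (fun _ hρ => hρ.2.1)

theorem S_mul {A : Set ℝ} {w : ℝ → ℝ} {x : ℝ}
    (hne : ∃ ρ : ℝ, 0 ≤ ρ ∧ ρ ≤ 1 ∧ ∀ y ∈ A, ρ * w y ≤ 1 - x * y) {y : ℝ} (hy : y ∈ A)
    (hw : 0 ≤ w y) : S A w x * w y ≤ 1 - x * y := by
  rcases hw.eq_or_lt with h0 | h0
  · obtain ⟨ρ, _, _, h⟩ := hne
    have := h y hy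
    rw [← h0, mul_zero] at this ⊢
    exact this
  · rw [← le_div_iff₀ h0]
    exact csSup_le hne (fun ρ hρ => (le_div_iff₀ h0).mpr (hρ.2.2 y hy))

/-- properties of `S` on an interval -/
theorem S_props {A : Set ℝ} {w : ℝ → ℝ} {L : ℝ} (hw : ∀ y ∈ A, 0 ≤ w y)
    (hne : ∀ x ∈ Ioo 0 L, ∃ ρ : ℝ, 0 < ρ ∧ ρ ≤ 1 ∧ ∀ y ∈ A, ρ * w y ≤ 1 - x * y) :
    ContinuousOn (S A w) (Ioo 0 L) ∧ (∀ x ∈ Ioo 0 L, 0 < S A w x) ∧
    (∀ x ∈ Ioo 0 L, S A w x ≤ 1) ∧
    (∀ x ∈ Ioo 0 L, ∀ y ∈ A, S A w x * w y ≤ 1 - x * y) := by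
  have hne' : ∀ x ∈ Ioo 0 L, ∃ ρ : ℝ, 0 ≤ ρ ∧ ρ ≤ 1 ∧ ∀ y ∈ A, ρ * w y ≤ 1 - x * y := by
    intro x hx
    obtain ⟨ρ, h0, h1, h2⟩ := hne x hx
    exact ⟨ρ, h0.le, h1, h2⟩
  have hpos : ∀ x ∈ Ioo 0 L, 0 < S A w x := by
    intro x hx
    obtain ⟨ρ, h0, h1, h2⟩ := hne x hx
    exact h0.trans_le (le_S h0.le h1 h2)
  have hmul : ∀ x ∈ Ioo 0 L, ∀ y ∈ A, S A w x * w y ≤ 1 - x * y :=
    fun x hx y hy => S_mul (hne' x hx) hy (hw y hy)
  have hle : ∀ x ∈ Ioo 0 L, S A w x ≤ 1 := fun x hx => S_le (hne' x hx)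
  refine ⟨?_, hpos, hle, hmul⟩
  apply ConcaveOn.continuousOn isOpen_Ioo
  refine ⟨convex_Ioo 0 L, ?_⟩
  intro x hx y hy a b ha hb hab
  simp only [smul_eq_mul]
  apply le_S
  · have := hpos x hx
    have := hpos y hy
    positivity
  · have h1 := mul_le_mul_of_nonneg_left (hle x hx) ha
    have h2 := mul_le_mul_of_nonneg_left (hle y hy) hb
    linarith
  · intro z hz
    have h1 := mul_le_mul_of_nonneg_left (hmul x hx z hz) ha
    have h2 := mul_le_mul_of_nonneg_left (hmul y hy z hz) hb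
    calc (a * S A w x + b * S A w y) * w z = a * (S A w x * w z) + b * (S A w y * w z) := by ring
      _ ≤ a * (1 - x * z) + b * (1 - y * z) := add_le_add h1 h2
      _ = (a + b) - (a * x + b * y) * z := by ring
      _ = 1 - (a * x + b * y) * z := by rw [hab]

/-- the comparison of the integrals -/
theorem lint {L : ℝ} (hL : 0 < L) {h h' : ℝ → ℝ} (hc : ContinuousOn h' (Ioo 0 L))
    (h0 : ∀ t ∈ Ioo 0 L, 0 ≤ h' t) (h1 : ∀ t ∈ Ioo 0 L, h' t ≤ 1)
    (hle : ∀ t ∈ Ioo 0 L, h t ≤ h' t) (hz : ∀ t, L < t → h t ≤ 0) :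
    (∫⁻ t in Ioi (0:ℝ), ENNReal.ofReal (h t)) ≤ ENNReal.ofReal (∫ t in (0:ℝ)..L, h' t) := by
  have hint : IntegrableOn h' (Ioo 0 L) := by
    refine ⟨hc.aestronglyMeasurable measurableSet_Ioo, ?_⟩
    refine HasFiniteIntegral.restrict_of_bounded (C := 1) (by simp) ?_
    filter_upwards [ae_restrict_mem measurableSet_Ioo] with t ht
    rw [Real.norm_eq_abs, abs_of_nonneg (h0 t ht)]
    exact h1 t ht
  rw [intervalIntegral.integral_of_le hL.le, integral_Ioc_eq_integral_Ioo,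
    ofReal_integral_eq_lintegral_ofReal hint
      ((ae_restrict_mem measurableSet_Ioo).mono fun t ht => h0 t ht)]
  calc (∫⁻ t in Ioi (0:ℝ), ENNReal.ofReal (h t))
      ≤ ∫⁻ t in Ioi (0:ℝ), (Ioo 0 L).indicator (fun t => ENNReal.ofReal (h' t)) t := by
        refine lintegral_mono_ae ?_
        have hne : ∀ᵐ t ∂(volume.restrict (Ioi (0:ℝ))), t ≠ L := by
          refine ae_restrict_of_ae ?_
          rw [ae_iff]
          simp
        filter_upwards [ae_restrict_mem measurableSet_Ioi, hne] with t ht htL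
        by_cases htL' : t < L
        · have hm : t ∈ Ioo 0 L := ⟨ht, htL'⟩
          rw [indicator_of_mem hm]
          exact ENNReal.ofReal_le_ofReal (hle t hm)
        · have hm : t ∉ Ioo 0 L := fun h => htL' h.2
          rw [indicator_of_notMem hm]
          have : L < t := lt_of_le_of_ne (not_lt.mp htL') (Ne.symm htL)
          rw [ENNReal.ofReal_of_nonpos (hz t this)]
    _ = ∫⁻ t in Ioo 0 L, ENNReal.ofReal (h' t) := by
        rw [lintegral_indicator measurableSet_Ioo, Measure.restrict_restrict measurableSet_Ioo]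
        congr 2
        ext t
        simp only [mem_inter_iff, mem_Ioo, mem_Ioi]
        tauto

/-- the `n`-th root -/
noncomputable def rt (n : ℕ) (x : ℝ) : ℝ := x ^ (1 / (n : ℝ))

theorem rt_nn (n : ℕ) {x : ℝ} (hx : 0 ≤ x) : 0 ≤ rt n x := Real.rpow_nonneg hx _

theorem rt_pos (n : ℕ) {x : ℝ} (hx : 0 < x) : 0 < rt n x := Real.rpow_pos_of_pos hx _

theorem rt_pow {n : ℕ} (hn : 1 ≤ n) {x : ℝ} (hx : 0 ≤ x) : rt n x ^ n = x := by
  unfold rt
  rw [← Real.rpow_natCast, ← Real.rpow_mul hx, one_div, inv_mul_cancel₀, Real.rpow_one]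
  have : (0 : ℝ) < n := by exact_mod_cast hn
  exact this.ne'

theorem rt_le_of {n : ℕ} (hn : 1 ≤ n) {x y : ℝ} (hx : 0 ≤ x) (hy : 0 ≤ y) (h : x ≤ y ^ n) :
    rt n x ≤ y := by
  rw [← rt_pow hn hx] at h
  exact le_of_pow_le_pow_left₀ (by omega) hy h

end REGUL

open REGUL in
theorem REGU_proof : S_REGU := by
  intro n f g hn hA
  by_cases hP : ∃ s : ℝ, 0 < s ∧ 0 < g s
  · right
    obtain ⟨s0, hs0, hgs0⟩ := hP
    -- the two functions
    set P : Set ℝ := {s | 0 < s ∧ 0 < g s} with hPdef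
    set G : ℝ → ℝ := fun s => rt n (g s) with hG
    have hGpos : ∀ s ∈ P, 0 < G s := fun s hs => rt_pos n hs.2
    have hfG : ∀ t, 0 ≤ t → ∀ s ∈ P, rt n (f t) * G s ≤ max 0 (1 - t * s) := by
      intro t ht s hs
      have h1 := hA.fg t s ht hs.1.le
      have hm : 0 ≤ max 0 (1 - t * s) := le_max_left _ _
      apply le_of_pow_le_pow_left₀ (n := n) (by omega) hm
      rw [mul_pow, rt_pow hn (hA.fnn t ht), hG]
      simp only []
      rw [rt_pow hn hs.2.le]
      exact h1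
    have hfG' : ∀ t, 0 ≤ t → 0 < f t → ∀ s ∈ P, rt n (f t) * G s ≤ 1 - t * s := by
      intro t ht hft s hs
      have h1 := hfG t ht s hs
      have h2 : 0 < rt n (f t) * G s := mul_pos (rt_pos n hft) (hGpos s hs)
      rcases le_total 0 (1 - t * s) with h | h
      · rwa [max_eq_right h] at h1
      · rw [max_eq_left h] at h1; linarith
    have hf1 : ∀ t, 0 ≤ t → rt n (f t) ≤ 1 := by
      intro t ht
      exact rt_le_of hn (hA.fnn t ht) zero_le_one (by rw [one_pow]; exact hA.f1 t ht)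
    have hG1 : ∀ s ∈ P, G s ≤ 1 := by
      intro s hs
      refine rt_le_of hn hs.2.le zero_le_one ?_
      have := hA.fg 0 s le_rfl hs.1.le
      rw [hA.f0, one_mul, zero_mul, sub_zero, max_eq_right zero_le_one] at this
      exact this
    -- the set of good parameters
    set Q : Set ℝ := {t | 0 ≤ t ∧ ∃ ρ : ℝ, 0 < ρ ∧ ρ ≤ 1 ∧ ∀ s ∈ P, ρ * G s ≤ 1 - t * s} with hQ
    have hQpos : ∀ t ∈ Q, ∀ s ∈ P, t * s < 1 := by
      rintro t ⟨_, ρ, h1, _, h2⟩ s hs
      have h3 := h2 s hs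
      have h4 : 0 < ρ * G s := mul_pos h1 (hGpos s hs)
      linarith
    have hQb : BddAbove Q := by
      refine ⟨1 / s0, ?_⟩
      intro t ht
      have := hQpos t ht s0 ⟨hs0, hgs0⟩
      rw [le_div_iff₀ hs0]
      exact this.le
    have hQf : ∀ t, 0 ≤ t → 0 < f t → t ∈ Q := fun t ht hft =>
      ⟨ht, rt n (f t), rt_pos n hft, hf1 t ht, hfG' t ht hft⟩
    have hQ1 : ∀ t, 0 ≤ t → t < 1 → t ∈ Q := fun t ht ht1 => hQf t ht (hA.fpos t ht ht1)
    have hQne : Q.Nonempty := ⟨0, hQ1 0 le_rfl zero_lt_one⟩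
    set ℓ : ℝ := sSup Q with hℓ
    have hℓ1 : 1 ≤ ℓ := by
      by_contra h
      push Not at h
      have h0 : 0 ≤ ℓ := le_csSup hQb (hQ1 0 le_rfl zero_lt_one)
      have h2 : (ℓ + 1) / 2 ∈ Q := hQ1 _ (by linarith) (by linarith)
      have h3 := le_csSup hQb h2
      rw [← hℓ] at h3
      linarith
    have hℓ0 : 0 < ℓ := zero_lt_one.trans_le hℓ1
    have hℓi : 0 < 1 / ℓ := by positivity
    have hQlt : ∀ t, 0 ≤ t → t < ℓ → t ∈ Q := by
      intro t ht htl
      obtain ⟨t', ht', htt⟩ := exists_lt_of_lt_csSup hQne htl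
      obtain ⟨_, ρ, h1, h2, h3⟩ := ht'
      refine ⟨ht, ρ, h1, h2, fun s hs => (h3 s hs).trans ?_⟩
      have := mul_le_mul_of_nonneg_right htt.le hs.1.le
      linarith
    have hPℓ : ∀ s ∈ P, ℓ * s ≤ 1 := by
      intro s hs
      rw [← le_div_iff₀ hs.1]
      refine csSup_le hQne fun t ht => ?_
      rw [le_div_iff₀ hs.1]
      exact (hQpos t ht s hs).le
    -- first function
    obtain ⟨rc, rpos, r1, rmul⟩ := S_props (A := P) (w := G) (L := ℓ) (fun s hs => (hGpos s hs).le)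
      (fun t ht => (hQlt t ht.1.le ht.2).2)
    set r : ℝ → ℝ := S P G with hr
    -- second function
    obtain ⟨qc, qpos, q1, qmul⟩ := S_props (A := Ioo 0 ℓ) (w := r) (L := 1 / ℓ)
      (fun t ht => (rpos t ht).le) (by
        intro s hs
        have hs1 : s * ℓ < 1 := by
          have := hs.2
          rwa [lt_div_iff₀ hℓ0] at this
        refine ⟨1 - s * ℓ, by linarith, ?_, ?_⟩
        · have := mul_pos hs.1 hℓ0
          linarith
        · intro t ht
          have h1 : (1 - s * ℓ) * r t ≤ 1 - s * ℓ :=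
            mul_le_of_le_one_right (by linarith) (r1 t ht)
          have h2 := mul_le_mul_of_nonneg_left ht.2.le hs.1.le
          linarith)
    set q : ℝ → ℝ := S (Ioo 0 ℓ) r with hq
    refine ⟨ℓ, fun t => r t ^ n, fun s => q s ^ n, ?_, ?_, ?_⟩
    · refine ⟨hℓ1, rc.pow n, qc.pow n, fun t ht => pow_pos (rpos t ht) n,
        fun s hs => pow_pos (qpos s hs) n, fun t ht => pow_le_one₀ (rpos t ht).le (r1 t ht),
        fun s hs => pow_le_one₀ (qpos s hs).le (q1 s hs), ?_⟩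
      intro t ht s hs
      rw [← mul_pow]
      refine pow_le_pow_left₀ (mul_nonneg (rpos t ht).le (qpos s hs).le) ?_ n
      have := qmul s hs t ht
      linarith [mul_comm (q s) (r t), mul_comm s t]
    · refine lint hℓ0 (rc.pow n) (fun t ht => (pow_pos (rpos t ht) n).le)
        (fun t ht => pow_le_one₀ (rpos t ht).le (r1 t ht)) ?_ ?_
      · intro t ht
        have hft := hA.fnn t ht.1.le
        have h1 : rt n (f t) ≤ r t := by
          refine le_S (rt_nn n hft) (hf1 t ht.1.le) ?_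
          intro s hs
          have h2 := hfG t ht.1.le s hs
          have h3 := hQpos t (hQlt t ht.1.le ht.2) s hs
          rwa [max_eq_right (by linarith)] at h2
        calc f t = rt n (f t) ^ n := (rt_pow hn hft).symm
          _ ≤ r t ^ n := pow_le_pow_left₀ (rt_nn n hft) h1 n
      · intro t ht
        by_contra h
        push Not at h
        have h1 := hQf t (hℓ0.le.trans ht.le) h
        have h2 := le_csSup hQb h1
        rw [← hℓ] at h2
        linarith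
    · refine lint hℓi (qc.pow n) (fun s hs => (pow_pos (qpos s hs) n).le)
        (fun s hs => pow_le_one₀ (qpos s hs).le (q1 s hs)) ?_ ?_
      · intro s hs
        by_cases hgs : 0 < g s
        · have hsP : s ∈ P := ⟨hs.1, hgs⟩
          have h1 : G s ≤ q s := by
            refine le_S (hGpos s hsP).le (hG1 s hsP) ?_
            intro t ht
            have := rmul t ht s hsP
            linarith [mul_comm (G s) (r t), mul_comm s t]
          calc g s = G s ^ n := (rt_pow hn hgs.le).symm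
            _ ≤ q s ^ n := pow_le_pow_left₀ (hGpos s hsP).le h1 n
        · exact (not_lt.mp hgs).trans (pow_pos (qpos s hs) n).le
      · intro s hs
        by_contra h
        push Not at h
        have h1 := hPℓ s ⟨hℓi.trans hs, h⟩
        rw [div_lt_iff₀ hℓ0] at hs
        linarith [mul_comm s ℓ]
  · left
    push Not at hP
    rw [setLIntegral_congr_fun (g := fun _ => 0) measurableSet_Ioi (fun s hs =>
      ENNReal.ofReal_of_nonpos (hP s hs))]
    simp

end Pool.Agent.H356R3.HT
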