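import Pool.Agent.H356R3.HT.Defs
import Pool.Agent.Helper584.KS.P_PA_all

/-!
Task SAN of helper356: the sharp Blaschke–Santaló inequality for symmetric sets, deduced from the
functional inequality of `Pool/Agent/Helper584/KS` applied to
`x ↦ ∫_0^ρ r exp(-r²/2) 1_{x ∈ r K} dr` (helper747).
-/

set_option autoImplicit false
open MeasureTheory Set Pointwise

namespace Pool.Agent.H356R3.HT

open Pool.Agent.Helper481.MB (kappa eball kappa_zero ofLp_preimage_eball eball_closed)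

namespace SANL

open Pool.Agent.Helper584.KS (PA_all Good dp)
open scoped ENNReal

/-- the density `r exp(-r²/2)` -/
noncomputable def w (r : ℝ) : ℝ := r * Real.exp (-(r ^ 2 / 2))

theorem w_cont : Continuous w := by
  unfold w
  fun_prop

theorem w_tail {a : ℝ} (ha : 0 ≤ a) :
    ∫⁻ r in Ici a, ENNReal.ofReal (w r) = ENNReal.ofReal (Real.exp (-(a ^ 2 / 2))) := by
  have hderiv : ∀ r ∈ Ici a, HasDerivAt (fun r : ℝ => -Real.exp (-(r ^ 2 / 2))) (w r) r := by
    intro r _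
    have h1 : HasDerivAt (fun r : ℝ => -(r ^ 2 / 2)) (-r) r :=
      HasDerivAt.congr_deriv ((hasDerivAt_pow 2 r).div_const 2).neg (by
        push_cast
        ring)
    refine HasDerivAt.congr_deriv h1.exp.neg ?_
    show -(Real.exp (-(r ^ 2 / 2)) * -r) = r * Real.exp (-(r ^ 2 / 2))
    ring
  have hpos : ∀ r ∈ Ioi a, 0 ≤ w r := by
    intro r hr
    unfold w
    have : 0 ≤ r := ha.trans (le_of_lt hr)
    positivity
  have htend : Filter.Tendsto (fun r : ℝ => -Real.exp (-(r ^ 2 / 2))) Filter.atTop (nhds 0) := by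
    have h1 : Filter.Tendsto (fun r : ℝ => r ^ 2 / 2) Filter.atTop Filter.atTop :=
      (Filter.tendsto_pow_atTop (by norm_num)).atTop_div_const (by norm_num)
    have h2 := (Real.tendsto_exp_neg_atTop_nhds_zero.comp h1).neg
    rw [neg_zero] at h2
    exact h2
  have hint := integrableOn_Ioi_deriv_of_nonneg' hderiv hpos htend
  have hval := integral_Ioi_of_hasDerivAt_of_nonneg' hderiv hpos htend
  rw [setLIntegral_congr Ioi_ae_eq_Ici.symm, ← ofReal_integral_eq_lintegral_ofReal hint, hval]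
  · congr 1
    ring
  · exact (ae_restrict_iff' measurableSet_Ioi).mpr (Filter.Eventually.of_forall hpos)

/-- the function of the set `K` -/
noncomputable def Fs {n : ℕ} (K : Set (Fin n → ℝ)) (ρ : ℝ) (x : Fin n → ℝ) : ℝ≥0∞ :=
  ∫⁻ r in Ioc 0 ρ, ENNReal.ofReal (w r) * K.indicator 1 (r⁻¹ • x)

theorem Fs_zero {n : ℕ} {K : Set (Fin n → ℝ)} {ρ : ℝ} {x : Fin n → ℝ}
    (h : ∀ r ∈ Ioc 0 ρ, r⁻¹ • x ∉ K) : Fs K ρ x = 0 := by
  unfold Fs
  rw [setLIntegral_congr_fun (g := fun _ => 0) measurableSet_Ioc (fun r hr => by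
    rw [indicator_of_notMem (h r hr), mul_zero])]
  simp

theorem Fs_le {n : ℕ} {K : Set (Fin n → ℝ)} {ρ : ℝ} {x : Fin n → ℝ} {a : ℝ} (ha : 0 ≤ a)
    (h : ∀ r ∈ Ioc 0 ρ, r⁻¹ • x ∈ K → a ≤ r) :
    Fs K ρ x ≤ ENNReal.ofReal (Real.exp (-(a ^ 2 / 2))) := by
  rw [← w_tail ha, ← lintegral_indicator measurableSet_Ici]
  refine le_trans ?_ (setLIntegral_le_lintegral (Ioc 0 ρ) _)
  unfold Fs
  refine setLIntegral_mono' measurableSet_Ioc fun r hr => ?_
  by_cases hK : r⁻¹ • x ∈ K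
  · rw [indicator_of_mem hK, indicator_of_mem (show r ∈ Ici a from h r hr hK), Pi.one_apply,
      mul_one]
  · rw [indicator_of_notMem hK, mul_zero]
    exact zero_le

theorem Fs_le_one {n : ℕ} (K : Set (Fin n → ℝ)) (ρ : ℝ) (x : Fin n → ℝ) : Fs K ρ x ≤ 1 := by
  have := Fs_le (K := K) (ρ := ρ) (x := x) (le_refl 0) (fun r hr _ => hr.1.le)
  simpa using this

theorem meas_uncurry {n : ℕ} {K : Set (Fin n → ℝ)} (hK : IsCompact K) :
    Measurable (fun p : (Fin n → ℝ) × ℝ =>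
      ENNReal.ofReal (w p.2) * K.indicator (1 : (Fin n → ℝ) → ℝ≥0∞) (p.2⁻¹ • p.1)) := by
  refine Measurable.mul ?_ ?_
  · exact ENNReal.measurable_ofReal.comp (w_cont.measurable.comp measurable_snd)
  · exact (measurable_one.indicator hK.measurableSet).comp
      ((measurable_snd.inv).smul measurable_fst)

theorem Fs_meas {n : ℕ} {K : Set (Fin n → ℝ)} (hK : IsCompact K) (ρ : ℝ) :
    Measurable (Fs K ρ) := by
  unfold Fs
  exact (meas_uncurry hK).lintegral_prod_right'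

/-- the radial integral -/
noncomputable def Jr (n : ℕ) (ρ : ℝ) : ℝ≥0∞ :=
  ∫⁻ r in Ioc 0 ρ, ENNReal.ofReal (r ^ n * w r)

theorem lint_Fs {n : ℕ} {K : Set (Fin n → ℝ)} (hK : IsCompact K) (ρ : ℝ) :
    ∫⁻ x, Fs K ρ x = Jr n ρ * volume K := by
  unfold Fs Jr
  rw [lintegral_lintegral_swap (meas_uncurry hK).aemeasurable, ← lintegral_mul_const'' _
    (by
      refine (ENNReal.measurable_ofReal.comp ?_).aemeasurable
      exact (measurable_id.pow_const n).mul w_cont.measurable)]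
  refine setLIntegral_congr_fun measurableSet_Ioc fun r hr => ?_
  have hr0 : r ≠ 0 := hr.1.ne'
  have h1 : ∀ x : Fin n → ℝ, K.indicator (1 : (Fin n → ℝ) → ℝ≥0∞) (r⁻¹ • x) =
      ((fun x : Fin n → ℝ => r⁻¹ • x) ⁻¹' K).indicator 1 x := fun x => rfl
  have h2 : MeasurableSet ((fun x : Fin n → ℝ => r⁻¹ • x) ⁻¹' K) :=
    (measurable_const_smul r⁻¹) hK.measurableSet
  show ∫⁻ x, ENNReal.ofReal (w r) * K.indicator 1 (r⁻¹ • x) = _
  simp only [h1]
  rw [lintegral_const_mul _ (measurable_one.indicator h2), lintegral_indicator_one h2,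
    Measure.addHaar_preimage_smul volume (inv_ne_zero hr0), Module.finrank_fin_fun, ← mul_assoc,
    ← ENNReal.ofReal_mul (by unfold w; have := hr.1; positivity)]
  congr 2
  rw [inv_pow, inv_inv, abs_of_pos (pow_pos hr.1 n)]
  ring

/-- the pointwise inequality -/
theorem pw {n : ℕ} {K L : Set (Fin n → ℝ)} (hp : ∀ x ∈ K, ∀ y ∈ L, ∑ j, x j * y j ≤ 1) (ρ : ℝ)
    (x y : Fin n → ℝ) : (Fs K ρ x).toReal * (Fs L ρ y).toReal ≤ Real.exp (-dp x y) := by
  by_cases hA : ∃ r ∈ Ioc 0 ρ, r⁻¹ • x ∈ K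
  swap
  · push Not at hA
    rw [Fs_zero hA, ENNReal.toReal_zero, zero_mul]
    positivity
  by_cases hB : ∃ r ∈ Ioc 0 ρ, r⁻¹ • y ∈ L
  swap
  · push Not at hB
    rw [Fs_zero hB, ENNReal.toReal_zero, mul_zero]
    positivity
  set A : Set ℝ := {r | r ∈ Ioc 0 ρ ∧ r⁻¹ • x ∈ K} with hAd
  set B : Set ℝ := {r | r ∈ Ioc 0 ρ ∧ r⁻¹ • y ∈ L} with hBd
  have hAn : A.Nonempty := by
    obtain ⟨r, h1, h2⟩ := hA
    exact ⟨r, h1, h2⟩
  have hBn : B.Nonempty := by
    obtain ⟨r, h1, h2⟩ := hB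
    exact ⟨r, h1, h2⟩
  have hA0 : ∀ r ∈ A, 0 ≤ r := fun r hr => hr.1.1.le
  have hB0 : ∀ r ∈ B, 0 ≤ r := fun r hr => hr.1.1.le
  have hAb : BddBelow A := ⟨0, hA0⟩
  have hBb : BddBelow B := ⟨0, hB0⟩
  set a := sInf A with ha
  set b := sInf B with hb
  have ha0 : 0 ≤ a := le_csInf hAn hA0
  have hb0 : 0 ≤ b := le_csInf hBn hB0
  have h1 : ∀ r ∈ A, ∀ s ∈ B, dp x y ≤ r * s := by
    rintro r ⟨hr, hrx⟩ s ⟨hs, hsy⟩
    have h := hp _ hrx _ hsy
    have e : ∑ j, (r⁻¹ • x) j * (s⁻¹ • y) j = dp x y / (r * s) := by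
      unfold dp
      rw [Finset.sum_div]
      refine Finset.sum_congr rfl fun j _ => ?_
      show r⁻¹ * x j * (s⁻¹ * y j) = _
      have := hr.1.ne'
      have := hs.1.ne'
      field_simp
    rw [e, div_le_one (mul_pos hr.1 hs.1)] at h
    exact h
  have h2 : ∀ s ∈ B, dp x y ≤ a * s := by
    intro s hs
    have hs0 : 0 < s := hs.1.1
    rw [← div_le_iff₀ hs0]
    refine le_csInf hAn fun r hr => ?_
    rw [div_le_iff₀ hs0]
    exact h1 r hr s hs
  have h3 : dp x y ≤ a * b := by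
    rcases eq_or_lt_of_le ha0 with h0 | h0
    · obtain ⟨s, hs⟩ := hBn
      have := h2 s hs
      rw [← h0, zero_mul] at this ⊢
      exact this
    · rw [mul_comm, ← div_le_iff₀ h0]
      refine le_csInf hBn fun s hs => ?_
      rw [div_le_iff₀ h0, mul_comm]
      exact h2 s hs
  have hf : (Fs K ρ x).toReal ≤ Real.exp (-(a ^ 2 / 2)) := by
    refine ENNReal.toReal_le_of_le_ofReal (Real.exp_pos _).le (Fs_le ha0 fun r hr hK => ?_)
    exact csInf_le hAb ⟨hr, hK⟩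
  have hg : (Fs L ρ y).toReal ≤ Real.exp (-(b ^ 2 / 2)) := by
    refine ENNReal.toReal_le_of_le_ofReal (Real.exp_pos _).le (Fs_le hb0 fun r hr hL => ?_)
    exact csInf_le hBb ⟨hr, hL⟩
  calc (Fs K ρ x).toReal * (Fs L ρ y).toReal
      ≤ Real.exp (-(a ^ 2 / 2)) * Real.exp (-(b ^ 2 / 2)) :=
        mul_le_mul hf hg ENNReal.toReal_nonneg (Real.exp_pos _).le
    _ = Real.exp (-(a ^ 2 / 2) + -(b ^ 2 / 2)) := (Real.exp_add _ _).symm
    _ ≤ Real.exp (-dp x y) := by
        apply Real.exp_le_exp.mpr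
        nlinarith [sq_nonneg (a - b)]

theorem good {n : ℕ} {K : Set (Fin n → ℝ)} (hK : IsCompact K) (ρ : ℝ) :
    Good (fun x => (Fs K ρ x).toReal) where
  meas := (Fs_meas hK ρ).ennreal_toReal
  nonneg x := ENNReal.toReal_nonneg
  bdd := ⟨1, fun x => ENNReal.toReal_le_of_le_ofReal zero_le_one (by
    rw [ENNReal.ofReal_one]
    exact Fs_le_one K ρ x)⟩
  supp := by
    obtain ⟨R, hR⟩ := hK.isBounded.exists_norm_le
    refine ⟨ρ * max R 0, fun x hx i => ?_⟩
    have h1 : ∃ r ∈ Ioc 0 ρ, r⁻¹ • x ∈ K := by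
      by_contra h
      push Not at h
      apply hx
      show (Fs K ρ x).toReal = 0
      rw [Fs_zero h, ENNReal.toReal_zero]
    obtain ⟨r, hr, hrK⟩ := h1
    have h2 := (norm_le_pi_norm (r⁻¹ • x) i).trans (hR _ hrK)
    have h3 : (r⁻¹ • x) i = r⁻¹ * x i := rfl
    rw [h3, Real.norm_eq_abs, abs_mul, abs_of_pos (inv_pos.mpr hr.1)] at h2
    have h4 : r⁻¹ * |x i| ≤ max R 0 := h2.trans (le_max_left _ _)
    calc |x i| = r * (r⁻¹ * |x i|) := by rw [← mul_assoc, mul_inv_cancel₀ hr.1.ne', one_mul]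
      _ ≤ ρ * max R 0 := mul_le_mul hr.2 h4 (by have := hr.1; positivity) (hr.1.le.trans hr.2)

theorem even {n : ℕ} {K : Set (Fin n → ℝ)} (sK : ∀ x ∈ K, -x ∈ K) (ρ : ℝ) (x : Fin n → ℝ) :
    Fs K ρ (-x) = Fs K ρ x := by
  unfold Fs
  refine lintegral_congr fun r => ?_
  congr 1
  have h : r⁻¹ • (-x) ∈ K ↔ r⁻¹ • x ∈ K := by
    rw [smul_neg]
    constructor
    · intro h
      have := sK _ h
      rwa [neg_neg] at this
    · exact sK _
  by_cases h1 : r⁻¹ • x ∈ K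
  · rw [indicator_of_mem h1, indicator_of_mem (h.mpr h1)]
    rfl
  · rw [indicator_of_notMem h1, indicator_of_notMem (fun h2 => h1 (h.mp h2))]

theorem centred {n : ℕ} {K : Set (Fin n → ℝ)} (sK : ∀ x ∈ K, -x ∈ K) (ρ : ℝ) (i : Fin n) :
    ∫ x, x i * (Fs K ρ x).toReal = 0 := by
  have h1 := integral_neg_eq_self (fun x : Fin n → ℝ => x i * (Fs K ρ x).toReal) volume
  have h2 : ∀ x : Fin n → ℝ, (-x) i * (Fs K ρ (-x)).toReal = -(x i * (Fs K ρ x).toReal) := by
    intro x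
    rw [even sK, Pi.neg_apply]
    ring
  simp only [h2, integral_neg] at h1
  linarith

theorem int_toReal {n : ℕ} {K : Set (Fin n → ℝ)} (hK : IsCompact K) (ρ : ℝ) :
    ∫ x, (Fs K ρ x).toReal = (Jr n ρ * volume K).toReal := by
  rw [integral_toReal (Fs_meas hK ρ).aemeasurable
    (Filter.Eventually.of_forall fun x => (Fs_le_one K ρ x).trans_lt ENNReal.one_lt_top),
    lint_Fs hK]

/-- the total radial integral -/
noncomputable def Jt (n : ℕ) : ℝ≥0∞ := ∫⁻ r in Ioi 0, ENNReal.ofReal (r ^ n * w r)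

theorem Jt_eq (n : ℕ) :
    Jt n = ENNReal.ofReal (√2 ^ n * Real.Gamma (n / 2 + 1)) := by
  have h1 : ∀ r ∈ Ioi (0:ℝ), r ^ n * w r = r ^ ((n:ℝ) + 1) * Real.exp (-(1/2) * r ^ (2:ℝ)) := by
    intro r hr
    unfold w
    rw [Real.rpow_add hr, Real.rpow_one, Real.rpow_natCast, Real.rpow_two, mul_assoc]
    congr 3
    ring
  have hint := integrableOn_rpow_mul_exp_neg_mul_rpow (s := (n:ℝ) + 1) (p := 2) (b := 1/2)
    (by have : (0:ℝ) ≤ n := by positivity
        linarith) (by norm_num) (by norm_num)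
  have hval := integral_rpow_mul_exp_neg_mul_rpow (q := (n:ℝ) + 1) (p := 2) (b := 1/2)
    (by norm_num) (by have : (0:ℝ) ≤ n := by positivity
                      linarith) (by norm_num)
  unfold Jt
  rw [setLIntegral_congr_fun measurableSet_Ioi (fun r hr => by rw [h1 r hr]),
    ← ofReal_integral_eq_lintegral_ofReal hint, hval]
  · congr 1
    have e1 : ((n:ℝ) + 1 + 1) / 2 = n / 2 + 1 := by ring
    have e2 : (1 / 2 : ℝ) ^ (-((n:ℝ) + 1 + 1) / 2) * (1 / 2) = √2 ^ n := by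
      have e3 : -((n:ℝ) + 1 + 1) / 2 = -(n / 2 + 1) := by ring
      have e4 : ((1 / 2 : ℝ))⁻¹ = 2 := by norm_num
      have e5 : √2 ^ n = (2:ℝ) ^ ((n:ℝ) / 2) := by
        rw [Real.sqrt_eq_rpow, ← Real.rpow_natCast ((2:ℝ) ^ (1/2 : ℝ)) n,
          ← Real.rpow_mul (by norm_num)]
        congr 1
        ring
      rw [e3, Real.rpow_neg (by norm_num), ← Real.inv_rpow (by norm_num), e4,
        Real.rpow_add (by norm_num), Real.rpow_one, e5]
      ring
    rw [e2, e1]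
  · refine (ae_restrict_iff' measurableSet_Ioi).mpr (Filter.Eventually.of_forall fun r hr => ?_)
    have : (0:ℝ) < r := hr
    positivity

theorem kappa_eq (n : ℕ) : kappa n = ENNReal.ofReal (√Real.pi ^ n / Real.Gamma (n / 2 + 1)) := by
  rcases Nat.eq_zero_or_pos n with rfl | hn
  · rw [kappa_zero]
    simp
  · have : Nonempty (Fin n) := ⟨⟨0, hn⟩⟩
    unfold kappa
    have h := (PiLp.volume_preserving_ofLp (Fin n)).measure_preimage
      (eball_closed n).measurableSet.nullMeasurableSet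
    rw [← h, ofLp_preimage_eball, EuclideanSpace.volume_closedBall, Fintype.card_fin]
    simp

theorem kappa_Jt (n : ℕ) : kappa n * Jt n = ENNReal.ofReal (√(2 * Real.pi) ^ n) := by
  have hG : 0 < Real.Gamma ((n:ℝ) / 2 + 1) := Real.Gamma_pos_of_pos (by positivity)
  rw [kappa_eq, Jt_eq, ← ENNReal.ofReal_mul (by positivity)]
  congr 1
  rw [mul_comm (2:ℝ), Real.sqrt_mul Real.pi_pos.le, mul_pow]
  field_simp

/-- the inequality with a truncated radial integral -/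
theorem trunc {n : ℕ} {K L : Set (Fin n → ℝ)} (hK : IsCompact K) (hL : IsCompact L)
    (sK : ∀ x ∈ K, -x ∈ K) (hp : ∀ x ∈ K, ∀ y ∈ L, ∑ j, x j * y j ≤ 1) (ρ : ℝ) :
    (Jr n ρ * volume K) * (Jr n ρ * volume L) ≤ ENNReal.ofReal ((2 * Real.pi) ^ n) := by
  have h := PA_all n _ _ (good hK ρ) (good hL ρ) (pw hp ρ) (centred sK ρ)
  rw [int_toReal hK, int_toReal hL, ← ENNReal.toReal_mul] at h
  have hJ : Jr n ρ < ∞ := by
    have h1 : Jr n ρ ≤ Jt n := lintegral_mono_set (fun r hr => hr.1)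
    refine h1.trans_lt ?_
    rw [Jt_eq]
    exact ENNReal.ofReal_lt_top
  have hfin : (Jr n ρ * volume K) * (Jr n ρ * volume L) ≠ ∞ :=
    ENNReal.mul_ne_top (ENNReal.mul_ne_top hJ.ne hK.measure_lt_top.ne)
      (ENNReal.mul_ne_top hJ.ne hL.measure_lt_top.ne)
  exact (ENNReal.le_ofReal_iff_toReal_le hfin (by positivity)).mpr h

theorem Jr_tendsto (n : ℕ) : Filter.Tendsto (fun m : ℕ => Jr n m) Filter.atTop (nhds (Jt n)) := by
  have h1 : Ioi (0:ℝ) = ⋃ m : ℕ, Ioc (0:ℝ) m := by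
    ext r
    simp only [mem_Ioi, mem_iUnion, mem_Ioc]
    constructor
    · intro hr
      obtain ⟨m, hm⟩ := exists_nat_ge r
      exact ⟨m, hr, hm⟩
    · rintro ⟨m, hr, _⟩
      exact hr
  have h2 : Monotone fun m : ℕ => Ioc (0:ℝ) m := by
    intro m m' hmm r hr
    exact ⟨hr.1, hr.2.trans (by exact_mod_cast hmm)⟩
  have h3 := tendsto_measure_iUnion_atTop (μ := volume.withDensity
    (fun r : ℝ => ENNReal.ofReal (r ^ n * w r))) h2
  rw [← h1] at h3
  unfold Jr Jt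
  rw [withDensity_apply _ measurableSet_Ioi] at h3
  refine h3.congr fun m => ?_
  exact withDensity_apply _ measurableSet_Ioc

end SANL

open SANL in
/-- the Blaschke–Santaló inequality for symmetric sets -/
theorem SAN_proof : S_SAN := by
  intro n K L hK hL sK _ hp
  have h1 : (Jt n * volume K) * (Jt n * volume L) ≤ ENNReal.ofReal ((2 * Real.pi) ^ n) := by
    have h2 : Filter.Tendsto (fun m : ℕ => (Jr n m * volume K) * (Jr n m * volume L))
        Filter.atTop (nhds ((Jt n * volume K) * (Jt n * volume L))) := by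
      have hJ : Jt n ≠ ⊤ := by
        rw [Jt_eq]
        exact ENNReal.ofReal_ne_top
      refine ENNReal.Tendsto.mul (ENNReal.Tendsto.mul_const (Jr_tendsto n)
        (Or.inr hK.measure_lt_top.ne)) (Or.inr (ENNReal.mul_ne_top hJ hL.measure_lt_top.ne))
        (ENNReal.Tendsto.mul_const (Jr_tendsto n) (Or.inr hL.measure_lt_top.ne))
        (Or.inr (ENNReal.mul_ne_top hJ hK.measure_lt_top.ne))
    exact le_of_tendsto h2 (Filter.Eventually.of_forall fun m => trunc hK hL sK hp m)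
  have h3 : ENNReal.ofReal ((2 * Real.pi) ^ n) = (kappa n * Jt n) * (kappa n * Jt n) := by
    rw [kappa_Jt, ← ENNReal.ofReal_mul (by positivity), ← mul_pow, Real.mul_self_sqrt (by positivity)]
  have hJ0 : Jt n ≠ 0 := by
    rw [Jt_eq, Ne, ENNReal.ofReal_eq_zero, not_le]
    have : 0 < Real.Gamma ((n:ℝ) / 2 + 1) := Real.Gamma_pos_of_pos (by positivity)
    positivity
  have hJ : Jt n ≠ ⊤ := by
    rw [Jt_eq]
    exact ENNReal.ofReal_ne_top
  rw [h3] at h1
  have h4 : (Jt n * Jt n) * (volume K * volume L) ≤ (Jt n * Jt n) * kappa n ^ 2 := by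
    calc (Jt n * Jt n) * (volume K * volume L) = (Jt n * volume K) * (Jt n * volume L) := by ring
      _ ≤ (kappa n * Jt n) * (kappa n * Jt n) := h1
      _ = _ := by ring
  exact (ENNReal.mul_le_mul_iff_right (mul_ne_zero hJ0 hJ0) (ENNReal.mul_ne_top hJ hJ)).mp h4

end Pool.Agent.H356R3.HT
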