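import Pool.Agent.H356R3.HT.Defs

/-!
# Task SIGN: the sign of `Qf n`
-/

set_option autoImplicit false
open MeasureTheory Set Pointwise

namespace Pool.Agent.H356R3.HT

namespace SIGNL

/-- the continuous version of the integrand -/
noncomputable def ps (n : ℕ) (a z : ℝ) : ℝ :=
  (4 * (1 - z) ^ n / a) / (√(1 + 4 * gz n z / a) * (√(1 + 4 * gz n z / a) + 1))

theorem gz_nonneg (n : ℕ) {z : ℝ} (h0 : 0 ≤ z) (h1 : z ≤ 1) : 0 ≤ gz n z :=
  mul_nonneg h0 (pow_nonneg (by linarith) n)

theorem gz_le (n : ℕ) {z : ℝ} (h0 : 0 ≤ z) (h1 : z ≤ 1) : gz n z ≤ z := by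
  unfold gz
  have := pow_le_one₀ (n := n) (by linarith : (0:ℝ) ≤ 1 - z) (by linarith)
  nlinarith

theorem h_nonneg (n : ℕ) {a z : ℝ} (ha : 0 < a) (h0 : 0 ≤ z) (h1 : z ≤ 1) :
    0 ≤ 4 * gz n z / a :=
  div_nonneg (mul_nonneg (by norm_num) (gz_nonneg n h0 h1)) ha.le

theorem ps_eq (n : ℕ) {a z : ℝ} (ha : 0 < a) (h0 : 0 < z) (h1 : z ≤ 1) :
    (1 - 1 / √(1 + 4 * gz n z / a)) / z = ps n a z := by
  have h2 := h_nonneg n ha h0.le h1
  obtain ⟨s, hs⟩ : ∃ s, s = √(1 + 4 * gz n z / a) := ⟨_, rfl⟩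
  have hs1 : 1 ≤ s := by rw [hs]; exact Real.one_le_sqrt.2 (by linarith)
  have hs2 : s ^ 2 = 1 + 4 * gz n z / a := by rw [hs]; exact Real.sq_sqrt (by linarith)
  unfold ps
  rw [← hs]
  have h3 : 4 * (1 - z) ^ n / a = (s ^ 2 - 1) / z := by
    rw [hs2]
    unfold gz
    field_simp
    ring
  rw [h3]
  have hs0 : s ≠ 0 := by linarith
  have hs3 : s + 1 ≠ 0 := by linarith
  field_simp
  ring

theorem ps_cont (n : ℕ) {a : ℝ} (ha : 0 < a) : ContinuousOn (ps n a) (Icc 0 1) := by
  unfold ps gz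
  refine ContinuousOn.div ?_ ?_ ?_
  · fun_prop
  · refine ContinuousOn.mul ?_ (ContinuousOn.add ?_ continuousOn_const)
    · refine ContinuousOn.sqrt ?_
      fun_prop
    · refine ContinuousOn.sqrt ?_
      fun_prop
  · intro z hz
    have h2 := h_nonneg n ha hz.1 hz.2
    unfold gz at h2
    have h3 : 0 < √(1 + 4 * (z * (1 - z) ^ n) / a) := Real.sqrt_pos.2 (by linarith)
    positivity

theorem int_eq (n : ℕ) {a : ℝ} (ha : 0 < a) :
    ∫ z in (0:ℝ)..1, (1 - 1 / √(1 + 4 * gz n z / a)) / z = ∫ z in (0:ℝ)..1, ps n a z := by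
  rw [intervalIntegral.integral_of_le zero_le_one, intervalIntegral.integral_of_le zero_le_one]
  exact setIntegral_congr_fun measurableSet_Ioc fun z hz => ps_eq n ha hz.1 hz.2

theorem ps_nonneg (n : ℕ) {a z : ℝ} (ha : 0 < a) (h0 : 0 ≤ z) (h1 : z ≤ 1) : 0 ≤ ps n a z := by
  unfold ps
  have : 0 ≤ (1 - z) ^ n := pow_nonneg (by linarith) n
  positivity

theorem ps_le (n : ℕ) {a z : ℝ} (ha : 0 < a) (h0 : 0 ≤ z) (h1 : z ≤ 1) : ps n a z ≤ 2 / a := by
  unfold ps
  have h2 := h_nonneg n ha h0 h1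
  have hs1 : 1 ≤ √(1 + 4 * gz n z / a) := Real.one_le_sqrt.2 (by linarith)
  have h3 : (1 - z) ^ n ≤ 1 := pow_le_one₀ (by linarith) (by linarith)
  have h4 : 0 ≤ (1 - z) ^ n := pow_nonneg (by linarith) n
  have h5 : 4 * (1 - z) ^ n / a ≤ 4 / a := by
    apply div_le_div_of_nonneg_right _ ha.le
    linarith
  have h6 : 2 ≤ √(1 + 4 * gz n z / a) * (√(1 + 4 * gz n z / a) + 1) := by nlinarith
  rw [div_le_iff₀ (by linarith)]
  have h7 : 4 / a = 2 / a * 2 := by ring
  calc 4 * (1 - z) ^ n / a ≤ 4 / a := h5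
    _ = 2 / a * 2 := h7
    _ ≤ 2 / a * (√(1 + 4 * gz n z / a) * (√(1 + 4 * gz n z / a) + 1)) :=
      mul_le_mul_of_nonneg_left h6 (by positivity)

theorem ps_le' (n : ℕ) {a z : ℝ} (ha : 0 < a) (h0 : 0 < z) (h1 : z ≤ 1) : ps n a z ≤ z⁻¹ := by
  rw [← ps_eq n ha h0 h1, div_eq_mul_inv]
  have h2 : 0 ≤ 1 / √(1 + 4 * gz n z / a) := by positivity
  have h3 : 0 < z⁻¹ := inv_pos.2 h0
  nlinarith

theorem ps_int (n : ℕ) {a : ℝ} (ha : 0 < a) {x y : ℝ} (hx : 0 ≤ x) (hxy : x ≤ y) (hy : y ≤ 1) :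
    IntervalIntegrable (ps n a) volume x y := by
  apply ContinuousOn.intervalIntegrable
  rw [uIcc_of_le hxy]
  exact (ps_cont n ha).mono (Icc_subset_Icc hx hy)

theorem small (n : ℕ) {a : ℝ} (ha : 0 < a) (ha6 : a ≤ 1 / 6) : 0 < Qf n a := by
  unfold Qf
  rw [int_eq n ha]
  have e := intervalIntegral.integral_add_adjacent_intervals
    (ps_int n ha le_rfl (by linarith : (0:ℝ) ≤ a / 2) (by linarith))
    (ps_int n ha (by linarith : (0:ℝ) ≤ a / 2) (by linarith : a / 2 ≤ 1) le_rfl)
  rw [← e]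
  have h1 : ∫ z in (0:ℝ)..(a / 2), ps n a z ≤ 1 := by
    have := intervalIntegral.integral_mono_on (by linarith : (0:ℝ) ≤ a / 2)
      (ps_int n ha le_rfl (by linarith : (0:ℝ) ≤ a / 2) (by linarith))
      (intervalIntegrable_const (c := 2 / a))
      (fun z hz => ps_le n ha hz.1 (by linarith [hz.2]))
    rw [intervalIntegral.integral_const, smul_eq_mul] at this
    have e2 : (a / 2 - 0) * (2 / a) = 1 := by field_simp; ring
    linarith
  have h2 : ∫ z in (a / 2)..1, ps n a z ≤ Real.log (2 / a) := by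
    have := intervalIntegral.integral_mono_on (by linarith : a / 2 ≤ 1)
      (ps_int n ha (by linarith : (0:ℝ) ≤ a / 2) (by linarith : a / 2 ≤ 1) le_rfl)
      (g := fun z => z⁻¹) (intervalIntegral.intervalIntegrable_inv (fun z hz => by
        rw [uIcc_of_le (by linarith)] at hz
        have := hz.1
        linarith) continuousOn_id)
      (fun z hz => ps_le' n ha (by linarith [hz.1]) hz.2)
    rw [integral_inv_of_pos (by linarith) one_pos] at this
    have e2 : 1 / (a / 2) = 2 / a := by field_simp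
    rwa [e2] at this
  have h3 : Real.log (2 / a) = Real.log 2 + Real.log (1 / a) := by
    rw [← Real.log_mul (by norm_num) (by positivity)]
    congr 1
    ring
  have h4 : 1 + Real.log 2 < Real.log (1 / a) := by
    have h5 : Real.log (2 * 3) ≤ Real.log (1 / a) := by
      apply Real.log_le_log (by norm_num)
      rw [le_div_iff₀ ha]
      linarith
    rw [Real.log_mul (by norm_num) (by norm_num)] at h5
    have h6 : 1 < Real.log 3 := by
      rw [Real.lt_log_iff_exp_lt (by norm_num)]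
      linarith [Real.exp_one_lt_d9]
    linarith
  linarith

/-- Lipschitz bound in `log a` -/
theorem lip {c K x y : ℝ} (hc : 0 ≤ c)
    (hK : ∀ s : ℝ, s ≤ max x y → c * Real.exp s / (2 * ((1 + c * Real.exp s) *
      √(1 + c * Real.exp s))) ≤ K) :
    |1 / √(1 + c * Real.exp x) - 1 / √(1 + c * Real.exp y)| ≤ K * |x - y| := by
  have hder : ∀ s ∈ Iic (max x y), HasDerivWithinAt (fun s => 1 / √(1 + c * Real.exp s))
      (-(c * Real.exp s / (2 * ((1 + c * Real.exp s) * √(1 + c * Real.exp s)))))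
        (Iic (max x y)) s := by
    intro s _
    have h1 : 0 < 1 + c * Real.exp s := by positivity
    have h2 : 0 < √(1 + c * Real.exp s) := Real.sqrt_pos.2 h1
    have h3 : HasDerivAt (fun s => 1 + c * Real.exp s) (c * Real.exp s) s := by
      simpa using ((Real.hasDerivAt_exp s).const_mul c).const_add 1
    have h4 := (h3.sqrt h1.ne').inv h2.ne'
    have h5 : HasDerivAt (fun s => 1 / √(1 + c * Real.exp s))
        (-(c * Real.exp s / (2 * ((1 + c * Real.exp s) * √(1 + c * Real.exp s))))) s := by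
      have e1 : (fun s => 1 / √(1 + c * Real.exp s)) = (fun s => √(1 + c * Real.exp s))⁻¹ := by
        funext s
        simp
      rw [e1]
      refine h4.congr_deriv ?_
      rw [Real.sq_sqrt h1.le]
      field_simp
    exact h5.hasDerivWithinAt
  have h := (convex_Iic (max x y)).norm_image_sub_le_of_norm_hasDerivWithin_le hder
    (C := K) (fun s hs => by
      rw [norm_neg, Real.norm_of_nonneg (by positivity)]
      exact hK s hs) (le_max_right x y) (le_max_left x y)
  simpa only [Real.norm_eq_abs] using h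

theorem quarter {h : ℝ} (h0 : 0 ≤ h) : h / (2 * ((1 + h) * √(1 + h))) ≤ 1 / 4 := by
  have h1 : 0 < √(1 + h) := Real.sqrt_pos.2 (by linarith)
  have h2 : √(1 + h) ^ 2 = 1 + h := Real.sq_sqrt (by linarith)
  rw [div_le_iff₀ (by positivity)]
  have h3 : 2 * h ≤ (1 + h) * √(1 + h) := by
    have h4 : (2 * h) ^ 2 ≤ ((1 + h) * √(1 + h)) ^ 2 := by
      rw [mul_pow (1 + h), h2]
      nlinarith [mul_nonneg h0 (sq_nonneg (h - 1 / 2)), mul_nonneg h0 h0]
    exact le_of_sq_le_sq h4 (by positivity)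
  linarith

theorem half {h : ℝ} (h0 : 0 ≤ h) : h / (2 * ((1 + h) * √(1 + h))) ≤ h / 2 := by
  have h1 : 1 ≤ √(1 + h) := Real.one_le_sqrt.2 (by linarith)
  have h2 : 1 ≤ (1 + h) * √(1 + h) := by nlinarith
  apply div_le_div_of_nonneg_left h0 (by norm_num) (by linarith)

theorem ps_diff (n : ℕ) {a b z : ℝ} (ha : 1 / 6 ≤ a) (hb : 1 / 6 ≤ b) (h0 : 0 < z) (h1 : z ≤ 1) :
    |ps n a z - ps n b z| ≤ 12 * |Real.log a - Real.log b| ∧
      |ps n a z - ps n b z| ≤ |Real.log a - Real.log b| / 4 * z⁻¹ := by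
  have ha0 : 0 < a := by linarith
  have hb0 : 0 < b := by linarith
  have hg := gz_nonneg n h0.le h1
  have hgz := gz_le n h0.le h1
  rw [← ps_eq n ha0 h0 h1, ← ps_eq n hb0 h0 h1, ← sub_div, abs_div, abs_of_pos h0]
  have e1 : (1 - 1 / √(1 + 4 * gz n z / a)) - (1 - 1 / √(1 + 4 * gz n z / b)) =
      1 / √(1 + 4 * gz n z * Real.exp (-Real.log b)) -
        1 / √(1 + 4 * gz n z * Real.exp (-Real.log a)) := by
    rw [Real.exp_neg, Real.exp_neg, Real.exp_log ha0, Real.exp_log hb0]
    simp only [div_eq_mul_inv]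
    ring
  have e2 : |-Real.log b - -Real.log a| = |Real.log a - Real.log b| := by
    congr 1
    ring
  have hexp : ∀ s : ℝ, s ≤ max (-Real.log b) (-Real.log a) → Real.exp s ≤ 6 := by
    intro s hs
    have h2 : s ≤ Real.log 6 := by
      refine hs.trans (max_le ?_ ?_)
      · rw [← Real.log_inv]
        apply Real.log_le_log (by positivity)
        rw [inv_le_comm₀ hb0 (by norm_num)]
        linarith
      · rw [← Real.log_inv]
        apply Real.log_le_log (by positivity)
        rw [inv_le_comm₀ ha0 (by norm_num)]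
        linarith
    calc Real.exp s ≤ Real.exp (Real.log 6) := Real.exp_le_exp.2 h2
      _ = 6 := Real.exp_log (by norm_num)
  rw [e1]
  constructor
  · have h2 := lip (c := 4 * gz n z) (K := 12 * z) (x := -Real.log b) (y := -Real.log a)
      (by positivity) (fun s hs => by
        refine (half (by positivity)).trans ?_
        have h3 := hexp s hs
        have h4 : 0 < Real.exp s := Real.exp_pos s
        nlinarith)
    rw [e2] at h2
    rw [div_le_iff₀ h0]
    linarith
  · have h2 := lip (c := 4 * gz n z) (K := 1 / 4) (x := -Real.log b) (y := -Real.log a)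
      (by positivity) (fun s _ => quarter (by positivity))
    rw [e2] at h2
    rw [div_eq_mul_inv]
    apply mul_le_mul_of_nonneg_right _ (inv_pos.2 h0).le
    linarith

theorem J_diff (n : ℕ) {a b : ℝ} (ha : 1 / 6 ≤ a) (hb : 1 / 6 ≤ b) :
    |(∫ z in (0:ℝ)..1, ps n a z) - ∫ z in (0:ℝ)..1, ps n b z| ≤
      5 / 4 * |Real.log a - Real.log b| := by
  have ha0 : 0 < a := by linarith
  have hb0 : 0 < b := by linarith
  obtain ⟨L, hL⟩ : ∃ L, L = |Real.log a - Real.log b| := ⟨_, rfl⟩
  have hL0 : 0 ≤ L := by rw [hL]; positivity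
  rw [← intervalIntegral.integral_sub (ps_int n ha0 le_rfl zero_le_one le_rfl)
    (ps_int n hb0 le_rfl zero_le_one le_rfl)]
  have hi : ∀ x y : ℝ, 0 ≤ x → x ≤ y → y ≤ 1 →
      IntervalIntegrable (fun z => ps n a z - ps n b z) volume x y := fun x y h1 h2 h3 =>
    (ps_int n ha0 h1 h2 h3).sub (ps_int n hb0 h1 h2 h3)
  rw [← intervalIntegral.integral_add_adjacent_intervals
    (hi 0 (1 / 48) le_rfl (by norm_num) (by norm_num)) (hi (1 / 48) 1 (by norm_num) (by norm_num)
      le_rfl)]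
  have h1 : |∫ z in (0:ℝ)..(1 / 48), (ps n a z - ps n b z)| ≤ L / 4 := by
    have := intervalIntegral.norm_integral_le_of_norm_le_const (a := (0:ℝ)) (b := 1 / 48)
      (C := 12 * L) (f := fun z => ps n a z - ps n b z) (fun z hz => by
        rw [uIoc_of_le (by norm_num)] at hz
        rw [Real.norm_eq_abs, hL]
        exact (ps_diff n ha hb hz.1 (by linarith [hz.2])).1)
    rw [Real.norm_eq_abs] at this
    have e2 : |(1 / 48 : ℝ) - 0| = 1 / 48 := by norm_num
    rw [e2] at this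
    linarith
  have h2 : |∫ z in (1 / 48:ℝ)..1, (ps n a z - ps n b z)| ≤ L := by
    have hint : IntervalIntegrable (fun z : ℝ => L / 4 * z⁻¹) volume (1 / 48) 1 := by
      apply IntervalIntegrable.const_mul
      apply intervalIntegral.intervalIntegrable_inv _ continuousOn_id
      intro z hz
      rw [uIcc_of_le (by norm_num)] at hz
      have := hz.1
      simp only [id]
      intro h
      rw [h] at this
      norm_num at this
    have := intervalIntegral.norm_integral_le_of_norm_le (by norm_num : (1 / 48:ℝ) ≤ 1)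
      (f := fun z => ps n a z - ps n b z) (g := fun z => L / 4 * z⁻¹)
      (Filter.Eventually.of_forall fun z hz => by
        rw [Real.norm_eq_abs, hL]
        exact (ps_diff n ha hb (by linarith [hz.1]) hz.2).2) hint
    rw [Real.norm_eq_abs, intervalIntegral.integral_const_mul,
      integral_inv_of_pos (by norm_num) one_pos] at this
    have h3 : Real.log (1 / (1 / 48)) ≤ 4 := by
      have e3 : (1:ℝ) / (1 / 48) = 48 := by norm_num
      rw [e3, Real.log_le_iff_le_exp (by norm_num)]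
      have e4 : Real.exp 4 = Real.exp 1 ^ 4 := by
        rw [← Real.exp_nat_mul]
        norm_num
      rw [e4]
      have h5 : (2.7:ℝ) ≤ Real.exp 1 := by linarith [Real.exp_one_gt_d9]
      calc (48:ℝ) ≤ 2.7 ^ 4 := by norm_num
        _ ≤ Real.exp 1 ^ 4 := pow_le_pow_left₀ (by norm_num) h5 4
    nlinarith
  rw [← hL]
  calc |(∫ z in (0:ℝ)..(1 / 48), (ps n a z - ps n b z)) +
      ∫ z in (1 / 48:ℝ)..1, (ps n a z - ps n b z)| ≤ _ := abs_add_le _ _
    _ ≤ 5 / 4 * L := by linarith

theorem Q_diff (n : ℕ) {a b : ℝ} (ha : 1 / 6 ≤ a) (hb : 1 / 6 ≤ b) :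
    |(Qf n a - Qf n b) - (Real.log b - Real.log a)| ≤ 5 / 8 * |Real.log a - Real.log b| := by
  have h := J_diff n ha hb
  unfold Qf
  rw [int_eq n (by linarith : 0 < a), int_eq n (by linarith : 0 < b), one_div a, one_div b,
    Real.log_inv, Real.log_inv]
  obtain ⟨x, hx⟩ : ∃ x, x = ∫ z in (0:ℝ)..1, ps n a z := ⟨_, rfl⟩
  obtain ⟨y, hy⟩ : ∃ y, y = ∫ z in (0:ℝ)..1, ps n b z := ⟨_, rfl⟩
  rw [← hx, ← hy] at h ⊢
  have e : -Real.log a - 1 / 2 * x - (-Real.log b - 1 / 2 * y) - (Real.log b - Real.log a) =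
      -(1 / 2) * (x - y) := by ring
  rw [e, abs_mul]
  have : |(-(1 / 2) : ℝ)| = 1 / 2 := by norm_num
  rw [this]
  linarith

theorem Q_anti (n : ℕ) {a b : ℝ} (ha : 1 / 6 ≤ a) (hab : a < b) : Qf n b < Qf n a := by
  have h := Q_diff n ha (ha.trans hab.le)
  have h1 : Real.log a < Real.log b := Real.log_lt_log (by linarith) hab
  rw [abs_of_neg (by linarith : Real.log a - Real.log b < 0)] at h
  have h2 := (abs_le.1 h).1
  linarith

theorem Q_cont (n : ℕ) : ContinuousOn (Qf n) (Icc (1 / 6) 1) := by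
  intro x hx
  have hx0 : 0 < x := by linarith [hx.1]
  rw [ContinuousWithinAt, tendsto_iff_dist_tendsto_zero]
  have h1 : Filter.Tendsto (fun a => 2 * |Real.log a - Real.log x|)
      (nhdsWithin x (Icc (1 / 6) 1)) (nhds 0) := by
    have h2 : ContinuousWithinAt (fun a => 2 * |Real.log a - Real.log x|) (Icc (1 / 6) 1) x := by
      have h3 : ContinuousAt Real.log x := Real.continuousAt_log hx0.ne'
      exact ((h3.sub continuousAt_const).abs.const_mul 2).continuousWithinAt
    have h4 := h2.tendsto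
    simpa using h4
  refine squeeze_zero' (Filter.Eventually.of_forall fun _ => dist_nonneg) ?_ h1
  filter_upwards [self_mem_nhdsWithin] with a ha
  have h := Q_diff n ha.1 hx.1
  rw [Real.dist_eq]
  have h5 : |Qf n a - Qf n x| ≤ |(Qf n a - Qf n x) - (Real.log x - Real.log a)| +
      |Real.log x - Real.log a| := by
    have := abs_add_le ((Qf n a - Qf n x) - (Real.log x - Real.log a)) (Real.log x - Real.log a)
    rwa [sub_add_cancel] at this
  rw [abs_sub_comm (Real.log x) (Real.log a)] at h5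
  have := abs_nonneg (Real.log a - Real.log x)
  linarith

theorem Q_one (n : ℕ) : Qf n 1 < 0 := by
  unfold Qf
  rw [int_eq n one_pos]
  have h1 : 0 < ∫ z in (0:ℝ)..1, ps n 1 z := by
    apply intervalIntegral.intervalIntegral_pos_of_pos_on
      (ps_int n one_pos le_rfl zero_le_one le_rfl) _ one_pos
    intro z hz
    unfold ps
    have h2 := h_nonneg n one_pos hz.1.le hz.2.le
    have h3 : 0 < √(1 + 4 * gz n z / 1) := Real.sqrt_pos.2 (by linarith)
    have h4 : 0 < (1 - z) ^ n := pow_pos (by linarith [hz.2]) n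
    positivity
  simp only [div_one, Real.log_one]
  linarith

end SIGNL

open SIGNL in
theorem SIGN_proof : S_SIGN := by
  intro n _
  have h6 : 0 < Qf n (1 / 6) := small n (by norm_num) le_rfl
  have h1 := Q_one n
  obtain ⟨a₀, ha₀, hQ⟩ := intermediate_value_Icc' (by norm_num : (1 / 6 : ℝ) ≤ 1) (Q_cont n)
    (show (0:ℝ) ∈ Icc (Qf n 1) (Qf n (1 / 6)) from ⟨h1.le, h6.le⟩)
  refine ⟨a₀, ⟨by linarith [ha₀.1], ?_, hQ⟩, ?_, ?_⟩
  · rcases ha₀.2.eq_or_lt with h | h
    · rw [h] at hQ
      linarith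
    · exact h
  · intro a ha haa
    by_cases h : a ≤ 1 / 6
    · exact small n ha h
    · push Not at h
      have := Q_anti n h.le haa
      linarith
  · intro a ha _
    have := Q_anti n ha₀.1 ha
    linarith

end Pool.Agent.H356R3.HT
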