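import Pool.Agent.H356R3.HT.Defs

set_option autoImplicit false
open MeasureTheory Set Pointwise

namespace Pool.Agent.H356R3.HT

namespace TRANL

/-- the integrand of `Hk` without the singularity -/
noncomputable def ph (n : ℕ) (k z : ℝ) : ℝ := (1 - z) ^ n / (√(gz n z + k ^ 2) + k)

theorem ph_cont (n : ℕ) {k : ℝ} (hk : 0 < k) : Continuous (ph n k) := by
  unfold ph gz
  refine Continuous.div (by fun_prop) (by fun_prop) fun z => ?_
  have := Real.sqrt_nonneg (z * (1 - z) ^ n + k ^ 2)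
  exact (by linarith : 0 < √(z * (1 - z) ^ n + k ^ 2) + k).ne'

theorem gz_nonneg (n : ℕ) {z : ℝ} (h0 : 0 ≤ z) (h1 : z ≤ 1) : 0 ≤ gz n z :=
  mul_nonneg h0 (pow_nonneg (by linarith) n)

theorem Hk_eq (n : ℕ) {k : ℝ} (hk : 0 < k) {y : ℝ} (h0 : 0 ≤ y) (h1 : y ≤ 1) :
    Hk n k y = 1 / 2 * ∫ z in (0:ℝ)..y, ph n k z := by
  unfold Hk
  congr 1
  refine intervalIntegral.integral_congr_ae (Filter.Eventually.of_forall fun z hz => ?_)
  rw [uIoc_of_le h0] at hz
  have hz0 : 0 < z := hz.1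
  have hz1 : z ≤ 1 := hz.2.trans h1
  have hg := gz_nonneg n hz0.le hz1
  have hs : √(gz n z + k ^ 2) ^ 2 = z * (1 - z) ^ n + k ^ 2 := Real.sq_sqrt (by positivity)
  unfold ph
  have hpos : 0 < √(gz n z + k ^ 2) + k := by positivity
  rw [div_eq_div_iff hz0.ne' hpos.ne']
  linear_combination hs

/-- primitives -/
theorem prim (b : ℝ) (f : ℝ → ℝ) (hb : 0 ≤ b) (hc : ContinuousOn f (Ioo 0 b))
    (hpos : ∀ x ∈ Ioo 0 b, 0 < f x) (h1 : ∀ x ∈ Ioo 0 b, f x ≤ 1) :
    ∃ P : ℝ → ℝ, P 0 = 0 ∧ (P b = ∫ x in (0:ℝ)..b, f x) ∧ Continuous P ∧ StrictMono P ∧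
      (∀ x ∈ Ioo 0 b, HasDerivAt P (f x) x) ∧ ∀ x, 0 ≤ x → P x ≤ x := by
  classical
  set e : ℝ → ℝ := (Ioo 0 b).piecewise f (fun _ => 1) with he
  have hme : Measurable e :=
    ContinuousOn.measurable_piecewise hc continuousOn_const measurableSet_Ioo
  have hein : ∀ x ∈ Ioo 0 b, e x = f x := fun x hx => Set.piecewise_eq_of_mem _ _ _ hx
  have hepos : ∀ x, 0 < e x := by
    intro x
    by_cases hx : x ∈ Ioo 0 b
    · rw [hein x hx]; exact hpos x hx
    · rw [he, Set.piecewise_eq_of_notMem _ _ _ hx]; exact one_pos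
  have hele : ∀ x, e x ≤ 1 := by
    intro x
    by_cases hx : x ∈ Ioo 0 b
    · rw [hein x hx]; exact h1 x hx
    · rw [he, Set.piecewise_eq_of_notMem _ _ _ hx]
  have hint : ∀ x y : ℝ, IntervalIntegrable e volume x y := by
    intro x y
    refine (intervalIntegrable_const (c := (1:ℝ))).mono_fun hme.aestronglyMeasurable ?_
    refine Filter.Eventually.of_forall fun z => ?_
    simp only [Real.norm_eq_abs]
    rw [abs_of_pos (hepos z), abs_one]
    exact hele z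
  refine ⟨fun x => ∫ t in (0:ℝ)..x, e t, ?_, ?_, ?_, ?_, ?_, ?_⟩
  · simp
  · refine intervalIntegral.integral_congr_ae ?_
    have : ∀ᵐ x : ℝ, x ≠ b := by
      rw [ae_iff]
      simp only [ne_eq, not_not, Set.ofPred_eq_eq_singleton, Real.volume_singleton]
    filter_upwards [this] with x hx hx'
    rw [uIoc_of_le hb] at hx'
    exact hein x ⟨hx'.1, lt_of_le_of_ne hx'.2 hx⟩
  · exact intervalIntegral.continuous_primitive hint 0
  · intro x y hxy
    have h2 : (∫ t in (0:ℝ)..x, e t) + ∫ t in x..y, e t = ∫ t in (0:ℝ)..y, e t :=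
      intervalIntegral.integral_add_adjacent_intervals (hint _ _) (hint _ _)
    have h3 : 0 < ∫ t in x..y, e t :=
      intervalIntegral.intervalIntegral_pos_of_pos_on (hint x y) (fun z _ => hepos z) hxy
    show (∫ t in (0:ℝ)..x, e t) < ∫ t in (0:ℝ)..y, e t
    linarith
  · intro x hx
    rw [← hein x hx]
    refine intervalIntegral.integral_hasDerivAt_right (hint 0 x)
      hme.stronglyMeasurable.stronglyMeasurableAtFilter ?_
    have h4 : e =ᶠ[nhds x] f := by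
      filter_upwards [Ioo_mem_nhds hx.1 hx.2] with z hz using hein z hz
    exact (hc.continuousAt (Ioo_mem_nhds hx.1 hx.2)).congr h4.symm
  · intro x hx
    have h5 : (∫ t in (0:ℝ)..x, e t) ≤ ∫ _ in (0:ℝ)..x, (1:ℝ) :=
      intervalIntegral.integral_mono_on hx (hint 0 x) intervalIntegrable_const
        (fun z _ => hele z)
    simpa using h5

/-- inverse functions -/
theorem inv (P : ℝ → ℝ) (hc : Continuous P) (hm : StrictMono P) (h0 : P 0 = 0) (b : ℝ)
    (hb : 0 ≤ b) : ∃ Q : ℝ → ℝ, (∀ y ∈ Icc 0 (P b), Q y ∈ Icc 0 b ∧ P (Q y) = y) ∧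
      ContinuousOn Q (Icc 0 (P b)) := by
  have h1 : ∀ y : ℝ, ∃ x : ℝ, y ∈ Icc 0 (P b) → x ∈ Icc 0 b ∧ P x = y := by
    intro y
    by_cases hy : y ∈ Icc 0 (P b)
    · have := intermediate_value_Icc hb hc.continuousOn (f := P)
      rw [h0] at this
      obtain ⟨x, hx, hxy⟩ := this hy
      exact ⟨x, fun _ => ⟨hx, hxy⟩⟩
    · exact ⟨0, fun h => absurd h hy⟩
  choose Q hQ using h1
  refine ⟨Q, hQ, fun y hy => ?_⟩
  refine tendsto_order.2 ⟨fun c hc' => ?_, fun c hc' => ?_⟩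
  · have h2 : P c < y := by
      have := hm hc'
      rwa [(hQ y hy).2] at this
    have h3 : ∀ᶠ z in nhdsWithin y (Icc 0 (P b)), P c < z :=
      Filter.Eventually.filter_mono nhdsWithin_le_nhds (Ioi_mem_nhds h2)
    filter_upwards [h3, self_mem_nhdsWithin] with z hz hz'
    rw [← (hQ z hz').2] at hz
    exact hm.lt_iff_lt.1 hz
  · have h2 : y < P c := by
      have := hm hc'
      rwa [(hQ y hy).2] at this
    have h3 : ∀ᶠ z in nhdsWithin y (Icc 0 (P b)), z < P c :=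
      Filter.Eventually.filter_mono nhdsWithin_le_nhds (Iio_mem_nhds h2)
    filter_upwards [h3, self_mem_nhdsWithin] with z hz hz'
    rw [← (hQ z hz').2] at hz
    exact hm.lt_iff_lt.1 hz

/-- the pointwise inequality -/
theorem pointwise (n : ℕ) {k t T T' F g lam : ℝ} (hk : 0 < k) (ht : 0 < t) (hT : 0 < T)
    (htT : t * T < 1) (hF : 0 < F) (hg : 0 < g) (hlam : 0 < lam) (hT' : T' = lam * F / g)
    (hfg : F * g ≤ (1 - t * T) ^ n) :
    √lam * F ≤ k * (T' / T) + 1 / 2 * (ph n k (t * T) * (T + t * T')) := by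
  have hT'pos : 0 < T' := by rw [hT']; positivity
  have hy : 0 < t * T := mul_pos ht hT
  have hgz := gz_nonneg n hy.le htT.le
  set w : ℝ := √(gz n (t * T) + k ^ 2) with hw
  have hw2 : w ^ 2 = (t * T) * (1 - t * T) ^ n + k ^ 2 := Real.sq_sqrt (by positivity)
  have hwk : k ≤ w := by
    rw [hw]
    refine Real.le_sqrt_of_sq_le ?_
    linarith
  have hph : ph n k (t * T) = (w - k) / (t * T) := by
    unfold ph
    rw [← hw, div_eq_div_iff (by positivity) hy.ne']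
    linear_combination -hw2
  set X : ℝ := (w + k) / 2 * (T' / T) with hX
  set Y : ℝ := (w - k) / 2 / t with hY
  have hXY : k * (T' / T) + 1 / 2 * (ph n k (t * T) * (T + t * T')) = X + Y := by
    rw [hph, hX, hY]
    field_simp
    ring
  rw [hXY]
  have hX0 : 0 < X := by positivity
  have hY0 : 0 ≤ Y := by
    have : 0 ≤ w - k := by linarith
    positivity
  have h4 : 4 * (X * Y) = (1 - t * T) ^ n * T' := by
    have : 4 * (X * Y) = (w ^ 2 - k ^ 2) * (T' / (t * T)) := by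
      rw [hX, hY]
      field_simp
      ring
    rw [this, hw2]
    field_simp
    ring
  have h5 : lam * F ^ 2 ≤ (1 - t * T) ^ n * T' := by
    have : lam * F ^ 2 = (F * g) * T' := by
      rw [hT']
      field_simp
    rw [this]
    exact mul_le_mul_of_nonneg_right hfg hT'pos.le
  have h6 : (√lam * F) ^ 2 ≤ (X + Y) ^ 2 := by
    rw [mul_pow, Real.sq_sqrt hlam.le]
    nlinarith [sq_nonneg (X - Y)]
  exact (sq_le_sq₀ (by positivity) (by positivity)).1 h6

end TRANL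

open TRANL in
theorem TRAN_proof : S_TRAN := by
  intro n ℓ f g β hn hR hβ
  have hℓ : 0 < ℓ := lt_of_lt_of_le one_pos hR.hℓ
  have hℓ' : 0 < 1 / ℓ := by positivity
  have hℓ1 : 1 / ℓ ≤ 1 := by
    rw [div_le_one hℓ]; exact hR.hℓ
  obtain ⟨Φ, Φ0, Φℓ, Φc, Φm, Φd, -⟩ := prim ℓ f hℓ.le hR.fc hR.fpos hR.f1
  obtain ⟨G, G0, Gℓ, Gc, Gm, Gd, Gle⟩ := prim (1 / ℓ) g hℓ'.le hR.gc hR.gpos hR.g1
  rw [← Φℓ, ← Gℓ]
  obtain ⟨Q, hQ, hQc⟩ := inv G Gc Gm G0 (1 / ℓ) hℓ'.le
  set B : ℝ := G (1 / ℓ) with hB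
  set A : ℝ := 1 + Φ ℓ with hA
  have hBpos : 0 < B := by
    rw [hB, ← G0]; exact Gm hℓ'
  have hΦℓ : 0 < Φ ℓ := by
    rw [← Φ0]; exact Φm hℓ
  have hApos : 0 < A := by linarith
  set lam : ℝ := B / A with hlam
  have hlampos : 0 < lam := by positivity
  have hlamA : lam * A = B := by rw [hlam]; field_simp
  -- the function `h`
  have hh0 : ∀ t, 0 ≤ t → 0 ≤ Φ t := fun t ht => by
    rw [← Φ0]; exact Φm.monotone ht
  have hhI : ∀ t ∈ Icc 0 ℓ, lam * (1 + Φ t) ∈ Icc 0 B := by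
    intro t ht
    have h1 := hh0 t ht.1
    have h2 : Φ t ≤ Φ ℓ := Φm.monotone ht.2
    refine ⟨by positivity, ?_⟩
    rw [← hlamA]
    exact mul_le_mul_of_nonneg_left (by linarith) hlampos.le
  have hhI' : ∀ t ∈ Ioo 0 ℓ, lam * (1 + Φ t) ∈ Ioo 0 B := by
    intro t ht
    have h1 := hh0 t ht.1.le
    have h2 : Φ t < Φ ℓ := Φm ht.2
    refine ⟨by positivity, ?_⟩
    rw [← hlamA]
    exact mul_lt_mul_of_pos_left (by linarith) hlampos
  set T : ℝ → ℝ := fun t => Q (lam * (1 + Φ t)) with hT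
  have hTI : ∀ t ∈ Icc 0 ℓ, T t ∈ Icc 0 (1 / ℓ) := fun t ht => (hQ _ (hhI t ht)).1
  have hTG : ∀ t ∈ Icc 0 ℓ, G (T t) = lam * (1 + Φ t) := fun t ht => (hQ _ (hhI t ht)).2
  have hTpos : ∀ t ∈ Icc 0 ℓ, 0 < T t := by
    intro t ht
    have h1 := hTG t ht
    have h2 := hh0 t ht.1
    refine lt_of_not_ge fun hc => ?_
    have h3 : G (T t) ≤ 0 := by
      rw [← G0]; exact Gm.monotone hc
    have h4 : 0 < lam * (1 + Φ t) := by positivity
    linarith
  have hTlt : ∀ t ∈ Ioo 0 ℓ, T t < 1 / ℓ := by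
    intro t ht
    have h1 := hTG t ⟨ht.1.le, ht.2.le⟩
    have h2 := (hhI' t ht).2
    rw [← h1, hB] at h2
    exact Gm.lt_iff_lt.1 h2
  have hTc : ContinuousOn T (Icc 0 ℓ) :=
    hQc.comp (by fun_prop) hhI
  have hTℓ : T ℓ = 1 / ℓ := by
    have h1 := hTG ℓ ⟨hℓ.le, le_rfl⟩
    rw [← hA, hlamA, hB] at h1
    exact Gm.injective h1
  have hT0 : lam ≤ T 0 := by
    have h1 := hTG 0 ⟨le_rfl, hℓ.le⟩
    rw [Φ0, add_zero, mul_one] at h1
    rw [← h1]
    exact Gle _ (hTI 0 ⟨le_rfl, hℓ.le⟩).1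
  have hT01 : T 0 ≤ 1 := (hTI 0 ⟨le_rfl, hℓ.le⟩).2.trans hℓ1
  have hT0pos : 0 < T 0 := hTpos 0 ⟨le_rfl, hℓ.le⟩
  -- derivative of `T`
  have hTd : ∀ t ∈ Ioo 0 ℓ, HasDerivAt T (lam * f t / g (T t)) t := by
    intro t ht
    have ht' : t ∈ Icc 0 ℓ := ⟨ht.1.le, ht.2.le⟩
    have hTt : T t ∈ Ioo 0 (1 / ℓ) := ⟨hTpos t ht', hTlt t ht⟩
    have h1 : HasDerivAt Q (g (T t))⁻¹ (lam * (1 + Φ t)) := by
      refine HasDerivAt.of_local_left_inverse
        (hQc.continuousAt (Icc_mem_nhds (hhI' t ht).1 (hhI' t ht).2)) (Gd (T t) hTt)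
        (hR.gpos _ hTt).ne' ?_
      filter_upwards [Icc_mem_nhds (hhI' t ht).1 (hhI' t ht).2] with y hy using (hQ y hy).2
    have h2 : HasDerivAt (fun t => lam * (1 + Φ t)) (lam * f t) t :=
      ((Φd t ht).const_add 1).const_mul lam
    have h3 := h1.comp t h2
    rw [div_eq_inv_mul]
    exact h3
  -- the constant `k`
  set k : ℝ := √(T 0) / 2 with hk
  have hkpos : 0 < k := by
    have := Real.sqrt_pos.2 hT0pos
    positivity
  have hk2 : k ≤ 1 / 2 := by
    have : √(T 0) ≤ 1 := Real.sqrt_le_one.2 hT01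
    rw [hk]; linarith
  have hBB := hβ k hkpos hk2
  -- monotonicity
  set H : ℝ → ℝ := fun y => ∫ z in (0:ℝ)..y, ph n k z with hH
  have hHd : ∀ y, HasDerivAt H (ph n k y) y := fun y =>
    intervalIntegral.integral_hasDerivAt_right ((ph_cont n hkpos).intervalIntegrable _ _)
      ((ph_cont n hkpos).stronglyMeasurableAtFilter _ _) (ph_cont n hkpos).continuousAt
  have hHc : Continuous H := continuous_iff_continuousAt.2 fun y => (hHd y).continuousAt
  set D : ℝ → ℝ := fun t => k * Real.log (T t) + 1 / 2 * H (t * T t) - √lam * Φ t with hD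
  have hDc : ContinuousOn D (Icc 0 ℓ) := by
    refine ((continuousOn_const.mul (hTc.log fun t ht => (hTpos t ht).ne')).add
      (continuousOn_const.mul (hHc.comp_continuousOn (continuousOn_id.mul hTc)))).sub
      (continuousOn_const.mul Φc.continuousOn)
  have hDd : ∀ t ∈ Ioo 0 ℓ, HasDerivAt D (k * (lam * f t / g (T t) / T t) +
      1 / 2 * (ph n k (t * T t) * (T t + t * (lam * f t / g (T t)))) - √lam * f t) t := by
    intro t ht
    have ht' : t ∈ Icc 0 ℓ := ⟨ht.1.le, ht.2.le⟩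
    have h1 := (hTd t ht).log (hTpos t ht').ne'
    have h2 : HasDerivAt (fun t => t * T t) (T t + t * (lam * f t / g (T t))) t := by
      have := (hasDerivAt_id t).mul (hTd t ht)
      rw [one_mul] at this
      exact this
    have h3 := (hHd (t * T t)).comp t h2
    exact ((h1.const_mul k).add (h3.const_mul (1 / 2))).sub ((Φd t ht).const_mul (√lam))
  have hmono : MonotoneOn D (Icc 0 ℓ) := by
    refine monotoneOn_of_deriv_nonneg (convex_Icc 0 ℓ) hDc ?_ ?_
    · rw [interior_Icc]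
      exact fun t ht => (hDd t ht).differentiableAt.differentiableWithinAt
    · rw [interior_Icc]
      intro t ht
      have ht' : t ∈ Icc 0 ℓ := ⟨ht.1.le, ht.2.le⟩
      have hTt : T t ∈ Ioo 0 (1 / ℓ) := ⟨hTpos t ht', hTlt t ht⟩
      have htT : t * T t < 1 := by
        have : t * T t < ℓ * (1 / ℓ) := mul_lt_mul'' ht.2 hTt.2 ht.1.le hTt.1.le
        rwa [mul_one_div_cancel hℓ.ne'] at this
      rw [(hDd t ht).deriv]
      have := pointwise n hkpos ht.1 hTt.1 htT (hR.fpos t ht) (hR.gpos _ hTt) hlampos rfl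
        (hR.fg t ht _ hTt)
      linarith
  have hfin : D 0 ≤ D ℓ := hmono ⟨le_rfl, hℓ.le⟩ ⟨hℓ.le, le_rfl⟩ hℓ.le
  have hD0 : D 0 = k * Real.log (T 0) := by
    simp only [hD, hH, zero_mul, Φ0, intervalIntegral.integral_same, mul_zero, add_zero, sub_zero]
  have hDℓ : D ℓ ≤ Hk n k 1 - √lam * Φ ℓ := by
    have h1 : Hk n k 1 = 1 / 2 * H 1 := Hk_eq n hkpos zero_le_one le_rfl
    have h2 : ℓ * T ℓ = 1 := by
      rw [hTℓ, mul_one_div_cancel hℓ.ne']
    have h3 : Real.log (T ℓ) ≤ 0 := by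
      rw [hTℓ]
      exact Real.log_nonpos hℓ'.le hℓ1
    have h4 : k * Real.log (T ℓ) ≤ 0 := mul_nonpos_of_nonneg_of_nonpos hkpos.le h3
    simp only [hD]
    rw [h2, h1]
    linarith
  have hmain : √lam * A ≤ β := by
    refine le_trans ?_ hBB
    have h1 : √lam ≤ √(T 0) := Real.sqrt_le_sqrt hT0
    have h2 : 2 * k = √(T 0) := by rw [hk]; ring
    have h3 : Real.log (2 * k) = Real.log (T 0) / 2 := by
      rw [h2, Real.log_sqrt hT0pos.le]
    unfold BB
    rw [h3, hA]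
    rw [hD0] at hfin
    have h5 : √lam * (1 + Φ ℓ) = √lam + √lam * Φ ℓ := by ring
    rw [h5]
    have h6 : 2 * k * (Real.log (T 0) / 2) = k * Real.log (T 0) := by ring
    rw [h6]
    linarith
  have h0 : 0 ≤ √lam * A := by positivity
  calc B * A = (√lam * A) ^ 2 := by
        rw [mul_pow, Real.sq_sqrt hlampos.le, ← hlamA]; ring
    _ ≤ β ^ 2 := pow_le_pow_left₀ h0 hmain 2

end Pool.Agent.H356R3.HT
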