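import Pool.Agent.H356R3.HT.Defs

set_option autoImplicit false
open MeasureTheory Set Pointwise

namespace Pool.Agent.H356R3.HT

open Pool.Agent.Helper481.MS (IsConvexBody relBall proj)
open Pool.Agent.Helper481.MB (kappa eball eball_compact)

theorem crit_unique (hSIGN : S_SIGN) (n : ℕ) (hn : 1 ≤ n) : ∃! a, IsCrit n a := by
  obtain ⟨a₀, h0, h1, h2⟩ := hSIGN n hn
  refine ⟨a₀, h0, fun a ha => ?_⟩
  obtain ⟨ha0, ha1, haq⟩ := ha
  rcases lt_trichotomy a a₀ with h | h | h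
  · have := h1 a ha0 h
    rw [haq] at this
    exact absurd this (lt_irrefl _)
  · exact h
  · have := h2 a h ha1.le
    rw [haq] at this
    exact absurd this (lt_irrefl _)

theorem BB_max (hSIGN : S_SIGN) (hDER : S_DER) (n : ℕ) (hn : 1 ≤ n) (a : ℝ) (ha : IsCrit n a) :
    ∀ k, 0 < k → k ≤ 1 / 2 → BB n k ≤ BB n (√a / 2) := by
  obtain ⟨a₀, h0, h1, h2⟩ := hSIGN n hn
  have haa : a = a₀ := (crit_unique hSIGN n hn).unique ha h0
  subst haa
  obtain ⟨ha0, ha1, haq⟩ := ha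
  have hsq : 0 < √a := Real.sqrt_pos.2 ha0
  have hss : √a ^ 2 = a := Real.sq_sqrt ha0.le
  intro k hk hk1
  rcases le_total k (√a / 2) with h | h
  · have hd : ∀ x ∈ Icc k (√a / 2), HasDerivAt (BB n) (Qf n (4 * x ^ 2)) x :=
      fun x hx => hDER n hn x (hk.trans_le hx.1)
    have hm : MonotoneOn (BB n) (Icc k (√a / 2)) := by
      refine monotoneOn_of_deriv_nonneg (convex_Icc _ _)
        (fun x hx => (hd x hx).continuousAt.continuousWithinAt) ?_ ?_
      · intro x hx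
        exact (hd x (interior_subset hx)).differentiableAt.differentiableWithinAt
      · intro x hx
        rw [interior_Icc] at hx
        rw [(hd x ⟨hx.1.le, hx.2.le⟩).deriv]
        refine (h1 _ (by have := hk.trans hx.1; positivity) ?_).le
        have hx0 : 0 < x := hk.trans hx.1
        nlinarith [hx.2]
    exact hm (left_mem_Icc.2 h) (right_mem_Icc.2 h) h
  · have hd : ∀ x ∈ Icc (√a / 2) k, HasDerivAt (BB n) (Qf n (4 * x ^ 2)) x :=
      fun x hx => hDER n hn x (by linarith [hx.1])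
    have hm : AntitoneOn (BB n) (Icc (√a / 2) k) := by
      refine antitoneOn_of_deriv_nonpos (convex_Icc _ _)
        (fun x hx => (hd x hx).continuousAt.continuousWithinAt) ?_ ?_
      · intro x hx
        exact (hd x (interior_subset hx)).differentiableAt.differentiableWithinAt
      · intro x hx
        rw [interior_Icc] at hx
        rw [(hd x ⟨hx.1.le, hx.2.le⟩).deriv]
        have hx0 : 0 < x := by linarith [hx.1]
        refine (h2 _ ?_ ?_).le
        · nlinarith [hx.1]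
        · nlinarith [hx.2]
    exact hm (left_mem_Icc.2 h) (right_mem_Icc.2 h) h

theorem pair_bound (hSIGN : S_SIGN) (hDER : S_DER) (hVAL : S_VAL) (hTRAN : S_TRAN)
    (hREGU : S_REGU) (n : ℕ) (hn : 1 ≤ n) (a : ℝ) (ha : IsCrit n a) (f g : ℝ → ℝ)
    (hfg : Adm n f g) :
    (∫⁻ s in Ioi (0:ℝ), ENNReal.ofReal (g s)) * (1 + ∫⁻ t in Ioi (0:ℝ), ENNReal.ofReal (f t)) ≤
      ENNReal.ofReal (a * (1 + vI n a) ^ 2) := by
  rcases hREGU n f g hn hfg with h | ⟨ℓ, f', g', hr, hf, hg⟩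
  · rw [h, zero_mul]
    exact zero_le
  · obtain ⟨hv0, hv⟩ := hVAL n hn a ha
    have h1 := hTRAN n ℓ f' g' (BB n (√a / 2)) hn hr (BB_max hSIGN hDER n hn a ha)
    rw [hv, mul_pow, Real.sq_sqrt ha.1.le] at h1
    have hℓ : (0:ℝ) < ℓ := lt_of_lt_of_le one_pos hr.hℓ
    have hF : 0 ≤ ∫ t in (0:ℝ)..ℓ, f' t := by
      rw [intervalIntegral.integral_of_le hℓ.le, integral_Ioc_eq_integral_Ioo]
      exact setIntegral_nonneg measurableSet_Ioo fun t ht => (hr.fpos t ht).le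
    have hG : 0 ≤ ∫ s in (0:ℝ)..(1 / ℓ), g' s := by
      rw [intervalIntegral.integral_of_le (by positivity), integral_Ioc_eq_integral_Ioo]
      exact setIntegral_nonneg measurableSet_Ioo fun t ht => (hr.gpos t ht).le
    calc (∫⁻ s in Ioi (0:ℝ), ENNReal.ofReal (g s)) *
          (1 + ∫⁻ t in Ioi (0:ℝ), ENNReal.ofReal (f t))
        ≤ ENNReal.ofReal (∫ s in (0:ℝ)..(1 / ℓ), g' s) *
          (1 + ENNReal.ofReal (∫ t in (0:ℝ)..ℓ, f' t)) := by gcongr
      _ = ENNReal.ofReal ((∫ s in (0:ℝ)..(1 / ℓ), g' s) * (1 + ∫ t in (0:ℝ)..ℓ, f' t)) := by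
          rw [ENNReal.ofReal_mul hG, ENNReal.ofReal_add zero_le_one hF, ENNReal.ofReal_one]
      _ ≤ _ := ENNReal.ofReal_le_ofReal h1

theorem upper (hSAN : S_SAN) (hSIGN : S_SIGN) (hDER : S_DER) (hVAL : S_VAL) (hTRAN : S_TRAN)
    (hREGU : S_REGU) (hGEO : S_SAN → S_GEO) (hLIN : S_LIN) (n : ℕ) (hn : 1 ≤ n) (a : ℝ)
    (ha : IsCrit n a) (K : Set (Fin (n + 1) → ℝ)) (hK : IsConvexBody K) :
    cTr htVol K ≤ 4 * kappa n ^ 2 / kappa (n + 1) * ENNReal.ofReal (a * (1 + vI n a) ^ 2) := by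
  refine iSup_le fun p => iSup_le fun hp => ?_
  obtain ⟨M, hMc, hMx, hMi, hMs, hMe, hle⟩ := hLIN n K p hK hp
  obtain ⟨f, g, hfg, hle2⟩ := hGEO hSAN n M hn hMc hMx hMi hMs hMe
  have h3 := pair_bound hSIGN hDER hVAL hTRAN hREGU n hn a ha f g hfg
  unfold htVol
  have h4 : volume (polar (relBall K)) * volume (convexHull ℝ (K ∪ (p +ᵥ K))) ≤
      4 * kappa n ^ 2 * ENNReal.ofReal (a * (1 + vI n a) ^ 2) :=
    (hle.trans hle2).trans (by gcongr)
  calc volume (polar (relBall K)) / kappa (n + 1) * volume (convexHull ℝ (K ∪ (p +ᵥ K)))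
      = volume (polar (relBall K)) * volume (convexHull ℝ (K ∪ (p +ᵥ K))) / kappa (n + 1) := by
        rw [div_eq_mul_inv, div_eq_mul_inv]; ring
    _ ≤ 4 * kappa n ^ 2 * ENNReal.ofReal (a * (1 + vI n a) ^ 2) / kappa (n + 1) := by gcongr
    _ = _ := by rw [div_eq_mul_inv, div_eq_mul_inv]; ring

theorem lower (hVAL : S_VAL) (hLOW : S_LOW) (hBODY : S_BODY) (n : ℕ) (hn : 1 ≤ n) (a : ℝ)
    (ha : IsCrit n a) : ∃ K : Set (Fin (n + 1) → ℝ), IsConvexBody K ∧
    4 * kappa n ^ 2 / kappa (n + 1) * ENNReal.ofReal (a * (1 + vI n a) ^ 2) ≤ cTr htVol K := by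
  obtain ⟨f, g, hf, hg, hf0, hfn, hgn, hg1, hfg, hF, hG⟩ := hLOW n a hn ha
  obtain ⟨K, hK, hle⟩ := hBODY n a f g hn ha.1 ha.2.1 hf hg hf0 hfn hgn hg1 hfg
  refine ⟨K, hK, le_trans ?_ hle⟩
  obtain ⟨hv0, -⟩ := hVAL n hn a ha
  have ha0 := ha.1
  have h1 : ENNReal.ofReal (a * (1 + vI n a) ^ 2) =
      ENNReal.ofReal (a * (1 + vI n a)) * (1 + ENNReal.ofReal (vI n a)) := by
    rw [← ENNReal.ofReal_one, ← ENNReal.ofReal_add zero_le_one hv0,
      ← ENNReal.ofReal_mul (by positivity)]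
    congr 1
    ring
  rw [h1]
  gcongr

end Pool.Agent.H356R3.HT
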