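import Pool.Agent.H356R3.HT.Defs

/-! VAL (helper51): the value of `BB` at the critical point. -/

set_option autoImplicit false
open MeasureTheory Set Pointwise

namespace Pool.Agent.H356R3.HT

namespace VALL

/-- the square root -/
noncomputable def r (n : ℕ) (a z : ℝ) : ℝ := √(1 + 4 * gz n z / a)

theorem gz_nonneg {n : ℕ} {z : ℝ} (hz : z ∈ Icc (0:ℝ) 1) : 0 ≤ gz n z := by
  unfold gz
  have h1 := hz.1
  have h2 : 0 ≤ 1 - z := by linarith [hz.2]
  positivity

theorem one_le_r {n : ℕ} {a z : ℝ} (ha : 0 < a) (hz : z ∈ Icc (0:ℝ) 1) : 1 ≤ r n a z := by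
  unfold r
  rw [Real.one_le_sqrt]
  have := gz_nonneg (n := n) hz
  have : 0 ≤ 4 * gz n z / a := by positivity
  linarith

theorem r_sq {n : ℕ} {a z : ℝ} (ha : 0 < a) (hz : z ∈ Icc (0:ℝ) 1) :
    r n a z ^ 2 = 1 + 4 * gz n z / a := by
  unfold r
  apply Real.sq_sqrt
  have := gz_nonneg (n := n) hz
  positivity

theorem r_cont (n : ℕ) (a : ℝ) : Continuous (r n a) := by
  unfold r gz
  fun_prop

theorem int1 {n : ℕ} {a : ℝ} (ha : 0 < a) :
    ∫ z in (0:ℝ)..1, (1 - 1 / √(1 + 4 * gz n z / a)) / z =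
      ∫ z in (0:ℝ)..1, 4 * (1 - z) ^ n / (a * (r n a z * (r n a z + 1))) := by
  rw [intervalIntegral.integral_of_le zero_le_one, intervalIntegral.integral_of_le zero_le_one]
  apply setIntegral_congr_fun measurableSet_Ioc
  intro z hz
  have hz' : z ∈ Icc (0:ℝ) 1 := ⟨hz.1.le, hz.2⟩
  have h1 := one_le_r (n := n) ha hz'
  have h2 := r_sq (n := n) ha hz'
  have hz0 : z ≠ 0 := hz.1.ne'
  have hr0 : r n a z ≠ 0 := by positivity
  have hr1 : r n a z + 1 ≠ 0 := by positivity
  show (1 - 1 / r n a z) / z = _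
  have h3 : (r n a z - 1) * (r n a z + 1) * a = 4 * (z * (1 - z) ^ n) := by
    have : (r n a z - 1) * (r n a z + 1) = r n a z ^ 2 - 1 := by ring
    rw [this, h2]
    unfold gz
    field_simp
    ring
  rw [div_eq_div_iff hz0 (by positivity)]
  have h4 : (1 - 1 / r n a z) * r n a z = r n a z - 1 := by
    field_simp
  calc (1 - 1 / r n a z) * (a * (r n a z * (r n a z + 1)))
      = ((1 - 1 / r n a z) * r n a z) * (r n a z + 1) * a := by ring
    _ = (r n a z - 1) * (r n a z + 1) * a := by rw [h4]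
    _ = 4 * (1 - z) ^ n * z := by rw [h3]; ring

theorem int2 {n : ℕ} {a : ℝ} (ha : 0 < a) :
    ∫ z in (0:ℝ)..1, (√(gz n z + (√a / 2) ^ 2) - √a / 2) / z =
      √a / 2 * ∫ z in (0:ℝ)..1, 4 * (1 - z) ^ n / (a * (r n a z + 1)) := by
  rw [← intervalIntegral.integral_const_mul]
  rw [intervalIntegral.integral_of_le zero_le_one, intervalIntegral.integral_of_le zero_le_one]
  apply setIntegral_congr_fun measurableSet_Ioc
  intro z hz
  have hz' : z ∈ Icc (0:ℝ) 1 := ⟨hz.1.le, hz.2⟩
  have h1 := one_le_r (n := n) ha hz'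
  have h2 := r_sq (n := n) ha hz'
  have hz0 : z ≠ 0 := hz.1.ne'
  have hr1 : r n a z + 1 ≠ 0 := by positivity
  have hsa : √a ^ 2 = a := Real.sq_sqrt ha.le
  have h5 : √(gz n z + (√a / 2) ^ 2) = √a / 2 * r n a z := by
    rw [← Real.sqrt_sq (show 0 ≤ √a / 2 * r n a z by positivity)]
    congr 1
    rw [mul_pow, h2, div_pow, hsa]
    field_simp
    ring
  show (√(gz n z + (√a / 2) ^ 2) - √a / 2) / z = _
  rw [h5]
  have h3 : (r n a z - 1) * (r n a z + 1) * a = 4 * (z * (1 - z) ^ n) := by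
    have : (r n a z - 1) * (r n a z + 1) = r n a z ^ 2 - 1 := by ring
    rw [this, h2]
    unfold gz
    field_simp
    ring
  have h6 : (r n a z - 1) / z = 4 * (1 - z) ^ n / (a * (r n a z + 1)) := by
    rw [div_eq_div_iff hz0 (by positivity)]
    calc (r n a z - 1) * (a * (r n a z + 1)) = (r n a z - 1) * (r n a z + 1) * a := by ring
      _ = 4 * (1 - z) ^ n * z := by rw [h3]; ring
  show (√a / 2 * r n a z - √a / 2) / z = √a / 2 * (4 * (1 - z) ^ n / (a * (r n a z + 1)))
  rw [← h6]
  ring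

theorem int3 {n : ℕ} {a : ℝ} (ha : 0 < a) :
    (∫ z in (0:ℝ)..1, 4 * (1 - z) ^ n / (a * (r n a z * (r n a z + 1)))) +
      (∫ z in (0:ℝ)..1, 4 * (1 - z) ^ n / (a * (r n a z + 1))) = 4 * vI n a := by
  rw [← intervalIntegral.integral_add]
  · unfold vI
    rw [← intervalIntegral.integral_const_mul, ← intervalIntegral.integral_const_mul]
    apply intervalIntegral.integral_congr
    intro z hz
    rw [uIcc_of_le zero_le_one] at hz
    have h1 := one_le_r (n := n) ha hz
    have hr0 : r n a z ≠ 0 := by positivity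
    have hr1 : r n a z + 1 ≠ 0 := by positivity
    show _ = 4 * (1 / a * ((1 - z) ^ n / r n a z))
    simp only
    field_simp
    ring
  · apply ContinuousOn.intervalIntegrable
    rw [uIcc_of_le zero_le_one]
    have hc := r_cont n a
    refine ContinuousOn.div (by fun_prop) (by fun_prop) ?_
    intro z hz
    have h1 := one_le_r (n := n) ha hz
    positivity
  · apply ContinuousOn.intervalIntegrable
    rw [uIcc_of_le zero_le_one]
    have hc := r_cont n a
    refine ContinuousOn.div (by fun_prop) (by fun_prop) ?_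
    intro z hz
    have h1 := one_le_r (n := n) ha hz
    positivity

end VALL

theorem VAL_proof : S_VAL := by
  rintro n hn a ⟨ha0, ha1, hQ⟩
  constructor
  · unfold vI
    apply mul_nonneg (by positivity)
    apply intervalIntegral.integral_nonneg zero_le_one
    intro z hz
    have h1 := VALL.one_le_r (n := n) ha0 hz
    have h2 : 0 ≤ 1 - z := by linarith [hz.2]
    positivity
  · have h1 := VALL.int1 (n := n) ha0
    have h2 := VALL.int2 (n := n) ha0
    have h3 := VALL.int3 (n := n) ha0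
    unfold Qf at hQ
    rw [h1] at hQ
    unfold BB Hk
    rw [h2]
    have h4 : 2 * (√a / 2) = √a := by ring
    have h5 : Real.log √a = - (1 / 2) * Real.log (1 / a) := by
      have h6 : Real.log (1 / a) = - Real.log a := by rw [one_div a, Real.log_inv]
      rw [Real.log_sqrt ha0.le, h6]
      ring
    rw [h4, h5]
    set I1 := ∫ z in (0:ℝ)..1, 4 * (1 - z) ^ n / (a * (VALL.r n a z * (VALL.r n a z + 1)))
    set I2 := ∫ z in (0:ℝ)..1, 4 * (1 - z) ^ n / (a * (VALL.r n a z + 1))
    have h6 : vI n a = (I1 + I2) / 4 := by linarith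
    have h7 : Real.log (1 / a) = 1 / 2 * I1 := by linarith
    rw [h6, h7]
    ring

end Pool.Agent.H356R3.HT
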